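import Pool.Agent.H891.BL.Ineq

/-! Certificates for the Brascamp-Lieb condition: constructions. -/

set_option autoImplicit false
set_option linter.unusedSectionVars false

namespace Pool.Agent.H891.BL

section

variable {F T : Type*} [Field F] [AddCommGroup T] [Module F T] {ι : Type*}
  (Ts : ι → Submodule F T)

/-- `m i` copies of `Ts i` generate `D` copies of `C` modulo `A`. -/
def Cert (m : ι → ℕ) (D : ℕ) [Fintype ι] (A C : Submodule F T) : Prop :=
  ∃ X : Fin D → (Σ i, Fin (m i)) → F, Good Ts (fun q : Σ i, Fin (m i) => q.1) X A C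

variable {Ts} [Fintype ι]

theorem cert_of {Rw Q : Type*} [Fintype Rw] [Fintype Q] {τ : Q → ι} {X : Rw → Q → F}
    {A C : Submodule F T} (h : Good Ts τ X A C) {m : ι → ℕ} {D : ℕ} (hD : Fintype.card Rw = D)
    (hm : ∀ i, Nat.card {q // τ q = i} ≤ m i) : Cert Ts m D A C := by
  classical
  have h1 : ∀ i, ∃ e : {q // τ q = i} → Fin (m i), Function.Injective e := by
    intro i
    have h2 : Fintype.card {q // τ q = i} ≤ Fintype.card (Fin (m i)) := by
      rw [Fintype.card_fin, ← Nat.card_eq_fintype_card]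
      exact hm i
    obtain ⟨e⟩ := Function.Embedding.nonempty_of_card_le h2
    exact ⟨e, e.injective⟩
  choose e he using h1
  let ε : Q → Σ i, Fin (m i) := fun q => ⟨τ q, e (τ q) ⟨q, rfl⟩⟩
  have hε : Function.Injective ε := by
    intro q q' hq
    have h3 : τ q = τ q' := congrArg Sigma.fst hq
    have key : ∀ (i j : ι) (hi : τ q = i) (hj : τ q' = j), i = j →
        (⟨i, e i ⟨q, hi⟩⟩ : Σ i, Fin (m i)) = ⟨j, e j ⟨q', hj⟩⟩ → q = q' := by
      intro i j hi hj hij h4
      subst hij
      have h5 := eq_of_heq (Sigma.mk.inj h4).2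
      exact congrArg Subtype.val (he i h5)
    exact key _ _ rfl rfl h3 hq
  let ρ : Rw ≃ Fin D := Fintype.equivFinOfCardEq hD
  refine ⟨fun l => Function.extend ε (X (ρ.symm l)) 0, fun z hz => ?_⟩
  obtain ⟨t, ht, htz⟩ := h (fun l => z (ρ l)) fun l => hz _
  refine ⟨Function.extend ε t 0, fun q => ?_, fun l => ?_⟩
  · by_cases hq : ∃ q', ε q' = q
    · obtain ⟨q', rfl⟩ := hq
      rw [hε.extend_apply]
      exact ht q'
    · rw [Function.extend_apply' _ _ _ hq]
      exact Submodule.zero_mem _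
  · have h2 := htz (ρ.symm l)
    simp only [Equiv.apply_symm_apply] at h2
    have h3 : ∑ q, X (ρ.symm l) q • t q = ∑ q, Function.extend ε (X (ρ.symm l)) 0 q •
        Function.extend ε t 0 q := by
      refine Fintype.sum_of_injective ε hε _ _ (fun q hq => ?_) fun q => ?_
      · have hq' : ¬ ∃ q', ε q' = q := fun ⟨q', h⟩ => hq ⟨q', h⟩
        rw [Function.extend_apply' _ _ _ hq', Pi.zero_apply, zero_smul]
      · rw [hε.extend_apply, hε.extend_apply]
    rwa [← h3]

theorem card_sigma_fib (m : ι → ℕ) (i : ι) :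
    Nat.card {q : Σ i, Fin (m i) // q.1 = i} = m i := by
  have e : {q : Σ i, Fin (m i) // q.1 = i} ≃ Fin (m i) :=
    { toFun := fun q => q.2 ▸ q.1.2
      invFun := fun a => ⟨⟨i, a⟩, rfl⟩
      left_inv := by
        rintro ⟨⟨j, a⟩, rfl⟩
        rfl
      right_inv := fun a => rfl }
  rw [Nat.card_congr e, Nat.card_eq_fintype_card, Fintype.card_fin]

theorem cert_mono {m m' : ι → ℕ} (h : ∀ i, m i ≤ m' i) {D : ℕ} {A C : Submodule F T}
    (hc : Cert Ts m D A C) : Cert Ts m' D A C := by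
  obtain ⟨X, hX⟩ := hc
  exact cert_of hX (Fintype.card_fin D) fun i => (card_sigma_fib m i).trans_le (h i)

theorem cert_add {m m' : ι → ℕ} {D D' : ℕ} {A C : Submodule F T} (h : Cert Ts m D A C)
    (h' : Cert Ts m' D' A C) : Cert Ts (fun i => m i + m' i) (D + D') A C := by
  classical
  obtain ⟨X, hX⟩ := h
  obtain ⟨X', hX'⟩ := h'
  let Y : (Fin D ⊕ Fin D') → ((Σ i, Fin (m i)) ⊕ (Σ i, Fin (m' i))) → F := fun l q =>
    match l, q with
    | Sum.inl l, Sum.inl q => X l q
    | Sum.inr l, Sum.inr q => X' l q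
    | _, _ => 0
  let τ : ((Σ i, Fin (m i)) ⊕ (Σ i, Fin (m' i))) → ι := Sum.elim (fun q => q.1) fun q => q.1
  have hY : Good Ts τ Y A C := by
    intro z hz
    obtain ⟨t, ht, htz⟩ := hX (fun l => z (Sum.inl l)) fun l => hz _
    obtain ⟨t', ht', htz'⟩ := hX' (fun l => z (Sum.inr l)) fun l => hz _
    refine ⟨Sum.elim t t', ?_, ?_⟩
    · rintro (q | q)
      · exact ht q
      · exact ht' q
    · rintro (l | l)
      · rw [Fintype.sum_sum_type]
        have h1 : ∑ q, Y (Sum.inl l) (Sum.inr q) • Sum.elim t t' (Sum.inr q) = 0 :=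
          Finset.sum_eq_zero fun q _ => zero_smul _ _
        rw [h1, add_zero]
        exact htz l
      · rw [Fintype.sum_sum_type]
        have h1 : ∑ q, Y (Sum.inr l) (Sum.inl q) • Sum.elim t t' (Sum.inl q) = 0 :=
          Finset.sum_eq_zero fun q _ => zero_smul _ _
        rw [h1, zero_add]
        exact htz' l
  refine cert_of hY ?_ fun i => ?_
  · rw [Fintype.card_sum, Fintype.card_fin, Fintype.card_fin]
  · have e : {q // τ q = i} ≃ {q : Σ i, Fin (m i) // q.1 = i} ⊕ {q : Σ i, Fin (m' i) // q.1 = i} :=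
      Equiv.subtypeSum
    rw [Nat.card_congr e, Nat.card_sum, card_sigma_fib, card_sigma_fib]

theorem cert_zero (A C : Submodule F T) : Cert Ts (fun _ => 0) 0 A C :=
  ⟨fun l => l.elim0, fun _ _ => ⟨fun _ => 0, fun _ => Submodule.zero_mem _, fun l => l.elim0⟩⟩

theorem cert_smul {m : ι → ℕ} {D : ℕ} {A C : Submodule F T} (h : Cert Ts m D A C) (a : ℕ) :
    Cert Ts (fun i => a * m i) (a * D) A C := by
  induction a with
  | zero =>
    simp only [zero_mul]
    exact cert_zero A C
  | succ a ih =>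
    simp only [Nat.succ_mul]
    exact cert_add ih h

/-- surjectivity is an open condition -/
theorem surj_open {V W : Type*} [AddCommGroup V] [Module F V] [AddCommGroup W] [Module F W]
    [FiniteDimensional F W] {P : V →ₗ[F] W} (hP : Function.Surjective P) (P' : V →ₗ[F] W) :
    {s : F | ¬ Function.Surjective (P + s • P')}.Finite := by
  obtain ⟨R, hR⟩ := P.exists_rightInverse_of_surjective (LinearMap.range_eq_top.2 hP)
  let M : Module.End F W := P' ∘ₗ R
  have hfin : {μ : F | M.HasEigenvalue μ}.Finite := Module.End.finite_hasEigenvalue M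
  refine (hfin.image fun μ => - μ⁻¹).subset ?_
  intro s hs
  have h1 : ¬ Function.Injective ((1 : Module.End F W) + s • M) := by
    intro hinj
    apply hs
    have h2 := LinearMap.injective_iff_surjective.1 hinj
    intro w
    obtain ⟨v, rfl⟩ := h2 w
    refine ⟨R v, ?_⟩
    have h3 : P (R v) = v := LinearMap.congr_fun hR v
    rw [LinearMap.add_apply, LinearMap.smul_apply, h3]
    rfl
  rw [← LinearMap.ker_eq_bot, Submodule.eq_bot_iff] at h1
  push Not at h1
  obtain ⟨v, hv, hv0⟩ := h1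
  have h2 : v + s • M v = 0 := hv
  have hs0 : s ≠ 0 := by
    rintro rfl
    rw [zero_smul, add_zero] at h2
    exact hv0 h2
  refine ⟨- s⁻¹, ?_, ?_⟩
  · refine Module.End.hasEigenvalue_of_hasEigenvector (x := v) ⟨?_, hv0⟩
    rw [Module.End.mem_eigenspace_iff]
    have h3 : s • M v = - v := by
      rw [eq_neg_iff_add_eq_zero, add_comm]
      exact h2
    calc M v = s⁻¹ • (s • M v) := by rw [smul_smul, inv_mul_cancel₀ hs0, one_smul]
      _ = (- s⁻¹) • v := by rw [h3, smul_neg, neg_smul]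
  · show - (- s⁻¹)⁻¹ = s
    rw [inv_neg, neg_neg, inv_inv]

theorem good_open [FiniteDimensional F T] {Rw Q : Type*} [Fintype Rw] [Fintype Q] {τ : Q → ι}
    {X : Rw → Q → F} {A C : Submodule F T} (hAC : A ≤ C) (h : Good Ts τ X A C) (Y : Rw → Q → F) :
    {s : F | ¬ Good Ts τ (fun l q => X l q + s * Y l q) A C}.Finite := by
  classical
  let V := (∀ q, ↥(Ts (τ q) ⊓ C)) × (Rw → A)
  -- the linear maps
  let S : (Rw → Q → F) → V →ₗ[F] (Rw → C) := fun X =>
    LinearMap.pi fun l => LinearMap.codRestrict C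
      ((∑ q, X l q • ((Ts (τ q) ⊓ C).subtype ∘ₗ LinearMap.proj q)) ∘ₗ LinearMap.fst F _ _) (by
        intro v
        show (∑ q, X l q • ((Ts (τ q) ⊓ C).subtype ∘ₗ LinearMap.proj q)) v.1 ∈ C
        rw [LinearMap.sum_apply]
        exact Submodule.sum_mem _ fun q _ => Submodule.smul_mem _ _ (v.1 q).2.2)
  let I : V →ₗ[F] (Rw → C) := LinearMap.pi fun l =>
    (Submodule.inclusion hAC) ∘ₗ (LinearMap.proj l) ∘ₗ LinearMap.snd F _ _
  have hS : ∀ (X : Rw → Q → F) (v : V) (l : Rw), ((S X + I) v l : T) =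
      ∑ q, X l q • (v.1 q : T) + (v.2 l : T) := by
    intro X v l
    have h1 : ((S X) v l : T) = ∑ q, X l q • (v.1 q : T) := by
      show (∑ q, X l q • ((Ts (τ q) ⊓ C).subtype ∘ₗ LinearMap.proj q)) v.1 = _
      rw [LinearMap.sum_apply]
      rfl
    show ((S X) v l : T) + (I v l : T) = _
    rw [h1]
    rfl
  have hiff : ∀ X : Rw → Q → F, Good Ts τ X A C ↔ Function.Surjective (S X + I) := by
    intro X
    constructor
    · intro hX z
      obtain ⟨t, ht, htz⟩ := hX (fun l => z l) fun l => (z l).2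
      refine ⟨(fun q => ⟨t q, ht q⟩, fun l => ⟨_, htz l⟩), funext fun l => Subtype.ext ?_⟩
      rw [hS]
      exact add_sub_cancel _ _
    · intro hX z hz
      obtain ⟨v, hv⟩ := hX fun l => ⟨z l, hz l⟩
      refine ⟨fun q => v.1 q, fun q => (v.1 q).2, fun l => ?_⟩
      have h1 := hS X v l
      rw [hv] at h1
      have h2 : z l - ∑ q, X l q • (v.1 q : T) = (v.2 l : T) := by
        rw [show z l = _ from h1]
        exact add_sub_cancel_left _ _
      rw [h2]
      exact (v.2 l).2
  have h1 := surj_open ((hiff X).1 h) (S Y)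
  refine h1.subset fun s hs => ?_
  intro h2
  apply hs
  rw [hiff]
  have h3 : S (fun l q => X l q + s * Y l q) + I = S X + I + s • S Y := by
    apply LinearMap.ext
    intro v
    funext l
    apply Subtype.ext
    rw [hS]
    show _ = ((S X + I) v l : T) + s • ((S Y) v l : T)
    have h4 : ((S Y) v l : T) = ∑ q, Y l q • (v.1 q : T) := by
      show (∑ q, Y l q • ((Ts (τ q) ⊓ C).subtype ∘ₗ LinearMap.proj q)) v.1 = _
      rw [LinearMap.sum_apply]
      rfl
    rw [hS, h4, Finset.smul_sum]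
    simp only [add_smul, Finset.sum_add_distrib, mul_smul]
    abel
  rw [h3]
  exact h2

theorem good_scale {Rw Q : Type*} [Fintype Rw] [Fintype Q] {τ : Q → ι}
    {X : Rw → Q → F} {A C : Submodule F T} (s : F)
    (h : Good Ts τ (fun l q => s * X l q) A C) : Good Ts τ X A C := by
  intro z hz
  obtain ⟨t, ht, htz⟩ := h z hz
  refine ⟨fun q => s • t q, fun q => Submodule.smul_mem _ _ (ht q), fun l => ?_⟩
  have h1 : ∑ q, X l q • s • t q = ∑ q, (s * X l q) • t q :=
    Finset.sum_congr rfl fun q _ => by rw [smul_smul, mul_comm]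
  rw [h1]
  exact htz l

/-- Certificates for successive pieces. -/
theorem cert_ext [FiniteDimensional F T] [Infinite F] {m : ι → ℕ} {D : ℕ} {A U C : Submodule F T}
    (hAU : A ≤ U) (hUC : U ≤ C) (h : Cert Ts m D A U) (h' : Cert Ts m D U C) :
    Cert Ts m D A C := by
  classical
  obtain ⟨X, hX⟩ := h
  obtain ⟨Y, hY⟩ := h'
  have h1 := good_open hAU hX Y
  have h2 := good_open hUC hY X
  have h3 : (fun r : F => r⁻¹) '' {s : F | ¬ Good Ts (fun q : Σ i, Fin (m i) => q.1)
      (fun l q => Y l q + s * X l q) U C} ∪ {0} ∪ {s : F | ¬ Good Ts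
      (fun q : Σ i, Fin (m i) => q.1) (fun l q => X l q + s * Y l q) A U} |>.Finite :=
    ((h2.image _).union (Set.finite_singleton 0)).union h1
  obtain ⟨s, hs⟩ := h3.exists_notMem
  rw [Set.mem_union, Set.mem_union, not_or, not_or] at hs
  obtain ⟨⟨hs1, hs0⟩, hs2⟩ := hs
  have hs0' : s ≠ 0 := hs0
  have hgA : Good Ts (fun q : Σ i, Fin (m i) => q.1) (fun l q => X l q + s * Y l q) A U := by
    by_contra hcon
    exact hs2 hcon
  have hgC' : Good Ts (fun q : Σ i, Fin (m i) => q.1) (fun l q => Y l q + s⁻¹ * X l q) U C := by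
    by_contra hcon
    exact hs1 ⟨s⁻¹, hcon, inv_inv s⟩
  have hgC : Good Ts (fun q : Σ i, Fin (m i) => q.1) (fun l q => X l q + s * Y l q) U C := by
    refine good_scale s⁻¹ ?_
    have h4 : (fun (l : Fin D) (q : Σ i, Fin (m i)) => s⁻¹ * (X l q + s * Y l q)) =
        fun l q => Y l q + s⁻¹ * X l q := by
      funext l q
      rw [mul_add, ← mul_assoc, inv_mul_cancel₀ hs0', one_mul, add_comm]
    rw [h4]
    exact hgC'
  refine ⟨fun l q => X l q + s * Y l q, fun z hz => ?_⟩
  obtain ⟨t, ht, htz⟩ := hgC z hz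
  obtain ⟨t', ht', htz'⟩ := hgA _ htz
  refine ⟨fun q => t q + t' q, fun q => Submodule.add_mem _ (ht q) ⟨(ht' q).1, hUC (ht' q).2⟩,
    fun l => ?_⟩
  have h5 : z l - ∑ q, (X l q + s * Y l q) • (t q + t' q) =
      z l - ∑ q, (X l q + s * Y l q) • t q - ∑ q, (X l q + s * Y l q) • t' q := by
    simp only [smul_add, Finset.sum_add_distrib]
    abel
  rw [h5]
  exact htz' l

end

end Pool.Agent.H891.BL
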