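import Pool.Agent.H891.TY.Defs

/-! Distributions and the Brascamp-Lieb condition for covering families: definitions. -/

set_option autoImplicit false
set_option linter.unusedSectionVars false

open FF Pool.Agent.W619.TW Pool.Agent.Y174 Pool.Agent.H891.TY

namespace Pool.Agent.H891.BL

section

variable {k : Type} {K : Type} [Field k] [Field K] [Algebra k K]

/-- The subspace `U` of the tangent space at the general (geometric generic) point is a distribution
on the variety: it is generated by rational vector fields of the variety (derivations which map `K`
into itself). -/
def IsDistribution (U : Submodule (AlgebraicClosure K)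
    (Derivation k (AlgebraicClosure K) (AlgebraicClosure K))) : Prop :=
  U ≤ Submodule.span (AlgebraicClosure K) {D | D ∈ U ∧ ∀ z : K, ∃ z' : K,
    D (algebraMap K (AlgebraicClosure K) z) = algebraMap K (AlgebraicClosure K) z'}

/-- **The Brascamp-Lieb condition** for the tangent spaces `T j = Tan (B j)` of the general members
`F j` (of dimension `f j`) of the covering families given by `B j`, with the weights `c j / d`: for
each distribution `U` on the variety of dimension `n`

`n - dim U ≤ ∑ (c j / d) (f j - dim (U ∩ T j))`. -/
def BLDist (n : ℕ) {r : ℕ} (B : Fin r → IntermediateField k (AlgebraicClosure K))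
    (f : Fin r → ℕ) (c : Fin r → ℕ) (d : ℕ) : Prop :=
  ∀ U : Submodule (AlgebraicClosure K)
      (Derivation k (AlgebraicClosure K) (AlgebraicClosure K)), IsDistribution U →
    d * n + ∑ j, c j * Module.finrank (AlgebraicClosure K) (U ⊓ Tan (B j) : Submodule _ _) ≤
      d * Module.finrank (AlgebraicClosure K) U + ∑ j, c j * f j

end

end Pool.Agent.H891.BL
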