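import Pool.Agent.H891.BL.Orb

/-! The Brascamp-Lieb condition for distributions implies the one for all subspaces. -/

set_option autoImplicit false
set_option linter.overlappingInstances false
set_option linter.unusedSectionVars false

open FF IntermediateField Algebra Pool.Agent.W619.PQ Pool.Agent.W619.PL Pool.Agent.W619.TW
  Pool.Agent.W603.LV Pool.Agent.W619.Y Pool.Agent.Y174 Pool.Agent.Y173.QA Pool.Agent.H891.KS
  Pool.Agent.H891.TY Pool.Agent.H891.RF
open scoped Pointwise

namespace Pool.Agent.H891.BL

section

variable {k : Type} {K : Type} [Field k] [Field K] [Algebra k K] [CharZero k]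

/-- the conjugate of a derivation -/
noncomputable def cder (σ : AlgebraicClosure K ≃ₐ[K] AlgebraicClosure K)
    (D : Derivation k (AlgebraicClosure K) (AlgebraicClosure K)) :
    Derivation k (AlgebraicClosure K) (AlgebraicClosure K) :=
  Derivation.mk' (((σ.symm.restrictScalars k).toLinearMap ∘ₗ D.toLinearMap) ∘ₗ
    (σ.restrictScalars k).toLinearMap) (by
      intro a b
      show σ.symm (D (σ (a * b))) = a * σ.symm (D (σ b)) + b * σ.symm (D (σ a))
      rw [map_mul, Derivation.leibniz, map_add, smul_eq_mul, smul_eq_mul, map_mul, map_mul,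
        σ.symm_apply_apply, σ.symm_apply_apply])

theorem cder_apply (σ : AlgebraicClosure K ≃ₐ[K] AlgebraicClosure K)
    (D : Derivation k (AlgebraicClosure K) (AlgebraicClosure K)) (z : AlgebraicClosure K) :
    cder σ D z = σ.symm (D (σ z)) := rfl

variable {n : ℕ} {y : Fin n → K}
  (hx : IsTranscendenceBasis k (algebraMap K (AlgebraicClosure K) ∘ y))
  {G : Fin n → Derivation k (AlgebraicClosure K) (AlgebraicClosure K)}
  (hG : ∀ i j, G i ((algebraMap K (AlgebraicClosure K) ∘ y) j) = if i = j then 1 else 0)

include hx hG

theorem dual_comm (σ : AlgebraicClosure K ≃ₐ[K] AlgebraicClosure K) (l : Fin n)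
    (z : AlgebraicClosure K) : G l (σ z) = σ (G l z) := by
  have h1 : cder σ (G l) = G l := by
    refine (der_expand hx hG (cder σ (G l))).trans
      ((Finset.sum_congr rfl fun j _ => ?_).trans (der_expand hx hG (G l)).symm)
    congr 1
    rw [cder_apply]
    show σ.symm (G l (σ (algebraMap K (AlgebraicClosure K) (y j)))) = _
    rw [σ.commutes]
    have h2 := hG l j
    change G l (algebraMap K (AlgebraicClosure K) (y j)) = _ at h2
    show _ = G l (algebraMap K (AlgebraicClosure K) (y j))
    rw [h2]
    split_ifs
    · exact map_one _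
    · exact map_zero _
  have h2 := congrArg (fun D : Derivation k (AlgebraicClosure K) (AlgebraicClosure K) => D z) h1
  change σ.symm (G l (σ z)) = G l z at h2
  rw [← h2, σ.apply_symm_apply]

theorem tb_conj (σ : AlgebraicClosure K ≃ₐ[K] AlgebraicClosure K)
    (B : IntermediateField k (AlgebraicClosure K)) :
    TB G (conj σ B : Set (AlgebraicClosure K)) = gs σ (TB G (B : Set (AlgebraicClosure K))) := by
  have key : ∀ (a : Fin n → AlgebraicClosure K) (b : AlgebraicClosure K),
      σ (∑ l, gv σ.symm a l * G l b) = ∑ l, a l * G l (σ b) := by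
    intro a b
    rw [map_sum]
    refine Finset.sum_congr rfl fun l _ => ?_
    rw [map_mul, dual_comm hx hG]
    congr 1
    exact σ.apply_symm_apply _
  ext a
  rw [mem_gs]
  constructor
  · intro h b hb
    apply σ.injective
    rw [key, map_zero]
    refine h (σ b) ?_
    show σ b ∈ conj σ B
    rw [mem_conj, σ.symm_apply_apply]
    exact hb
  · intro h b hb
    have h1 := h (σ.symm b) (mem_conj.1 hb)
    have h2 := key a (σ.symm b)
    rw [h1, map_zero, σ.apply_symm_apply] at h2
    exact h2.symm

theorem dm_conj (σ : AlgebraicClosure K ≃ₐ[K] AlgebraicClosure K)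
    (B : IntermediateField k (AlgebraicClosure K))
    (U : Submodule (AlgebraicClosure K) (Fin n → AlgebraicClosure K)) :
    dm (TB G (conj σ B : Set (AlgebraicClosure K)) ⊓ gs σ U) =
      dm (TB G (B : Set (AlgebraicClosure K)) ⊓ U) := by
  rw [tb_conj hx hG, ← gs_inf]
  unfold dm
  rw [finrank_gs]

theorem gs_top (σ : AlgebraicClosure K ≃ₐ[K] AlgebraicClosure K) :
    gs σ (⊤ : Submodule (AlgebraicClosure K) (Fin n → AlgebraicClosure K)) = ⊤ := rfl

theorem stable_dist {U : Submodule (AlgebraicClosure K) (Fin n → AlgebraicClosure K)}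
    (hU : ∀ σ : AlgebraicClosure K ≃ₐ[K] AlgebraicClosure K, gs σ U = U) :
    IsDistribution (K := K) (U.comap (vec hx hG).toLinearMap) := by
  have hΩ0 : CharZero (AlgebraicClosure K) :=
    charZero_of_injective_algebraMap (algebraMap k (AlgebraicClosure K)).injective
  have hK0 : CharZero K := charZero_of_injective_algebraMap (algebraMap k K).injective
  have hgal : IsGalois K (AlgebraicClosure K) := inferInstance
  have h1 := descent (K := K) (U := U) fun σ a ha => by
    have h2 : a ∈ gs σ.symm U := by
      rw [hU]
      exact ha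
    exact h2
  intro D hD
  have h2 := h1 (show vec hx hG D ∈ U from hD)
  suffices h5 : ∀ a ∈ Submodule.span (AlgebraicClosure K) {a | a ∈ U ∧
      ∀ l, ∃ z : K, a l = algebraMap K (AlgebraicClosure K) z}, (vec hx hG).symm a ∈
      Submodule.span (AlgebraicClosure K) {D | D ∈ U.comap (vec hx hG).toLinearMap ∧
        ∀ z : K, ∃ z' : K, D (algebraMap K (AlgebraicClosure K) z) =
          algebraMap K (AlgebraicClosure K) z'} by
    have h6 := h5 _ h2
    rwa [(vec hx hG).symm_apply_apply] at h6
  intro a h2
  induction h2 using Submodule.span_induction with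
  | mem a ha =>
    obtain ⟨haU, haK⟩ := ha
    refine Submodule.subset_span ⟨?_, ?_⟩
    · show vec hx hG ((vec hx hG).symm a) ∈ U
      rw [(vec hx hG).apply_symm_apply]
      exact haU
    · intro z
      choose c hc using haK
      -- the derivations of `K`
      have h4 : ∀ l, ∃ z' : K, G l (algebraMap K (AlgebraicClosure K) z) =
          algebraMap K (AlgebraicClosure K) z' := by
        intro l
        obtain ⟨z', hz'⟩ := (InfiniteGalois.mem_range_algebraMap_iff_fixed (k := K)
          (G l (algebraMap K (AlgebraicClosure K) z))).2 fun σ => by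
            rw [← dual_comm hx hG, σ.commutes]
        exact ⟨z', hz'.symm⟩
      choose c' hc' using h4
      refine ⟨∑ l, c l * c' l, ?_⟩
      show (∑ l, a l • G l) (algebraMap K (AlgebraicClosure K) z) = _
      rw [Pool.Agent.W721.PG.EFF2.der_sum, map_sum]
      refine Finset.sum_congr rfl fun l _ => ?_
      rw [map_mul, hc, hc']
  | zero =>
    rw [map_zero]
    exact Submodule.zero_mem _
  | add a b _ _ ha hb =>
    rw [map_add]
    exact Submodule.add_mem _ ha hb
  | smul c a _ ha =>
    rw [map_smul]
    exact Submodule.smul_mem _ _ ha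

end

end Pool.Agent.H891.BL
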