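import Pool.Agent.H891.BL.Full

/-! Flags and the Brascamp-Lieb condition. -/

set_option autoImplicit false
set_option linter.overlappingInstances false
set_option linter.unusedSectionVars false

open FF Pool.Agent.W619.TW Pool.Agent.Y174 Pool.Agent.H891.TY

namespace Pool.Agent.H891.BL

section

variable {F V : Type*} [Field F] [AddCommGroup V] [Module F V] [FiniteDimensional F V] {n : ℕ}

/-- the members of a flag -/
def fl (D : Fin n → V) (i : ℕ) : Submodule F V := Submodule.span F (D '' {l | (l : ℕ) < i})

theorem fl_mono (D : Fin n → V) {i j : ℕ} (h : i ≤ j) : fl (F := F) D i ≤ fl D j :=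
  Submodule.span_mono (Set.image_mono fun _ hl => lt_of_lt_of_le hl h)

theorem fl_rank {D : Fin n → V} (hD : LinearIndependent F D) {i : ℕ} (hi : i ≤ n) :
    Module.finrank F (fl (F := F) D i) = i := by
  classical
  have h1 : D '' {l | (l : ℕ) < i} = Set.range (fun a : Fin i => D (Fin.castLE hi a)) := by
    ext v
    constructor
    · rintro ⟨l, hl, rfl⟩
      exact ⟨⟨l, hl⟩, rfl⟩
    · rintro ⟨a, rfl⟩
      exact ⟨Fin.castLE hi a, a.2, rfl⟩
  have h2 : LinearIndependent F (fun a : Fin i => D (Fin.castLE hi a)) :=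
    hD.comp _ (Fin.castLE_injective hi)
  unfold fl
  rw [h1, finrank_span_eq_card h2, Fintype.card_fin]

/-- the jumps of a subspace -/
theorem jump_le {D : Fin n → V} {X Y : Submodule F V} (hXY : X ≤ Y) (i : ℕ) :
    Module.finrank F (X ⊓ fl D (i + 1) : Submodule F V) +
      Module.finrank F (Y ⊓ fl D i : Submodule F V) ≤
    Module.finrank F (Y ⊓ fl D (i + 1) : Submodule F V) +
      Module.finrank F (X ⊓ fl D i : Submodule F V) := by
  have h1 := Submodule.finrank_sup_add_finrank_inf_eq (X ⊓ fl (F := F) D (i + 1)) (Y ⊓ fl D i)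
  have h2 : (X ⊓ fl (F := F) D (i + 1)) ⊓ (Y ⊓ fl D i) = X ⊓ fl D i := by
    apply le_antisymm
    · exact le_inf (inf_le_left.trans inf_le_left) (inf_le_right.trans inf_le_right)
    · exact le_inf (inf_le_inf_left _ (fl_mono D (Nat.le_succ i)))
        (inf_le_inf_right _ hXY)
  rw [h2] at h1
  have h3 : (X ⊓ fl (F := F) D (i + 1)) ⊔ (Y ⊓ fl D i) ≤ Y ⊓ fl D (i + 1) :=
    sup_le (inf_le_inf_right _ hXY) (inf_le_inf_left _ (fl_mono D (Nat.le_succ i)))
  have h4 := Submodule.finrank_mono h3
  omega

theorem jump_one {D : Fin n → V} (hD : LinearIndependent F D) (X : Submodule F V)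
    {i : ℕ} (hi : i < n) :
    Module.finrank F (X ⊓ fl D (i + 1) : Submodule F V) ≤
      Module.finrank F (X ⊓ fl D i : Submodule F V) + 1 := by
  have h1 := jump_le (D := D) (X := X) (Y := ⊤) le_top i
  rw [top_inf_eq, top_inf_eq, fl_rank hD hi.le, fl_rank hD hi] at h1
  omega

theorem jump_eq {D : Fin n → V} (hD : LinearIndependent F D) {X : Submodule F V}
    (i : Fin n) (hX : D i ∈ Submodule.span F (D '' {l | l < i}) ⊔ X) :
    Module.finrank F (X ⊓ fl D (i + 1) : Submodule F V) =
      Module.finrank F (X ⊓ fl D i : Submodule F V) + 1 := by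
  apply le_antisymm (jump_one hD X i.2)
  have h1 := Submodule.finrank_sup_add_finrank_inf_eq (X ⊓ fl (F := F) D (i + 1)) (fl D i)
  have h2 : (X ⊓ fl (F := F) D (i + 1)) ⊓ (fl D i) = X ⊓ fl D i := by
    rw [inf_assoc, inf_eq_right.2 (fl_mono D (Nat.le_succ i))]
  rw [h2, fl_rank hD i.2.le] at h1
  have h3 : fl (F := F) D (i + 1) ≤ (X ⊓ fl D (i + 1)) ⊔ fl D i := by
    refine Submodule.span_le.2 ?_
    rintro _ ⟨l, hl, rfl⟩
    rcases Nat.lt_succ_iff_lt_or_eq.1 hl with h4 | h4
    · exact Submodule.mem_sup_right (Submodule.subset_span ⟨l, h4, rfl⟩)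
    · have h5 : l = i := Fin.ext h4
      rw [h5]
      obtain ⟨w, hw, x, hx, hwx⟩ := Submodule.mem_sup.1 hX
      have hw' : w ∈ fl (F := F) D i := hw
      have h6 : x = D i - w := by
        rw [← hwx]
        abel
      have h7 : x ∈ fl (F := F) D (i + 1) := by
        rw [h6]
        exact Submodule.sub_mem _ (Submodule.subset_span ⟨i, Nat.lt_succ_self _, rfl⟩)
          (fl_mono D (Nat.le_succ i) hw')
      rw [← hwx]
      exact Submodule.add_mem _ (Submodule.mem_sup_right hw') (Submodule.mem_sup_left ⟨hx, h7⟩)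
  have h4 := Submodule.finrank_mono h3
  rw [fl_rank hD i.2] at h4
  omega

/-- The flag condition implies the Brascamp-Lieb condition. -/
theorem flag_bl {D : Fin n → V} (hD : LinearIndependent F D) (hn : Module.finrank F V = n)
    {r q : ℕ} (T : Fin r → Submodule F V) (hT : ∀ i, ∃ J : Finset (Fin r), q ≤ J.card ∧
      ∀ j ∈ J, D i ∈ Submodule.span F (D '' {l | l < i}) ⊔ T j) (U : Submodule F V) :
    q * n + ∑ j, Module.finrank F (U ⊓ T j : Submodule F V) ≤
      q * Module.finrank F U + ∑ j, Module.finrank F (T j) := by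
  classical
  have key : ∀ i : ℕ, i ≤ n → q * i + ∑ j, Module.finrank F (U ⊓ T j ⊓ fl D i : Submodule F V) ≤
      q * Module.finrank F (U ⊓ fl D i : Submodule F V) +
        ∑ j, Module.finrank F (T j ⊓ fl D i : Submodule F V) := by
    intro i
    induction i with
    | zero =>
      intro _
      have h0 : fl (F := F) D 0 = ⊥ := by
        unfold fl
        have h1 : D '' {l | (l : ℕ) < 0} = ∅ := by
          rw [Set.image_eq_empty]
          ext l
          simp
        rw [h1, Submodule.span_empty]
      have h2 : ∀ X : Submodule F V, Module.finrank F (X ⊓ fl D 0 : Submodule F V) = 0 := by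
        intro X
        rw [h0, inf_bot_eq, finrank_bot]
      simp only [h2, mul_zero, Finset.sum_const_zero, add_zero, le_refl]
    | succ i ih =>
      intro hi
      have h1 := ih (Nat.le_of_succ_le hi)
      have hin : i < n := hi
      -- comparison of the jumps
      have h2 : ∀ j, Module.finrank F (U ⊓ T j ⊓ fl D (i + 1) : Submodule F V) +
          Module.finrank F (T j ⊓ fl D i : Submodule F V) ≤
          Module.finrank F (T j ⊓ fl D (i + 1) : Submodule F V) +
          Module.finrank F (U ⊓ T j ⊓ fl D i : Submodule F V) := fun j =>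
        jump_le inf_le_right i
      have h3 : Module.finrank F (U ⊓ fl D i : Submodule F V) ≤
          Module.finrank F (U ⊓ fl D (i + 1) : Submodule F V) :=
        Submodule.finrank_mono (inf_le_inf_left _ (fl_mono D (Nat.le_succ i)))
      rcases h3.lt_or_eq with h4 | h4
      · have h5 := Finset.sum_le_sum fun j (_ : j ∈ Finset.univ) => h2 j
        rw [Finset.sum_add_distrib, Finset.sum_add_distrib] at h5
        have h6 : q * Module.finrank F (U ⊓ fl D i : Submodule F V) + q ≤
            q * Module.finrank F (U ⊓ fl D (i + 1) : Submodule F V) := by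
          calc q * Module.finrank F (U ⊓ fl D i : Submodule F V) + q =
              q * (Module.finrank F (U ⊓ fl D i : Submodule F V) + 1) := by ring
            _ ≤ _ := Nat.mul_le_mul_left q h4
        rw [Nat.mul_succ]
        omega
      · obtain ⟨J, hJ, hJT⟩ := hT ⟨i, hin⟩
        have h5 : ∀ j, Module.finrank F (U ⊓ T j ⊓ fl D (i + 1) : Submodule F V) +
            Module.finrank F (T j ⊓ fl D i : Submodule F V) + (if j ∈ J then 1 else 0) ≤
            Module.finrank F (T j ⊓ fl D (i + 1) : Submodule F V) +
            Module.finrank F (U ⊓ T j ⊓ fl D i : Submodule F V) := by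
          intro j
          split_ifs with hj
          · have h6 := jump_eq hD ⟨i, hin⟩ (hJT j hj)
            simp only at h6
            have h7 := jump_le (D := D) (X := U ⊓ T j) (Y := U) inf_le_left i
            rw [h4] at h7
            rw [h6]
            omega
          · exact h2 j
        have h6 := Finset.sum_le_sum fun j (_ : j ∈ Finset.univ) => h5 j
        rw [Finset.sum_add_distrib, Finset.sum_add_distrib, Finset.sum_add_distrib,
          Finset.sum_ite_mem, Finset.univ_inter, Finset.sum_const, smul_eq_mul, mul_one] at h6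
        rw [Nat.mul_succ, ← h4]
        omega
  have h1 := key n le_rfl
  have h2 : fl (F := F) D n = ⊤ := by
    apply Submodule.eq_top_of_finrank_eq
    rw [fl_rank hD le_rfl, hn]
  have h3 : ∀ X : Submodule F V, Module.finrank F (X ⊓ fl D n : Submodule F V) =
      Module.finrank F X := by
    intro X
    rw [h2, inf_top_eq]
  simpa only [h3] using h1

end

section

variable {k : Type} {K : Type} [Field k] [Field K] [Algebra k K] [CharZero k]

theorem flag_bldist {n : ℕ} (hn : Algebra.trdeg k K = n) {r q : ℕ}
    {B : Fin r → IntermediateField k (AlgebraicClosure K)} {f : Fin r → ℕ}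
    (hB : ∀ j, IsFamily (B j) n (f j)) (h : FlagCover n q B) :
    BLDist n B f (fun _ => 1) q := by
  obtain ⟨y, hy⟩ := Pool.Agent.W636.PG.exists_basis k K n hn
  have hyΩ : IsTranscendenceBasis k (algebraMap K (AlgebraicClosure K) ∘ y) :=
    hy.algebraMap_comp
  obtain ⟨G, hG⟩ := Pool.Agent.W636.PG.exists_duals k (AlgebraicClosure K) n _ hyΩ
  have hfd : FiniteDimensional (AlgebraicClosure K)
      (Derivation k (AlgebraicClosure K) (AlgebraicClosure K)) :=
    LinearEquiv.finiteDimensional (vec hyΩ hG).symm
  have hrk : Module.finrank (AlgebraicClosure K)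
      (Derivation k (AlgebraicClosure K) (AlgebraicClosure K)) = n := by
    rw [LinearEquiv.finrank_eq (vec hyΩ hG), Module.finrank_fintype_fun_eq_card, Fintype.card_fin]
  obtain ⟨D, hD, hDT⟩ := h
  intro U _
  have h1 := flag_bl hD hrk (fun j => Tan (B j)) hDT U
  have h2 : ∀ j, Module.finrank (AlgebraicClosure K) (Tan (B j)) = f j := fun j =>
    tan_rank hn (hB j)
  simpa only [h2, one_mul] using h1

end

end Pool.Agent.H891.BL
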