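import Pool.Agent.H891.BL.Dist

/-! The Brascamp-Lieb inequality for sections, with the condition tested on distributions. -/

set_option autoImplicit false
set_option linter.overlappingInstances false
set_option linter.unusedSectionVars false

open FF IntermediateField Algebra Pool.Agent.W619.PQ Pool.Agent.W619.PL Pool.Agent.W619.TW
  Pool.Agent.W603.LV Pool.Agent.W619.Y Pool.Agent.Y174 Pool.Agent.Y173.QA Pool.Agent.H891.KS
  Pool.Agent.H891.TY Pool.Agent.H891.RF
open scoped Pointwise

namespace Pool.Agent.H891.BL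

section

variable {k : Type} {K : Type} [Field k] [Field K] [Algebra k K] [CharZero k]

/-- The condition for the conjugates of the families. -/
theorem bl_ext {n : ℕ} (hn : Algebra.trdeg k K = n) {r : ℕ}
    {B : Fin r → IntermediateField k (AlgebraicClosure K)} {f c : Fin r → ℕ} {d : ℕ} (hd : 1 ≤ d)
    (hB : ∀ j, IsFamily (B j) n (f j)) (hBL : BLDist n B f c d)
    [∀ j, Fintype (Orb (B j))] {y : Fin n → K}
    (hx : IsTranscendenceBasis k (algebraMap K (AlgebraicClosure K) ∘ y))
    {G : Fin n → Derivation k (AlgebraicClosure K) (AlgebraicClosure K)}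
    (hG : ∀ i j, G i ((algebraMap K (AlgebraicClosure K) ∘ y) j) = if i = j then 1 else 0) :
    BLc (fun q : Σ j, Orb (B j) => TB G ((q.2 : IntermediateField k (AlgebraicClosure K)) :
      Set (AlgebraicClosure K))) ⊥ ⊤
      (fun q => (c q.1 : ℚ) / (d * Fintype.card (Orb (B q.1)))) := by
  classical
  have hN : ∀ j, 0 < Fintype.card (Orb (B j)) := fun j =>
    Fintype.card_pos_iff.2 ⟨⟨B j, AlgEquiv.refl, (conj_refl _).symm⟩⟩
  refine extremal _ (fun q => div_nonneg (Nat.cast_nonneg _)
    (mul_nonneg (Nat.cast_nonneg _) (Nat.cast_nonneg _)))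
    (fun (σ : AlgebraicClosure K ≃ₐ[K] AlgebraicClosure K) => gs σ) finrank_gs (fun σ U => ?_)
    fun U hU => ?_
  · -- invariance
    let e : (Σ j, Orb (B j)) ≃ Σ j, Orb (B j) :=
      { toFun := fun q => ⟨q.1, ⟨conj σ q.2, by
          obtain ⟨τ, hτ⟩ := q.2.2
          exact ⟨τ.trans σ, by rw [hτ, conj_conj]⟩⟩⟩
        invFun := fun q => ⟨q.1, ⟨conj σ.symm q.2, by
          obtain ⟨τ, hτ⟩ := q.2.2
          exact ⟨τ.trans σ.symm, by rw [hτ, conj_conj]⟩⟩⟩
        left_inv := by
          rintro ⟨j, ⟨B', hB'⟩⟩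
          refine Sigma.ext rfl (heq_of_eq (Subtype.ext ?_))
          ext z
          show z ∈ conj σ.symm (conj σ B') ↔ z ∈ B'
          rw [mem_conj, mem_conj, show σ.symm.symm = σ from rfl, σ.symm_apply_apply]
        right_inv := by
          rintro ⟨j, ⟨B', hB'⟩⟩
          refine Sigma.ext rfl (heq_of_eq (Subtype.ext ?_))
          ext z
          show z ∈ conj σ (conj σ.symm B') ↔ z ∈ B'
          rw [mem_conj, mem_conj, show σ.symm.symm = σ from rfl, σ.apply_symm_apply] }
    have h1 : dm (gs σ U) = dm U := by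
      unfold dm
      rw [finrank_gs]
    unfold slack
    rw [h1]
    congr 1
    refine (Fintype.sum_equiv e _ _ fun q => ?_).symm
    have h2 := dm_conj hx hG σ (q.2 : IntermediateField k (AlgebraicClosure K)) U
    have h3 := dm_conj hx hG σ (q.2 : IntermediateField k (AlgebraicClosure K)) ⊤
    rw [gs_top hx hG] at h3
    show _ = (c q.1 : ℚ) / (d * Fintype.card (Orb (B q.1))) *
      (dm (TB G (conj σ (q.2 : IntermediateField k (AlgebraicClosure K)) :
        Set (AlgebraicClosure K)) ⊓ ⊤) -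
        dm (TB G (conj σ (q.2 : IntermediateField k (AlgebraicClosure K)) :
        Set (AlgebraicClosure K)) ⊓ gs σ U))
    rw [h2, h3]
  · -- stable subspaces
    have h0 := stable_dist hx hG hU
    have h1 := hBL _ h0
    set U' := U.comap (vec hx hG).toLinearMap with hU'
    have hrk : ∀ V : Submodule (AlgebraicClosure K) (Fin n → AlgebraicClosure K),
        Module.finrank (AlgebraicClosure K) (V.comap (vec hx hG).toLinearMap) =
          Module.finrank (AlgebraicClosure K) V := fun V =>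
      LinearEquiv.finrank_eq (LinearEquiv.submoduleMap (vec hx hG).symm V |>.trans
        (LinearEquiv.ofEq _ _ (Submodule.map_equiv_eq_comap_symm (vec hx hG).symm V))).symm
    have hTB : ∀ j, (TB G (B j : Set (AlgebraicClosure K))).comap (vec hx hG).toLinearMap =
        Tan (B j) := by
      intro j
      ext D
      show vec hx hG D ∈ TB G (B j : Set (AlgebraicClosure K)) ↔ D ∈ Tan (B j)
      rw [map_tan hx hG, (vec hx hG).symm_apply_apply]
    have h2 : ∀ q : Σ j, Orb (B j), dm (TB G ((q.2 : IntermediateField k (AlgebraicClosure K)) :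
        Set (AlgebraicClosure K)) ⊓ ⊤) = f q.1 := by
      rintro ⟨j, ⟨B', ⟨σ, rfl⟩⟩⟩
      have h3 := dm_conj hx hG σ (B j) ⊤
      rw [gs_top hx hG] at h3
      show dm (TB G (conj σ (B j) : Set (AlgebraicClosure K)) ⊓ ⊤) = f j
      rw [h3, inf_top_eq]
      unfold dm
      rw [← hrk, hTB, tan_rank hn (hB j)]
    have h3 : ∀ q : Σ j, Orb (B j), dm (TB G ((q.2 : IntermediateField k (AlgebraicClosure K)) :
        Set (AlgebraicClosure K)) ⊓ U) =
        Module.finrank (AlgebraicClosure K) (U' ⊓ Tan (B q.1) : Submodule _ _) := by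
      rintro ⟨j, ⟨B', ⟨σ, rfl⟩⟩⟩
      have h4 := dm_conj hx hG σ (B j) U
      rw [hU σ] at h4
      show dm (TB G (conj σ (B j) : Set (AlgebraicClosure K)) ⊓ U) = _
      rw [h4]
      unfold dm
      rw [← hrk, ← hTB, hU', inf_comm]
      rfl
    have h4 : dm (⊤ : Submodule (AlgebraicClosure K) (Fin n → AlgebraicClosure K)) = n := by
      unfold dm
      rw [finrank_top, Module.finrank_fintype_fun_eq_card, Fintype.card_fin]
    have h5 : dm U = Module.finrank (AlgebraicClosure K) U' := by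
      unfold dm
      rw [hrk]
    unfold slack
    simp only [h2, h3]
    rw [h4, h5, Fintype.sum_sigma]
    have h6 : ((d * n + ∑ j, c j * Module.finrank (AlgebraicClosure K)
        (U' ⊓ Tan (B j) : Submodule _ _) : ℕ) : ℚ) ≤
        ((d * Module.finrank (AlgebraicClosure K) U' + ∑ j, c j * f j : ℕ) : ℚ) := by
      exact_mod_cast h1
    push_cast at h6
    have hd0 : (0 : ℚ) < d := by exact_mod_cast hd
    have h7 : ∑ j, ∑ _x : Orb (B j), (c j : ℚ) / (d * Fintype.card (Orb (B j))) *
        ((f j : ℚ) - Module.finrank (AlgebraicClosure K)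
          (U' ⊓ Tan (B j) : Submodule _ _)) = (∑ j, (c j : ℚ) * f j - ∑ j, (c j : ℚ) *
          Module.finrank (AlgebraicClosure K) (U' ⊓ Tan (B j) : Submodule _ _)) / d := by
      rw [← Finset.sum_sub_distrib, Finset.sum_div]
      refine Finset.sum_congr rfl fun j _ => ?_
      rw [Finset.sum_const, Finset.card_univ, nsmul_eq_mul]
      have h8 : (Fintype.card (Orb (B j)) : ℚ) ≠ 0 := Nat.cast_ne_zero.2 (hN j).ne'
      field_simp
    rw [h7, sub_nonneg, le_div_iff₀ hd0]
    linarith

variable [IsAlgClosed k]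

/-- **The Brascamp-Lieb inequality for sections.** -/
theorem bl_dist (hess : Algebra.EssFiniteType k K) {n : ℕ} (hn : Algebra.trdeg k K = n) {r : ℕ}
    {B : Fin r → IntermediateField k (AlgebraicClosure K)} {f c : Fin r → ℕ} {d : ℕ} (hd : 1 ≤ d)
    (hB : ∀ j, IsFamily (B j) n (f j)) (hBL : BLDist n B f c d) :
    ∃ D : ℕ, 0 < D ∧ ∀ (δ : Place k K → ℝ) (δ' : ∀ j, MemDiv (B j)),
      (∀ j, IsRestrMem (B j) δ (δ' j)) → ∀ (S : Finset K) (m b N : ℕ) (M : Fin r → ℕ),
      HasIndep k K n N (PairSec k K n δ S m b) →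
      (∀ j N', MemIndep (B j) (f j) (δ' j) S (d * D * m) (d * D * b) N' → N' ≤ M j) →
      N ^ (d * D) ≤ ∏ j, M j ^ (c j * D) := by
  classical
  obtain ⟨y, hy⟩ := Pool.Agent.W636.PG.exists_basis k K n hn
  obtain ⟨E, hE⟩ := Pool.Agent.W636.PG.exists_duals k K n _ hy
  have hyΩ : IsTranscendenceBasis k (algebraMap K (AlgebraicClosure K) ∘ y) :=
    hy.algebraMap_comp
  obtain ⟨G, hG⟩ := Pool.Agent.W636.PG.exists_duals k (AlgebraicClosure K) n _ hyΩ
  have hΩ0 : CharZero (AlgebraicClosure K) :=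
    charZero_of_injective_algebraMap (algebraMap k (AlgebraicClosure K)).injective
  have hinf : Infinite (AlgebraicClosure K) := CharZero.infinite _
  let _ : ∀ j, Fintype (Orb (B j)) := fun j => (orb_finite (hB j)).fintype
  have hN : ∀ j, 0 < Fintype.card (Orb (B j)) := fun j =>
    Fintype.card_pos_iff.2 ⟨⟨B j, AlgEquiv.refl, (conj_refl _).symm⟩⟩
  obtain ⟨m₀, D, hD, hm₀, hcert⟩ := has_of_BL n ⊥ ⊤ bot_le (by
    rw [finrank_top, finrank_bot, zero_add, Module.finrank_fintype_fun_eq_card, Fintype.card_fin])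
    _ (fun q : Σ j, Orb (B j) => div_nonneg (Nat.cast_nonneg (c q.1))
      (mul_nonneg (Nat.cast_nonneg d) (Nat.cast_nonneg (Fintype.card (Orb (B q.1))))))
    (bl_ext hn hd hB hBL hyΩ hG)
  let L : ℕ := ∏ j, Fintype.card (Orb (B j))
  have hL : 0 < L := Finset.prod_pos fun j _ => hN j
  let L' : Fin r → ℕ := fun j => ∏ i ∈ Finset.univ.erase j, Fintype.card (Orb (B i))
  have hLL : ∀ j, Fintype.card (Orb (B j)) * L' j = L := fun j =>
    Finset.mul_prod_erase Finset.univ (fun i => Fintype.card (Orb (B i))) (Finset.mem_univ j)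
  have hd0 : (0 : ℚ) < d := by exact_mod_cast hd
  have hle : ∀ q : Σ j, Orb (B j), (d * L) * m₀ q ≤ D * (c q.1 * L' q.1) := by
    intro q
    have h1 := mul_le_mul_of_nonneg_left (hm₀ q) (by positivity : (0 : ℚ) ≤ d * L)
    have h3 : (Fintype.card (Orb (B q.1)) : ℚ) ≠ 0 := Nat.cast_ne_zero.2 (hN q.1).ne'
    have h4 : (L : ℚ) = Fintype.card (Orb (B q.1)) * L' q.1 := by
      exact_mod_cast (hLL q.1).symm
    have h2 : ((d : ℚ) * L) * (D * ((c q.1 : ℚ) / (d * Fintype.card (Orb (B q.1))))) =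
        D * (c q.1 * L' q.1) := by
      rw [h4]
      field_simp
    rw [h2] at h1
    exact_mod_cast h1
  obtain ⟨X, hX⟩ := cert_mono hle (cert_smul hcert (d * L))
  have hdD : 1 ≤ d * L * D := Nat.mul_pos (Nat.mul_pos hd hL) hD
  refine ⟨L * D, Nat.mul_pos hL hD, fun δ δ' hδ S m b N M hN' hM => ?_⟩
  rw [← mul_assoc] at hM ⊢
  obtain ⟨ω, hli, hω⟩ := hN'
  have hexp : ∀ X : Derivation k K K, ∃ a : Fin n → K, X = ∑ i, a i • E i :=
    fun X => ⟨_, der_expand hy hE X⟩
  have hlin := lin_frame hexp hli (fun l => (hω l).1) (one_ne_zero (α := K))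
  simp only [one_mul] at hlin
  have hlinΩ : LinearIndependent k fun l => algebraMap K (AlgebraicClosure K) (ω l E) :=
    hlin.map' (IsScalarTower.toAlgHom k K (AlgebraicClosure K)).toLinearMap
      (LinearMap.ker_eq_bot.2 (algebraMap K (AlgebraicClosure K)).injective)
  have h1 := ineq (ders_comm hyΩ hG) (fun a ha => ders_const hyΩ hG ha)
    (fun q : Σ j, Orb (B j) => (q.2 : IntermediateField k (AlgebraicClosure K))) _ X hX hlinΩ
  rw [Fintype.card_fin] at h1
  refine h1.trans ?_
  have hbound : ∀ q : Σ j, Orb (B j), Module.finrank (q.2 : IntermediateField k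
      (AlgebraicClosure K)) (Submodule.span (q.2 : IntermediateField k (AlgebraicClosure K))
        ((Set.range fun l => algebraMap K (AlgebraicClosure K) (ω l E)) ^ (d * L * D))) ≤
      M q.1 := by
    rintro ⟨j, ⟨B', ⟨σ, rfl⟩⟩⟩
    refine (rank_conj σ (B j) (fin_pow (Set.finite_range _) _) ?_).trans
      (rank_prod hess hn hy hE (hB j) (hδ j) hdD hω (hM j))
    intro w hw
    obtain ⟨g, rfl⟩ := Set.mem_pow.1 hw
    choose i hi using fun a => (g a).2
    rw [List.prod_ofFn, map_prod]
    refine Finset.prod_congr rfl fun a _ => ?_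
    rw [← hi a]
    exact σ.commutes _
  have h2 : ∏ q : (Σ q : Σ j, Orb (B j), Fin (D * (c q.1 * L' q.1))),
      Module.finrank (q.1.2 : IntermediateField k
      (AlgebraicClosure K)) (Submodule.span (q.1.2 : IntermediateField k (AlgebraicClosure K))
        ((Set.range fun l => algebraMap K (AlgebraicClosure K) (ω l E)) ^ (d * L * D))) ≤
      ∏ q : (Σ q : Σ j, Orb (B j), Fin (D * (c q.1 * L' q.1))), M q.1.1 :=
    Finset.prod_le_prod' fun q _ => hbound q.1
  refine h2.trans (le_of_eq ?_)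
  rw [Fintype.prod_sigma]
  simp only [Finset.prod_const, Finset.card_univ, Fintype.card_fin]
  rw [Fintype.prod_sigma]
  refine Finset.prod_congr rfl fun j _ => ?_
  show ∏ _y : Orb (B j), M j ^ (D * (c j * L' j)) = M j ^ (c j * (L * D))
  rw [Finset.prod_const, Finset.card_univ, ← pow_mul]
  congr 1
  have h3 := hLL j
  calc D * (c j * L' j) * Fintype.card (Orb (B j)) =
      c j * (Fintype.card (Orb (B j)) * L' j) * D := by ring
    _ = c j * L * D := by rw [h3]
    _ = c j * (L * D) := mul_assoc _ _ _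

end

end Pool.Agent.H891.BL
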