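import Pool.Agent.H891.BL.Poly

/-! Galois descent for subspaces, and the extremal subspaces of the Brascamp-Lieb condition. -/

set_option autoImplicit false
set_option linter.unusedSectionVars false

namespace Pool.Agent.H891.BL

section

variable {K Ω : Type*} [Field K] [Field Ω] [Algebra K Ω] {n : ℕ}

/-- the action on vectors -/
def gv (σ : Ω ≃ₐ[K] Ω) (a : Fin n → Ω) : Fin n → Ω := fun l => σ (a l)

theorem gv_add (σ : Ω ≃ₐ[K] Ω) (a b : Fin n → Ω) : gv σ (a + b) = gv σ a + gv σ b :=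
  funext fun _ => map_add σ _ _

theorem gv_zero (σ : Ω ≃ₐ[K] Ω) : gv σ (0 : Fin n → Ω) = 0 := funext fun _ => map_zero σ

theorem gv_smul (σ : Ω ≃ₐ[K] Ω) (c : Ω) (a : Fin n → Ω) : gv σ (c • a) = σ c • gv σ a :=
  funext fun _ => map_mul σ _ _

theorem gv_symm (σ : Ω ≃ₐ[K] Ω) (a : Fin n → Ω) : gv σ (gv σ.symm a) = a :=
  funext fun _ => σ.apply_symm_apply _

theorem gv_symm' (σ : Ω ≃ₐ[K] Ω) (a : Fin n → Ω) : gv σ.symm (gv σ a) = a :=
  funext fun _ => σ.symm_apply_apply _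

/-- the action on subspaces -/
def gs (σ : Ω ≃ₐ[K] Ω) (U : Submodule Ω (Fin n → Ω)) : Submodule Ω (Fin n → Ω) where
  carrier := {a | gv σ.symm a ∈ U}
  add_mem' := fun {a b} ha hb => by
    show gv σ.symm (a + b) ∈ U
    rw [gv_add]
    exact U.add_mem ha hb
  zero_mem' := by
    show gv σ.symm 0 ∈ U
    rw [gv_zero]
    exact U.zero_mem
  smul_mem' := fun c a ha => by
    show gv σ.symm (c • a) ∈ U
    rw [gv_smul]
    exact U.smul_mem _ ha

theorem mem_gs {σ : Ω ≃ₐ[K] Ω} {U : Submodule Ω (Fin n → Ω)} {a : Fin n → Ω} :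
    a ∈ gs σ U ↔ gv σ.symm a ∈ U := Iff.rfl

theorem gs_inf (σ : Ω ≃ₐ[K] Ω) (U U' : Submodule Ω (Fin n → Ω)) :
    gs σ (U ⊓ U') = gs σ U ⊓ gs σ U' := rfl

theorem gs_symm (σ : Ω ≃ₐ[K] Ω) (U : Submodule Ω (Fin n → Ω)) : gs σ (gs σ.symm U) = U := by
  ext a
  show gv σ.symm.symm (gv σ.symm a) ∈ U ↔ a ∈ U
  rw [show σ.symm.symm = σ from rfl, gv_symm]

theorem finrank_gs (σ : Ω ≃ₐ[K] Ω) (U : Submodule Ω (Fin n → Ω)) :
    Module.finrank Ω (gs σ U) = Module.finrank Ω U := by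
  let j : U ≃+ gs σ U :=
    { toFun := fun a => ⟨gv σ a, by
        show gv σ.symm (gv σ a) ∈ U
        rw [gv_symm']
        exact a.2⟩
      invFun := fun a => ⟨gv σ.symm a, a.2⟩
      left_inv := fun a => Subtype.ext (gv_symm' σ (a : Fin n → Ω))
      right_inv := fun a => Subtype.ext (gv_symm σ (a : Fin n → Ω))
      map_add' := fun a b => Subtype.ext (gv_add σ (a : Fin n → Ω) (b : Fin n → Ω)) }
  have h1 := rank_eq_of_equiv_equiv (fun c : Ω => σ c) j σ.bijective
    (fun c a => Subtype.ext (gv_smul σ c (a : Fin n → Ω)))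
  unfold Module.finrank
  rw [h1]

theorem finite_orbit [Algebra.IsAlgebraic K Ω] (z : Ω) : {w : Ω | ∃ σ : Ω ≃ₐ[K] Ω, w = σ z}.Finite := by
  classical
  have h1 : ((minpoly K z).rootSet Ω).Finite := Polynomial.rootSet_finite _ _
  refine h1.subset ?_
  rintro _ ⟨σ, rfl⟩
  rw [Polynomial.mem_rootSet]
  refine ⟨minpoly.ne_zero (Algebra.IsIntegral.isIntegral z), ?_⟩
  have h2 : Polynomial.aeval (σ z) (minpoly K z) = σ (Polynomial.aeval z (minpoly K z)) :=
    Polynomial.aeval_algHom_apply σ.toAlgHom z _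
  rw [h2, minpoly.aeval, map_zero]

/-- **Galois descent** for subspaces of a power of the field. -/
theorem descent [IsGalois K Ω] [CharZero Ω] {U : Submodule Ω (Fin n → Ω)}
    (hU : ∀ (σ : Ω ≃ₐ[K] Ω), ∀ a ∈ U, gv σ a ∈ U) :
    U ≤ Submodule.span Ω {a | a ∈ U ∧ ∀ l, ∃ z : K, a l = algebraMap K Ω z} := by
  classical
  set S := Submodule.span Ω {a | a ∈ U ∧ ∀ l, ∃ z : K, a l = algebraMap K Ω z} with hS
  have key : ∀ m : ℕ, ∀ v ∈ U, (Finset.univ.filter fun l => v l ≠ 0).card ≤ m → v ∈ S := by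
    intro m
    induction m with
    | zero =>
      intro v _ hm
      have h1 : v = 0 := by
        funext i
        by_contra h
        have h1 : i ∈ (Finset.univ.filter fun i => v i ≠ 0) :=
          Finset.mem_filter.2 ⟨Finset.mem_univ _, h⟩
        rw [Finset.card_eq_zero.1 (Nat.le_zero.1 hm)] at h1
        exact absurd h1 (Finset.notMem_empty _)
      rw [h1]
      exact S.zero_mem
    | succ m ih =>
      intro v hv hm
      by_cases hv0 : ∃ i, v i ≠ 0
      swap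
      · push Not at hv0
        rw [show v = 0 from funext hv0]
        exact S.zero_mem
      obtain ⟨i, hi⟩ := hv0
      set u : Fin n → Ω := (v i)⁻¹ • v with hu
      have huU : u ∈ U := U.smul_mem _ hv
      have hui : u i = 1 := inv_mul_cancel₀ hi
      have huv : ∀ l, v l = 0 → u l = 0 := fun l hl => by
        show (v i)⁻¹ * v l = 0
        rw [hl, mul_zero]
      let O : Set (Fin n → Ω) := {w | ∃ σ : Ω ≃ₐ[K] Ω, w = gv σ u}
      have hO : O.Finite := by
        have h1 : (Set.pi Set.univ fun l => {w : Ω | ∃ σ : Ω ≃ₐ[K] Ω, w = σ (u l)}).Finite :=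
          Set.Finite.pi fun l => finite_orbit (u l)
        refine h1.subset ?_
        rintro _ ⟨σ, rfl⟩ l _
        exact ⟨σ, rfl⟩
      let O' : Finset (Fin n → Ω) := hO.toFinset
      have hmem : ∀ x, x ∈ O' ↔ ∃ σ : Ω ≃ₐ[K] Ω, x = gv σ u := fun x => hO.mem_toFinset
      let w : Fin n → Ω := ∑ x ∈ O', x
      have hfix : ∀ σ : Ω ≃ₐ[K] Ω, gv σ w = w := by
        intro σ
        have h1 : gv σ w = ∑ x ∈ O', gv σ x := by
          have h2 : ∀ s : Finset (Fin n → Ω), gv σ (∑ x ∈ s, x) = ∑ x ∈ s, gv σ x := by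
            intro s
            induction s using Finset.induction_on with
            | empty => rw [Finset.sum_empty, Finset.sum_empty, gv_zero]
            | insert a s ha ih => rw [Finset.sum_insert ha, Finset.sum_insert ha, gv_add, ih]
          exact h2 O'
        rw [h1]
        refine Finset.sum_bij (fun x _ => gv σ x) (fun x hx => ?_) (fun x _ y _ hxy => ?_)
          (fun x hx => ?_) fun x _ => rfl
        · obtain ⟨τ, rfl⟩ := (hmem x).1 hx
          exact (hmem _).2 ⟨τ.trans σ, rfl⟩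
        · have h2 := congrArg (gv σ.symm) hxy
          rwa [gv_symm', gv_symm'] at h2
        · obtain ⟨τ, rfl⟩ := (hmem x).1 hx
          refine ⟨gv (τ.trans σ.symm) u, (hmem _).2 ⟨_, rfl⟩, ?_⟩
          exact gv_symm σ (gv τ u)
      have hwU : w ∈ U := U.sum_mem fun x hx => by
        obtain ⟨σ, rfl⟩ := (hmem x).1 hx
        exact hU σ u huU
      have hwS : w ∈ S := by
        refine Submodule.subset_span ⟨hwU, fun l => ?_⟩
        obtain ⟨z, hz⟩ := (InfiniteGalois.mem_range_algebraMap_iff_fixed (k := K) (w l)).2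
          fun σ => congrFun (hfix σ) l
        exact ⟨z, hz.symm⟩
      have hN : (O'.card : Ω) ≠ 0 := by
        have h1 : u ∈ O' := (hmem u).2 ⟨AlgEquiv.refl, rfl⟩
        exact Nat.cast_ne_zero.2 (Finset.card_ne_zero_of_mem h1)
      have hdiff : ∀ x ∈ O', u - x ∈ S := by
        intro x hx
        obtain ⟨σ, rfl⟩ := (hmem x).1 hx
        refine ih _ (U.sub_mem huU (hU σ u huU)) ?_
        have h1 : (Finset.univ.filter fun l => (u - gv σ u) l ≠ 0) ⊆
            (Finset.univ.filter fun l => v l ≠ 0).erase i := by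
          intro l hl
          have hl' := (Finset.mem_filter.1 hl).2
          rw [Finset.mem_erase]
          refine ⟨?_, Finset.mem_filter.2 ⟨Finset.mem_univ _, fun h => ?_⟩⟩
          · rintro rfl
            apply hl'
            show u l - σ (u l) = 0
            rw [hui, map_one, sub_self]
          · apply hl'
            show u l - σ (u l) = 0
            rw [huv l h, map_zero, sub_zero]
        have h2 := Finset.card_le_card h1
        have h3 := Finset.card_erase_add_one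
          (Finset.mem_filter.2 ⟨Finset.mem_univ i, hi⟩ : i ∈ Finset.univ.filter fun l => v l ≠ 0)
        omega
      have h1 : (O'.card : Ω) • u = w + ∑ x ∈ O', (u - x) := by
        rw [Finset.sum_sub_distrib, Finset.sum_const]
        show (O'.card : Ω) • u = w + (O'.card • u - w)
        rw [add_sub_cancel, Nat.cast_smul_eq_nsmul]
      have h2 : u ∈ S := by
        have h3 : (O'.card : Ω) • u ∈ S := by
          rw [h1]
          exact S.add_mem hwS (S.sum_mem hdiff)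
        have h4 := S.smul_mem ((O'.card : Ω)⁻¹) h3
        rwa [smul_smul, inv_mul_cancel₀ hN, one_smul] at h4
      have h3 : v = v i • u := by
        rw [hu, smul_smul, mul_inv_cancel₀ hi, one_smul]
      rw [h3]
      exact S.smul_mem _ h2
  exact fun v hv => key _ v hv le_rfl

end

section

variable {F T : Type*} [Field F] [AddCommGroup T] [Module F T] [FiniteDimensional F T]
  {ι : Type*} [Fintype ι] (Ts : ι → Submodule F T)

theorem dm_add (U U' : Submodule F T) : dm (U ⊔ U') + dm (U ⊓ U') = dm U + dm U' := by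
  unfold dm
  exact_mod_cast Submodule.finrank_sup_add_finrank_inf_eq U U'

theorem slack_submod (C : Submodule F T) {p : ι → ℚ} (hp : ∀ i, 0 ≤ p i) (U U' : Submodule F T) :
    slack Ts C p (U ⊔ U') + slack Ts C p (U ⊓ U') ≤ slack Ts C p U + slack Ts C p U' := by
  unfold slack
  have h1 : ∀ i, p i * (dm (Ts i ⊓ C) - dm (Ts i ⊓ (U ⊔ U'))) +
      p i * (dm (Ts i ⊓ C) - dm (Ts i ⊓ (U ⊓ U'))) ≤
      p i * (dm (Ts i ⊓ C) - dm (Ts i ⊓ U)) + p i * (dm (Ts i ⊓ C) - dm (Ts i ⊓ U')) := by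
    intro i
    have h2 := dm_add (Ts i ⊓ U) (Ts i ⊓ U')
    have h3 : (Ts i ⊓ U) ⊓ (Ts i ⊓ U') = Ts i ⊓ (U ⊓ U') := by
      rw [inf_inf_inf_comm, inf_idem]
    have h4 : dm ((Ts i ⊓ U) ⊔ (Ts i ⊓ U')) ≤ dm (Ts i ⊓ (U ⊔ U')) :=
      dm_mono (sup_le (inf_le_inf_left _ le_sup_left) (inf_le_inf_left _ le_sup_right))
    rw [h3] at h2
    have h5 : (dm (Ts i ⊓ C) - dm (Ts i ⊓ (U ⊔ U'))) + (dm (Ts i ⊓ C) - dm (Ts i ⊓ (U ⊓ U'))) ≤
        (dm (Ts i ⊓ C) - dm (Ts i ⊓ U)) + (dm (Ts i ⊓ C) - dm (Ts i ⊓ U')) := by linarith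
    have h6 := mul_le_mul_of_nonneg_left h5 (hp i)
    linarith
  have h2 := Finset.sum_le_sum fun i (_ : i ∈ Finset.univ) => h1 i
  rw [Finset.sum_add_distrib, Finset.sum_add_distrib] at h2
  have h3 := dm_add U U'
  linarith

/-- It is enough to test the condition for the subspaces which are stable under a group. -/
theorem extremal {p : ι → ℚ} (hp : ∀ i, 0 ≤ p i) {Γ : Type*} (γ : Γ → Submodule F T → Submodule F T)
    (hγ : ∀ σ U, Module.finrank F (γ σ U) = Module.finrank F U)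
    (hγs : ∀ σ U, slack Ts ⊤ p (γ σ U) = slack Ts ⊤ p U)
    (h : ∀ U, (∀ σ, γ σ U = U) → 0 ≤ slack Ts ⊤ p U) : BLc Ts ⊥ ⊤ p := by
  classical
  intro U₁ _ _
  by_contra hneg
  push Not at hneg
  have hfin : (Set.range fun U => slack Ts ⊤ p U).Finite := by
    let M := Module.finrank F T
    let G : Fin (M + 1) × (ι → Fin (M + 1)) → ℚ := fun v =>
      (∑ i, p i * (dm (Ts i ⊓ ⊤) - ((v.2 i : ℕ) : ℚ)) - (dm (⊤ : Submodule F T) -
        ((v.1 : ℕ) : ℚ)))
    refine (Set.finite_range G).subset ?_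
    rintro t ⟨U, rfl⟩
    exact ⟨(⟨Module.finrank F U, Nat.lt_succ_of_le (Submodule.finrank_le _)⟩, fun i =>
      ⟨Module.finrank F (Ts i ⊓ U : Submodule F T), Nat.lt_succ_of_le (Submodule.finrank_le _)⟩),
      rfl⟩
  obtain ⟨g, ⟨U₂, rfl⟩, hmin⟩ := Set.exists_min_image _ id hfin ⟨_, U₁, rfl⟩
  simp only [id] at hmin
  have hmin' : ∀ U, slack Ts ⊤ p U₂ ≤ slack Ts ⊤ p U := fun U => hmin _ ⟨U, rfl⟩
  -- maximal dimension
  have hfin2 : {d : ℕ | ∃ U, slack Ts ⊤ p U = slack Ts ⊤ p U₂ ∧ Module.finrank F U = d}.Finite := by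
    refine (Set.finite_le_nat (Module.finrank F T)).subset ?_
    rintro d ⟨U, -, rfl⟩
    exact Submodule.finrank_le U
  obtain ⟨d, ⟨U₀, hU₀, rfl⟩, hmax⟩ := Set.exists_max_image _ id hfin2 ⟨_, U₂, rfl, rfl⟩
  simp only [id] at hmax
  have hstab : ∀ σ, γ σ U₀ = U₀ := by
    intro σ
    have h1 := slack_submod Ts ⊤ hp U₀ (γ σ U₀)
    rw [hγs] at h1
    have h2 := hmin' (U₀ ⊔ γ σ U₀)
    have h3 := hmin' (U₀ ⊓ γ σ U₀)
    have h4 : slack Ts ⊤ p (U₀ ⊔ γ σ U₀) = slack Ts ⊤ p U₂ := by linarith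
    have h5 := hmax _ ⟨_, h4, rfl⟩
    have h6 : U₀ = U₀ ⊔ γ σ U₀ := Submodule.eq_of_le_of_finrank_le le_sup_left h5
    have h7 : γ σ U₀ ≤ U₀ := le_sup_right.trans h6.ge
    exact Submodule.eq_of_le_of_finrank_eq h7 (hγ σ U₀)
  have h1 := h U₀ hstab
  have h2 := hmin' U₁
  linarith

end

end Pool.Agent.H891.BL
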