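import Mathlib

/-! Spaces of functions on products: counting. -/

set_option autoImplicit false
set_option linter.unusedSectionVars false

namespace Pool.Agent.H891.BL

section

variable {F : Type*} [Field F]

/-- A finite-dimensional space of functions is determined by the values at finitely many points,
at most the dimension. -/
theorem exists_points {X : Type*} (V : Submodule F (X → F)) [FiniteDimensional F V] :
    ∃ P : Fin (Module.finrank F V) → X, ∀ v ∈ V, (∀ j, v (P j) = 0) → v = 0 := by
  classical
  -- the evaluations
  let ev : X → Module.Dual F V := fun x => (LinearMap.proj x).comp V.subtype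
  have hspan : Submodule.span F (Set.range ev) = ⊤ := by
    by_contra h
    obtain ⟨φ, hφ, h0⟩ := Submodule.exists_le_ker_of_lt_top _ (lt_top_iff_ne_top.2 h)
    obtain ⟨v, hv⟩ := (Module.evalEquiv F V).surjective φ
    apply hφ
    have hv0 : v = 0 := by
      apply Subtype.ext
      funext x
      have h1 : ev x ∈ LinearMap.ker φ := h0 (Submodule.subset_span ⟨x, rfl⟩)
      rw [LinearMap.mem_ker, ← hv] at h1
      exact h1
    rw [← hv, hv0, map_zero]
  obtain ⟨b, hb, hbs, hbl⟩ := exists_linearIndependent F (Set.range ev)
  have hbspan : Submodule.span F b = ⊤ := hbs.trans hspan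
  have hcard : Module.finrank F V = Nat.card b := by
    rw [← Subspace.dual_finrank_eq]
    have h1 := Module.finrank_eq_nat_card_basis (Module.Basis.mk hbl (by
      rw [Subtype.range_coe, hbspan]))
    exact h1
  have hfin : Finite b := hbl.finite
  have e : Fin (Module.finrank F V) ≃ b := (finCongr hcard).trans (Finite.equivFin b).symm
  choose P hP using fun j : b => hb j.2
  refine ⟨fun j => P (e j), fun v hv h0 => ?_⟩
  have h1 : ∀ φ : Module.Dual F V, φ ⟨v, hv⟩ = 0 := by
    intro φ
    have h2 : φ ∈ Submodule.span F b := by
      rw [hbspan]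
      trivial
    induction h2 using Submodule.span_induction with
    | mem x hx =>
      have h3 := hP ⟨x, hx⟩
      have h4 := h0 (e.symm ⟨x, hx⟩)
      simp only [Equiv.apply_symm_apply] at h4
      have h5 : x = ev (P ⟨x, hx⟩) := h3.symm
      rw [h5]
      exact h4
    | zero => rfl
    | add x y _ _ hx hy => rw [LinearMap.add_apply, hx, hy, add_zero]
    | smul c x _ hx => rw [LinearMap.smul_apply, hx, smul_zero]
  have h2 : (⟨v, hv⟩ : V) = 0 := (Module.forall_dual_apply_eq_zero_iff F _).1 h1
  exact congrArg Subtype.val h2

/-- Functions of several variables which depend on each variable in a controlled way. -/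
theorem grid {Q : Type*} [Fintype Q] [DecidableEq Q] {E : Q → Type*}
    (V : ∀ q, Submodule F (E q → F)) [∀ q, FiniteDimensional F (V q)]
    (G : Submodule F ((∀ q, E q) → F))
    (hG : ∀ f ∈ G, ∀ (u : ∀ q, E q) (q : Q), (fun t => f (Function.update u q t)) ∈ V q) :
    FiniteDimensional F G ∧ Module.finrank F G ≤ ∏ q, Module.finrank F (V q) := by
  classical
  choose P hP using fun q => exists_points (V q)
  let φ : G →ₗ[F] ((∀ q, Fin (Module.finrank F (V q))) → F) :=
    LinearMap.pi fun j => (LinearMap.proj (fun q => P q (j q))).comp G.subtype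
  have hinj : Function.Injective φ := by
    rw [← LinearMap.ker_eq_bot, LinearMap.ker_eq_bot']
    rintro ⟨f, hf⟩ h0
    have h1 : ∀ j : ∀ q, Fin (Module.finrank F (V q)), f (fun q => P q (j q)) = 0 :=
      fun j => congrFun h0 j
    have key : ∀ s : Finset Q, ∀ u : ∀ q, E q, (∀ q ∉ s, ∃ j, u q = P q j) → f u = 0 := by
      intro s
      induction s using Finset.induction_on with
      | empty =>
        intro u hu
        choose j hj using fun q => hu q (Finset.notMem_empty q)
        have h2 := h1 j
        rwa [← show u = fun q => P q (j q) from funext hj] at h2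
      | insert q s hq ih =>
        intro u hu
        have h2 := hP q _ (hG f hf u q) (fun j => ?_)
        · have h3 := congrFun h2 (u q)
          simp only [Function.update_eq_self] at h3
          exact h3
        · refine ih _ fun q' hq' => ?_
          by_cases h : q' = q
          · subst h
            exact ⟨j, Function.update_self _ _ _⟩
          · rw [Function.update_of_ne h]
            exact hu q' (by
              rw [Finset.mem_insert, not_or]
              exact ⟨h, hq'⟩)
    apply Subtype.ext
    funext u
    exact key Finset.univ u fun q hq => (hq (Finset.mem_univ q)).elim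
  refine ⟨FiniteDimensional.of_injective φ hinj, ?_⟩
  refine (LinearMap.finrank_le_finrank_of_injective hinj).trans ?_
  rw [Module.finrank_fintype_fun_eq_card, Fintype.card_pi]
  simp only [Fintype.card_fin]
  exact le_rfl

/-- Products of independent functions are independent. -/
theorem prod_indep {X : Type*} {M : ℕ} {f : Fin M → X → F} (hf : LinearIndependent F f)
    {R : Type*} [Fintype R] [DecidableEq R] :
    LinearIndependent F fun (j : R → Fin M) (x : R → X) => ∏ l, f (j l) (x l) := by
  classical
  let V : Submodule F (X → F) := Submodule.span F (Set.range f)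
  have hfd : FiniteDimensional F V := FiniteDimensional.span_of_finite F (Set.finite_range f)
  obtain ⟨P, hP⟩ := exists_points V
  have hcard : Module.finrank F V = M := by
    show Module.finrank F (Submodule.span F (Set.range f)) = M
    rw [finrank_span_eq_card hf, Fintype.card_fin]
  let A : Matrix (Fin M) (Fin (Module.finrank F V)) F := Matrix.of fun a b => f a (P b)
  -- a right inverse
  have hA : ∃ C : Matrix (Fin (Module.finrank F V)) (Fin M) F, A * C = 1 := by
    have h1 : LinearIndependent F A.row := by
      rw [Fintype.linearIndependent_iff]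
      intro c hc
      have h2 : ∑ a, c a • f a = 0 := by
        apply hP
        · exact Submodule.sum_mem _ fun a _ => Submodule.smul_mem _ _
            (Submodule.subset_span ⟨a, rfl⟩)
        · intro b
          have h3 := congrFun hc b
          rw [Finset.sum_apply] at h3 ⊢
          exact h3
      exact Fintype.linearIndependent_iff.1 hf c h2
    let e : Fin (Module.finrank F V) ≃ Fin M := finCongr hcard
    have h2 : IsUnit (A.submatrix id e.symm) := by
      rw [← Matrix.linearIndependent_rows_iff_isUnit]
      rw [Fintype.linearIndependent_iff]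
      intro c hc
      refine Fintype.linearIndependent_iff.1 h1 c ?_
      funext b
      have h3 := congrFun hc (e b)
      rw [Finset.sum_apply] at h3 ⊢
      refine (Finset.sum_congr rfl fun a _ => ?_).trans h3
      show c a * A a b = c a * A a (e.symm (e b))
      rw [Equiv.symm_apply_apply]
    obtain ⟨C, hC⟩ := h2.exists_right_inv
    refine ⟨C.submatrix e id, ?_⟩
    have h3 : A * C.submatrix e id = (A.submatrix id e.symm) * C := by
      ext a b
      rw [Matrix.mul_apply, Matrix.mul_apply]
      refine Fintype.sum_equiv e _ _ fun c => ?_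
      show A a c * C (e c) b = A a (e.symm (e c)) * C (e c) b
      rw [Equiv.symm_apply_apply]
    rw [h3, hC]
  obtain ⟨C, hC⟩ := hA
  rw [Fintype.linearIndependent_iff]
  intro c hc j₀
  have h1 : ∀ b : R → Fin (Module.finrank F V), ∑ j, c j * ∏ l, f (j l) (P (b l)) = 0 := by
    intro b
    have h2 := congrFun hc fun l => P (b l)
    rw [Finset.sum_apply] at h2
    exact h2
  have h2 : ∑ b : R → Fin (Module.finrank F V),
      (∏ l, C (b l) (j₀ l)) * ∑ j, c j * ∏ l, f (j l) (P (b l)) = 0 :=
    Finset.sum_eq_zero fun b _ => by rw [h1 b, mul_zero]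
  rw [← h2]
  simp only [Finset.mul_sum]
  rw [Finset.sum_comm]
  rw [Finset.sum_eq_single j₀]
  · have h3 : ∀ b : R → Fin (Module.finrank F V), (∏ l, C (b l) (j₀ l)) *
        (c j₀ * ∏ l, f (j₀ l) (P (b l))) = c j₀ * ∏ l, (A (j₀ l) (b l) * C (b l) (j₀ l)) := by
      intro b
      rw [Finset.prod_mul_distrib]
      show _ = c j₀ * ((∏ l, f (j₀ l) (P (b l))) * _)
      ring
    simp only [h3]
    rw [← Finset.mul_sum, ← Fintype.piFinset_univ,
      ← Finset.prod_univ_sum (fun _ => Finset.univ) fun l b => A (j₀ l) b * C b (j₀ l)]
    have h4 : ∀ l, ∑ b, A (j₀ l) b * C b (j₀ l) = 1 := by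
      intro l
      have h5 := congrFun (congrFun hC (j₀ l)) (j₀ l)
      rw [Matrix.mul_apply, Matrix.one_apply_eq] at h5
      exact h5
    simp only [h4]
    rw [Finset.prod_const_one, mul_one]
  · intro j _ hj
    have h3 : ∀ b : R → Fin (Module.finrank F V), (∏ l, C (b l) (j₀ l)) *
        (c j * ∏ l, f (j l) (P (b l))) = c j * ∏ l, (A (j l) (b l) * C (b l) (j₀ l)) := by
      intro b
      rw [Finset.prod_mul_distrib]
      show _ = c j * ((∏ l, f (j l) (P (b l))) * _)
      ring
    simp only [h3]
    rw [← Finset.mul_sum, ← Fintype.piFinset_univ,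
      ← Finset.prod_univ_sum (fun _ => Finset.univ) fun l b => A (j l) b * C b (j₀ l)]
    obtain ⟨l, hl⟩ : ∃ l, j l ≠ j₀ l := by
      by_contra h
      push Not at h
      exact hj (funext h)
    rw [Finset.prod_eq_zero (Finset.mem_univ l), mul_zero]
    have h5 := congrFun (congrFun hC (j l)) (j₀ l)
    rw [Matrix.mul_apply, Matrix.one_apply_ne hl] at h5
    exact h5
  · intro h
    exact (h (Finset.mem_univ _)).elim

end

end Pool.Agent.H891.BL
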