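import Pool.Agent.H891.BL.Restr

/-! The Brascamp-Lieb inequality for ranks over subfields. -/

set_option autoImplicit false
set_option linter.unusedSectionVars false

open MvPolynomial Pool.Agent.H891.TY
open scoped Pointwise

namespace Pool.Agent.H891.BL

section

variable {F T ι : Type*} [Field F] [AddCommGroup T] [Module F T]

/-- The subspaces `Ts i`, with the coefficients `X`, generate the powers of `C` modulo `A`. -/
def Good (Ts : ι → Submodule F T) {Rw Q : Type*} [Fintype Q] (τ : Q → ι) (X : Rw → Q → F)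
    (A C : Submodule F T) : Prop :=
  ∀ z : Rw → T, (∀ l, z l ∈ C) → ∃ t : Q → T, (∀ q, t q ∈ Ts (τ q) ⊓ C) ∧
    ∀ l, z l - ∑ q, X l q • t q ∈ A

end

section

variable {k Ω : Type*} [Field k] [Field Ω] [CharZero Ω] [Algebra k Ω] {n : ℕ}
  {E : Fin n → Derivation k Ω Ω}

theorem fin_pow {W : Set Ω} (hW : W.Finite) (D : ℕ) : (W ^ D).Finite := by
  induction D with
  | zero =>
    rw [pow_zero]
    exact Set.finite_one
  | succ D ih =>
    rw [pow_succ]
    exact ih.mul hW

theorem ineq (hcomm : ∀ l m a, E l (E m a) = E m (E l a))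
    (hconst : ∀ a, (∀ l, E l a = 0) → ∃ c : k, algebraMap k Ω c = a) {ι : Type*}
    (B : ι → IntermediateField k Ω) {Rw Q : Type*} [Fintype Rw] [Fintype Q] (τ : Q → ι)
    (X : Rw → Q → Ω) (hgood : Good (fun i => TB E (B i : Set Ω)) τ X ⊥ ⊤) {N : ℕ}
    {w : Fin N → Ω} (hw : LinearIndependent k w) :
    N ^ Fintype.card Rw ≤ ∏ q, Module.finrank (B (τ q))
      (Submodule.span (B (τ q)) ((Set.range w) ^ Fintype.card Rw)) := by
  classical
  have hinf : Infinite Ω := CharZero.infinite Ω
  obtain ⟨g, hgW, hg⟩ := LS_indep hcomm hconst (W := Set.range w) hw fun i => ⟨i, rfl⟩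
  let T : Q → Submodule Ω (Fin n → Ω) := fun q => TB E (B (τ q) : Set Ω)
  let V : ∀ q, Submodule Ω (T q → Ω) := fun q =>
    (LS E ((Set.range w) ^ Fintype.card Rw)).map (rs (T q))
  have hfin : ((Set.range w) ^ Fintype.card Rw).Finite := fin_pow (Set.finite_range w) _
  have hfd : ∀ q, FiniteDimensional (B (τ q))
      (Submodule.span (B (τ q)) ((Set.range w) ^ Fintype.card Rw)) := fun q =>
    FiniteDimensional.span_of_finite _ hfin
  have hV : ∀ q, FiniteDimensional Ω (V q) ∧ Module.finrank Ω (V q) ≤
      Module.finrank (B (τ q)) (Submodule.span (B (τ q)) ((Set.range w) ^ Fintype.card Rw)) :=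
    fun q => restr_rank hcomm (B (τ q))
  have _ : ∀ q, FiniteDimensional Ω (V q) := fun q => (hV q).1
  let Φ : (∀ q, T q) → Rw → (Fin n → Ω) := fun u l => ∑ q, X l q • (u q : Fin n → Ω)
  have hsurj : ∀ z : Rw → (Fin n → Ω), ∃ u, Φ u = z := by
    intro z
    obtain ⟨t, ht, htz⟩ := hgood z fun l => Submodule.mem_top
    refine ⟨fun q => ⟨t q, (ht q).1⟩, funext fun l => ?_⟩
    exact (sub_eq_zero.1 ((Submodule.mem_bot Ω).1 (htz l))).symm
  let f : Fin N → (Fin n → Ω) → Ω := fun a x => eval x (g a)
  have hf : LinearIndependent Ω f := by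
    rw [Fintype.linearIndependent_iff]
    intro c hc
    refine Fintype.linearIndependent_iff.1 hg c (MvPolynomial.funext fun x => ?_)
    have h1 := congrFun hc x
    rw [Finset.sum_apply] at h1
    rw [map_sum, map_zero]
    refine Eq.trans (Finset.sum_congr rfl fun a _ => ?_) h1
    rw [smul_eval]
    rfl
  let G : (Rw → Fin N) → (∀ q, T q) → Ω := fun j u => ∏ l, f (j l) (Φ u l)
  have hGli : LinearIndependent Ω G := by
    rw [Fintype.linearIndependent_iff]
    intro c hc
    refine Fintype.linearIndependent_iff.1 (prod_indep hf (R := Rw)) c (funext fun z => ?_)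
    obtain ⟨u, rfl⟩ := hsurj z
    have h1 := congrFun hc u
    rw [Finset.sum_apply] at h1 ⊢
    exact h1
  have hupd : ∀ (u : ∀ q, T q) (q : Q) (t : T q) (l : Rw), Φ (Function.update u q t) l =
      fun i => X l q * (t : Fin n → Ω) i + Φ (Function.update u q 0) l i := by
    intro u q t l
    have h1 : Φ (Function.update u q t) l = X l q • (t : Fin n → Ω) +
        Φ (Function.update u q 0) l := by
      show ∑ q', X l q' • (Function.update u q t q' : Fin n → Ω) = _ +
        ∑ q', X l q' • (Function.update u q 0 q' : Fin n → Ω)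
      rw [← Finset.add_sum_erase _ _ (Finset.mem_univ q),
        ← Finset.add_sum_erase _ (fun q' => X l q' • (Function.update u q 0 q' : Fin n → Ω))
          (Finset.mem_univ q)]
      simp only [Function.update_self]
      have h0 : X l q • ((0 : T q) : Fin n → Ω) = 0 := smul_zero _
      rw [h0, zero_add]
      congr 1
      refine Finset.sum_congr rfl fun q' hq' => ?_
      rw [Function.update_of_ne (Finset.ne_of_mem_erase hq'),
        Function.update_of_ne (Finset.ne_of_mem_erase hq')]
    rw [h1]
    rfl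
  have hmem : ∀ h ∈ Submodule.span Ω (Set.range G), ∀ (u : ∀ q, T q) (q : Q),
      (fun t => h (Function.update u q t)) ∈ V q := by
    intro h hh u q
    induction hh using Submodule.span_induction with
    | mem x hx =>
      obtain ⟨j, rfl⟩ := hx
      let g' : Rw → MvPolynomial (Fin n) Ω := fun l =>
        sc (X l q) (tr (Φ (Function.update u q 0) l) (g (j l)))
      refine ⟨∏ l, g' l, LS_prod Finset.univ fun l _ => LS_sc (LS_tr hcomm (hgW _) _) _, ?_⟩
      funext t
      rw [rs_apply, map_prod]
      show _ = ∏ l, eval (Φ (Function.update u q t) l) (g (j l))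
      refine Finset.prod_congr rfl fun l _ => ?_
      rw [eval_sc, eval_tr, hupd u q t l]
    | zero => exact Submodule.zero_mem _
    | add x y _ _ hx hy => exact Submodule.add_mem _ hx hy
    | smul c x _ hx => exact Submodule.smul_mem _ _ hx
  obtain ⟨h1, h2⟩ := grid V (Submodule.span Ω (Set.range G)) hmem
  rw [finrank_span_eq_card hGli, Fintype.card_fun, Fintype.card_fin] at h2
  exact h2.trans (Finset.prod_le_prod' fun q _ => (hV q).2)

end

end Pool.Agent.H891.BL
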