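import Mathlib

/-! Spaces of polynomials which are closed under derivatives are closed under translations. -/

set_option autoImplicit false
set_option linter.unusedSectionVars false

open MvPolynomial

namespace Pool.Agent.H891.BL

section

variable {F : Type*} [Field F] [CharZero F] {σ : Type*} [Fintype σ]

/-- the derivative in the direction `c` -/
noncomputable def dc (c : σ → F) : MvPolynomial σ F →ₗ[F] MvPolynomial σ F :=
  ∑ i, (c i) • (pderiv i).toLinearMap

theorem dc_apply (c : σ → F) (p : MvPolynomial σ F) : dc c p = ∑ i, c i • pderiv i p := by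
  unfold dc
  rw [LinearMap.sum_apply]
  rfl

theorem dc_C (c : σ → F) (a : F) : dc c (C a) = 0 := by
  rw [dc_apply]
  exact Finset.sum_eq_zero fun i _ => by rw [pderiv_C, smul_zero]

theorem dc_mul (c : σ → F) (p q : MvPolynomial σ F) : dc c (p * q) = dc c p * q + p * dc c q := by
  simp only [dc_apply, Derivation.leibniz, smul_eq_mul, Finset.sum_mul, Finset.mul_sum]
  rw [← Finset.sum_add_distrib]
  refine Finset.sum_congr rfl fun i _ => ?_
  rw [smul_add, smul_mul_assoc, mul_smul_comm, add_comm, mul_comm q]

theorem dc_X (c : σ → F) (i : σ) : dc c (X i) = C (c i) := by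
  classical
  rw [dc_apply, Finset.sum_eq_single i]
  · rw [pderiv_X_self, smul_eq_C_mul, mul_one]
  · intro j _ hj
    rw [pderiv_X_of_ne (Ne.symm hj), smul_zero]
  · intro h
    exact (h (Finset.mem_univ _)).elim

theorem dc_pow_mul_X (c : σ → F) (p : MvPolynomial σ F) (i : σ) (N : ℕ) :
    ((dc c) ^ (N + 1)) (p * X i) =
      ((dc c) ^ (N + 1)) p * X i + ((N + 1 : ℕ) : F) • (C (c i) * ((dc c) ^ N) p) := by
  induction N with
  | zero =>
    rw [zero_add, pow_one, pow_zero, dc_mul, dc_X, Module.End.one_apply, Nat.cast_one, one_smul,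
      mul_comm p (C _)]
  | succ N ih =>
    rw [pow_succ', Module.End.mul_apply, ih, map_add, dc_mul, dc_X, map_smul, dc_mul, dc_C,
      zero_mul, zero_add, ← Module.End.mul_apply, ← pow_succ', ← Module.End.mul_apply (dc c),
      ← pow_succ' (dc c) N]
    rw [add_assoc]
    congr 1
    rw [Nat.cast_succ (N + 1), add_smul, one_smul, mul_comm _ (C _)]
    exact add_comm _ _

/-- translation -/
noncomputable def tr (c : σ → F) : MvPolynomial σ F →ₐ[F] MvPolynomial σ F :=
  aeval fun i => X i + C (c i)

theorem eval_tr (c x : σ → F) (p : MvPolynomial σ F) :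
    eval x (tr c p) = eval (fun i => x i + c i) p := by
  unfold tr
  induction p using MvPolynomial.induction_on with
  | C a => rw [aeval_C, algebraMap_eq, eval_C, eval_C]
  | add p q hp hq => rw [map_add, map_add, map_add, hp, hq]
  | mul_X p i hp =>
    rw [map_mul, map_mul, map_mul, hp, aeval_X, map_add, eval_X, eval_C, eval_X]

/-- Taylor's formula -/
theorem taylor (c : σ → F) (p : MvPolynomial σ F) :
    ∃ M₀ : ℕ, ∀ M, M₀ ≤ M → ∑ N ∈ Finset.range M, ((N.factorial : F)⁻¹) • ((dc c) ^ N) p = tr c p := by
  induction p using MvPolynomial.induction_on with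
  | C a =>
    refine ⟨1, fun M hM => ?_⟩
    rw [Finset.sum_eq_single 0]
    · rw [Nat.factorial_zero, Nat.cast_one, inv_one, one_smul, pow_zero, Module.End.one_apply]
      unfold tr
      rw [aeval_C, algebraMap_eq]
    · intro N _ hN
      obtain ⟨N, rfl⟩ := Nat.exists_eq_succ_of_ne_zero hN
      rw [pow_succ, Module.End.mul_apply, dc_C, map_zero, smul_zero]
    · intro h
      exact (h (Finset.mem_range.2 hM)).elim
  | add p q hp hq =>
    obtain ⟨M₁, h₁⟩ := hp
    obtain ⟨M₂, h₂⟩ := hq
    refine ⟨max M₁ M₂, fun M hM => ?_⟩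
    rw [map_add, ← h₁ M (le_of_max_le_left hM), ← h₂ M (le_of_max_le_right hM),
      ← Finset.sum_add_distrib]
    exact Finset.sum_congr rfl fun N _ => by rw [map_add, smul_add]
  | mul_X p i hp =>
    obtain ⟨M₁, h₁⟩ := hp
    refine ⟨M₁ + 1, fun M hM => ?_⟩
    obtain ⟨M, rfl⟩ := Nat.exists_eq_succ_of_ne_zero (by omega : M ≠ 0)
    have h2 : tr c (p * X i) = tr c p * X i + C (c i) * tr c p := by
      rw [map_mul]
      conv_lhs => rw [show tr c (X i) = X i + C (c i) from aeval_X _ _]
      ring
    rw [h2]
    conv_rhs => rw [← h₁ (M + 1) (by omega)]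
    conv_rhs =>
      arg 2
      rw [h₁ (M + 1) (by omega), ← h₁ M (by omega)]
    rw [Finset.sum_range_succ', Finset.sum_range_succ', Finset.mul_sum, add_mul, Finset.sum_mul,
      add_right_comm, ← Finset.sum_add_distrib]
    congr 1
    · refine Finset.sum_congr rfl fun N _ => ?_
      rw [dc_pow_mul_X, smul_add, smul_mul_assoc, smul_smul, mul_smul_comm]
      congr 2
      have h3 : ((N + 1 : ℕ) : F) ≠ 0 := Nat.cast_ne_zero.2 (Nat.succ_ne_zero N)
      rw [Nat.factorial_succ, Nat.cast_mul, mul_inv, mul_comm ((N + 1 : ℕ) : F)⁻¹, mul_assoc,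
        inv_mul_cancel₀ h3, mul_one]
    · rw [pow_zero, Module.End.one_apply, Module.End.one_apply, smul_mul_assoc]

/-- A space of polynomials closed under derivatives is closed under translations. -/
theorem tr_mem {V : Submodule F (MvPolynomial σ F)} (hV : ∀ p ∈ V, ∀ i, pderiv i p ∈ V)
    (c : σ → F) {p : MvPolynomial σ F} (hp : p ∈ V) : tr c p ∈ V := by
  have h1 : ∀ p ∈ V, dc c p ∈ V := by
    intro p hp
    rw [dc_apply]
    exact Submodule.sum_mem _ fun i _ => Submodule.smul_mem _ _ (hV p hp i)
  have h2 : ∀ N : ℕ, ((dc c) ^ N) p ∈ V := by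
    intro N
    induction N with
    | zero => rwa [pow_zero, Module.End.one_apply]
    | succ N ih =>
      rw [pow_succ', Module.End.mul_apply]
      exact h1 _ ih
  obtain ⟨M, hM⟩ := taylor c p
  rw [← hM M le_rfl]
  exact Submodule.sum_mem _ fun N _ => Submodule.smul_mem _ _ (h2 N)

/-- A polynomial killed by the derivative in the direction `c` is invariant under the translation. -/
theorem tr_eq {c : σ → F} {p : MvPolynomial σ F} (hp : dc c p = 0) : tr c p = p := by
  obtain ⟨M, hM⟩ := taylor c p
  rw [← hM (M + 1) (by omega), Finset.sum_eq_single 0]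
  · rw [Nat.factorial_zero, Nat.cast_one, inv_one, one_smul, pow_zero, Module.End.one_apply]
  · intro N _ hN
    obtain ⟨N, rfl⟩ := Nat.exists_eq_succ_of_ne_zero hN
    rw [pow_succ, Module.End.mul_apply, hp, map_zero, smul_zero]
  · intro h
    exact (h (Finset.mem_range.2 (Nat.succ_pos M))).elim

/-- scaling -/
noncomputable def sc (s : F) : MvPolynomial σ F →ₐ[F] MvPolynomial σ F :=
  aeval fun i => C s * X i

theorem eval_sc (s : F) (x : σ → F) (p : MvPolynomial σ F) :
    eval x (sc s p) = eval (fun i => s * x i) p := by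
  unfold sc
  induction p using MvPolynomial.induction_on with
  | C a => rw [aeval_C, algebraMap_eq, eval_C, eval_C]
  | add p q hp hq => rw [map_add, map_add, map_add, hp, hq]
  | mul_X p i hp =>
    rw [map_mul, map_mul, map_mul, hp, aeval_X, map_mul, eval_X, eval_C, eval_X]

theorem eval_scale {N : ℕ} {p : MvPolynomial σ F} (hp : p.IsHomogeneous N) (s : F) (x : σ → F) :
    eval (fun i => s * x i) p = s ^ N * eval x p := by
  rw [eval_eq, eval_eq, Finset.mul_sum]
  refine Finset.sum_congr rfl fun d hd => ?_
  have h1 : d.degree = N := by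
    by_contra h
    exact mem_support_iff.1 hd (hp.coeff_eq_zero h)
  simp only [mul_pow, Finset.prod_mul_distrib]
  rw [Finset.prod_pow_eq_pow_sum, ← show d.degree = ∑ i ∈ d.support, d i from rfl, h1]
  ring

theorem sc_hom {N : ℕ} {p : MvPolynomial σ F} (hp : p.IsHomogeneous N) (s : F) :
    sc s p = s ^ N • p := by
  have : Infinite F := CharZero.infinite F
  apply MvPolynomial.funext
  intro x
  rw [eval_sc, eval_scale hp, smul_eval]

/-- A space spanned by homogeneous polynomials is closed under scaling. -/
theorem sc_mem {S : Set (MvPolynomial σ F)} (hS : ∀ p ∈ S, ∃ N, p.IsHomogeneous N) (s : F)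
    {p : MvPolynomial σ F} (hp : p ∈ Submodule.span F S) : sc s p ∈ Submodule.span F S := by
  induction hp using Submodule.span_induction with
  | mem x hx =>
    obtain ⟨N, hN⟩ := hS x hx
    rw [sc_hom hN]
    exact Submodule.smul_mem _ _ (Submodule.subset_span hx)
  | zero =>
    rw [map_zero]
    exact Submodule.zero_mem _
  | add x y _ _ hx hy =>
    rw [map_add]
    exact Submodule.add_mem _ hx hy
  | smul c x _ hx =>
    rw [map_smul]
    exact Submodule.smul_mem _ _ hx

end

end Pool.Agent.H891.BL
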