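import Pool.Agent.H891.TY.Count
import Pool.Agent.H891.BL.Trans

/-! The space of the leading forms of the Taylor series of a set of functions. -/

set_option autoImplicit false
set_option linter.unusedSectionVars false

open MvPolynomial Pool.Agent.H891.TY
open scoped Pointwise

namespace Pool.Agent.H891.BL

section

variable {k Ω : Type*} [Field k] [Field Ω] [CharZero Ω] [Algebra k Ω] {n : ℕ}

/-- The derivation `D` of the coefficients. -/
noncomputable def cd (D : Derivation k Ω Ω) (p : MvPolynomial (Fin n) Ω) :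
    MvPolynomial (Fin n) Ω :=
  ∑ d ∈ p.support, monomial d (D (coeff d p))

theorem coeff_cd (D : Derivation k Ω Ω) (p : MvPolynomial (Fin n) Ω) (d : Fin n →₀ ℕ) :
    coeff d (cd D p) = D (coeff d p) := by
  classical
  unfold cd
  rw [coeff_sum]
  simp only [coeff_monomial]
  rw [Finset.sum_ite_eq' p.support d]
  split_ifs with h
  · rfl
  · rw [notMem_support_iff.1 h, map_zero]

theorem cd_add (D : Derivation k Ω Ω) (p q : MvPolynomial (Fin n) Ω) :
    cd D (p + q) = cd D p + cd D q := by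
  ext d
  rw [coeff_add, coeff_cd, coeff_cd, coeff_cd, coeff_add, map_add]

theorem cd_zero (D : Derivation k Ω Ω) : cd D (0 : MvPolynomial (Fin n) Ω) = 0 := by
  ext d
  rw [coeff_cd, coeff_zero, map_zero]

theorem cd_mul (D : Derivation k Ω Ω) (p q : MvPolynomial (Fin n) Ω) :
    cd D (p * q) = cd D p * q + p * cd D q := by
  classical
  ext d
  rw [coeff_cd, coeff_mul, map_sum, coeff_add, coeff_mul, coeff_mul, ← Finset.sum_add_distrib]
  refine Finset.sum_congr rfl fun x _ => ?_
  rw [Derivation.leibniz, coeff_cd, coeff_cd, smul_eq_mul, smul_eq_mul]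
  ring

theorem cd_C (D : Derivation k Ω Ω) (a : Ω) : cd D (C a : MvPolynomial (Fin n) Ω) = C (D a) := by
  classical
  ext d
  rw [coeff_cd, coeff_C, coeff_C]
  split_ifs
  · rfl
  · exact map_zero _

theorem cd_X (D : Derivation k Ω Ω) (i : Fin n) : cd D (X i : MvPolynomial (Fin n) Ω) = 0 := by
  classical
  ext d
  rw [coeff_cd, coeff_X, coeff_zero]
  split_ifs
  · exact D.map_one_eq_zero
  · exact map_zero _

theorem cd_sum (D : Derivation k Ω Ω) {ι : Type*} (s : Finset ι)
    (p : ι → MvPolynomial (Fin n) Ω) : cd D (∑ i ∈ s, p i) = ∑ i ∈ s, cd D (p i) := by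
  classical
  induction s using Finset.induction_on with
  | empty => rw [Finset.sum_empty, Finset.sum_empty, cd_zero]
  | insert i s hi ih => rw [Finset.sum_insert hi, Finset.sum_insert hi, cd_add, ih]

theorem cd_th {E : Fin n → Derivation k Ω Ω} (hcomm : ∀ l m a, E l (E m a) = E m (E l a))
    (l : Fin n) (N : ℕ) (a : Ω) : cd (E l) (th E N a) = th E N (E l a) := by
  induction N generalizing a with
  | zero => rw [th_zero, th_zero, cd_C]
  | succ N ih =>
    have h1 : E l ((N + 1 : Ω)⁻¹) = 0 := by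
      have h2 : ((N + 1 : Ω)⁻¹) = algebraMap ℚ Ω ((N + 1 : ℚ)⁻¹) := by
        rw [map_inv₀, map_add, map_natCast, map_one]
      have h3 : E l ((N + 1 : Ω)⁻¹) * (N + 1 : Ω) = 0 := by
        have h4 : (N + 1 : Ω) ≠ 0 := Nat.cast_add_one_ne_zero N
        have h5 : E l ((N + 1 : Ω)⁻¹ * (N + 1 : Ω)) = 0 := by
          rw [inv_mul_cancel₀ h4, Derivation.map_one_eq_zero]
        have h6 : E l (N + 1 : Ω) = 0 := by
          rw [map_add, Derivation.map_one_eq_zero, Derivation.map_natCast, add_zero]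
        rw [Derivation.leibniz, h6, smul_zero, zero_add, smul_eq_mul] at h5
        rwa [mul_comm]
      exact (mul_eq_zero.1 h3).resolve_right (Nat.cast_add_one_ne_zero N)
    rw [th_succ, cd_mul, cd_C, h1, C_0, zero_mul, zero_add, cd_sum, th_succ]
    congr 1
    refine Finset.sum_congr rfl fun m _ => ?_
    rw [cd_mul, cd_X, zero_mul, zero_add, ih, hcomm]

/-- The `Ω`-space spanned by the Taylor series of the elements of `W`. -/
noncomputable def VW (E : Fin n → Derivation k Ω Ω) (W : Set Ω) :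
    Submodule Ω (PowerSeries (MvPolynomial (Fin n) Ω)) :=
  Submodule.span Ω (ser E '' W)

/-- the leading forms of the elements of `V` -/
def lead (V : Submodule Ω (PowerSeries (MvPolynomial (Fin n) Ω))) :
    Set (MvPolynomial (Fin n) Ω) :=
  {g | ∃ y ∈ V, ∃ N : ℕ, (∀ i < N, PowerSeries.coeff i y = 0) ∧ PowerSeries.coeff N y = g}

/-- the space of the leading forms -/
noncomputable def LS (E : Fin n → Derivation k Ω Ω) (W : Set Ω) :
    Submodule Ω (MvPolynomial (Fin n) Ω) :=
  Submodule.span Ω (lead (VW E W))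

variable {E : Fin n → Derivation k Ω Ω}

theorem hom_VW {W : Set Ω} {y : PowerSeries (MvPolynomial (Fin n) Ω)} (hy : y ∈ VW E W) (N : ℕ) :
    (PowerSeries.coeff N y).IsHomogeneous N := by
  induction hy using Submodule.span_induction with
  | mem x hx =>
    obtain ⟨a, -, rfl⟩ := hx
    rw [coeff_ser]
    exact th_hom E N _
  | zero =>
    rw [map_zero]
    exact isHomogeneous_zero _ _ _
  | add x y _ _ hx hy =>
    rw [map_add]
    exact hx.add hy
  | smul c x _ hx =>
    rw [coeff_smul', smul_eq_C_mul, ← zero_add N]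
    exact (isHomogeneous_C _ _).mul ((zero_add N).symm ▸ hx)

theorem lead_hom {W : Set Ω} {g : MvPolynomial (Fin n) Ω} (hg : g ∈ lead (VW E W)) :
    ∃ N, g.IsHomogeneous N := by
  obtain ⟨y, hy, N, -, rfl⟩ := hg
  exact ⟨N, hom_VW hy N⟩

theorem der_VW (hcomm : ∀ l m a, E l (E m a) = E m (E l a)) (l : Fin n) {W : Set Ω}
    {y : PowerSeries (MvPolynomial (Fin n) Ω)} (hy : y ∈ VW E W) :
    ∃ y' ∈ VW E W, ∃ z : PowerSeries (MvPolynomial (Fin n) Ω),
      (∀ i, pderiv l (PowerSeries.coeff (i + 1) y) = PowerSeries.coeff i z) ∧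
      (pderiv l (PowerSeries.coeff 0 y) = 0) ∧
      ∀ i, cd (E l) (PowerSeries.coeff i y) = PowerSeries.coeff i z + PowerSeries.coeff i y' := by
  induction hy using Submodule.span_induction with
  | mem x hx =>
    obtain ⟨a, -, rfl⟩ := hx
    refine ⟨0, Submodule.zero_mem _, ser E (E l a), fun i => ?_, ?_, fun i => ?_⟩
    · rw [coeff_ser, coeff_ser, th_pderiv E hcomm]
    · rw [coeff_ser, th_zero, pderiv_C]
    · rw [coeff_ser, coeff_ser, cd_th hcomm, map_zero, add_zero]
  | zero =>
    refine ⟨0, Submodule.zero_mem _, 0, fun i => ?_, ?_, fun i => ?_⟩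
    · rw [map_zero, map_zero, map_zero]
    · rw [map_zero, map_zero]
    · rw [map_zero, cd_zero, add_zero]
  | add x y _ _ hx hy =>
    obtain ⟨x', hx', z, h1, h2, h3⟩ := hx
    obtain ⟨y', hy', z', g1, g2, g3⟩ := hy
    refine ⟨x' + y', Submodule.add_mem _ hx' hy', z + z', fun i => ?_, ?_, fun i => ?_⟩
    · rw [map_add, map_add, map_add, h1, g1]
    · rw [map_add, map_add, h2, g2, add_zero]
    · rw [map_add, map_add, map_add, cd_add, h3, g3]
      ring
  | smul c x hxm hx =>
    obtain ⟨x', hx', z, h1, h2, h3⟩ := hx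
    refine ⟨c • x' + (E l c) • x, Submodule.add_mem _ (Submodule.smul_mem _ _ hx')
      (Submodule.smul_mem _ _ hxm), c • z, fun i => ?_, ?_, fun i => ?_⟩
    · rw [coeff_smul', coeff_smul', Derivation.map_smul, h1]
    · rw [coeff_smul', Derivation.map_smul, h2, smul_zero]
    · rw [map_add, coeff_smul', coeff_smul', coeff_smul', coeff_smul', smul_eq_C_mul, cd_mul, cd_C,
        h3, smul_eq_C_mul, smul_eq_C_mul, smul_eq_C_mul]
      ring

theorem LS_pderiv (hcomm : ∀ l m a, E l (E m a) = E m (E l a)) {W : Set Ω}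
    {g : MvPolynomial (Fin n) Ω} (hg : g ∈ LS E W) (l : Fin n) : pderiv l g ∈ LS E W := by
  induction hg using Submodule.span_induction with
  | mem x hx =>
    obtain ⟨y, hy, N, hN, rfl⟩ := hx
    obtain ⟨y', hy', z, h1, h2, h3⟩ := der_VW hcomm l hy
    rcases N with _ | N
    · rw [h2]
      exact Submodule.zero_mem _
    · have h4 : ∀ i ≤ N, PowerSeries.coeff i y' = - PowerSeries.coeff i z := by
        intro i hi
        have h5 := h3 i
        rw [hN i (by omega), cd_zero] at h5
        rw [eq_neg_iff_add_eq_zero, add_comm, ← h5]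
      rw [h1, ← neg_neg (PowerSeries.coeff N z), ← h4 N le_rfl]
      refine Submodule.neg_mem _ (Submodule.subset_span ⟨y', hy', N, fun i hi => ?_, rfl⟩)
      rw [h4 i hi.le, ← h1, hN (i + 1) (by omega), map_zero, neg_zero]
  | zero =>
    rw [map_zero]
    exact Submodule.zero_mem _
  | add x y _ _ hx hy =>
    rw [map_add]
    exact Submodule.add_mem _ hx hy
  | smul c x _ hx =>
    rw [Derivation.map_smul]
    exact Submodule.smul_mem _ _ hx

theorem LS_tr (hcomm : ∀ l m a, E l (E m a) = E m (E l a)) {W : Set Ω}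
    {g : MvPolynomial (Fin n) Ω} (hg : g ∈ LS E W) (c : Fin n → Ω) : tr c g ∈ LS E W :=
  tr_mem (fun _ hp i => LS_pderiv hcomm hp i) c hg

theorem LS_sc {W : Set Ω} {g : MvPolynomial (Fin n) Ω} (hg : g ∈ LS E W) (s : Ω) :
    sc s g ∈ LS E W :=
  sc_mem (fun _ hp => lead_hom hp) s hg

/-- products of leading forms -/
theorem coeff_mul_low {y y' : PowerSeries (MvPolynomial (Fin n) Ω)} {N N' : ℕ}
    (h : ∀ i < N, PowerSeries.coeff i y = 0) (h' : ∀ i < N', PowerSeries.coeff i y' = 0) {M : ℕ}
    (hM : M ≤ N + N') : PowerSeries.coeff M (y * y') =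
      if M = N + N' then PowerSeries.coeff N y * PowerSeries.coeff N' y' else 0 := by
  rw [PowerSeries.coeff_mul]
  split_ifs with hMN
  · rw [Finset.sum_eq_single (N, N')]
    · rintro ⟨i, j⟩ hij hne
      have h2 : i + j = M := Finset.HasAntidiagonal.mem_antidiagonal.1 hij
      rcases lt_trichotomy i N with h3 | h3 | h3
      · show PowerSeries.coeff i y * _ = 0
        rw [h i h3, zero_mul]
      · exact (hne (by rw [h3, show j = N' by omega])).elim
      · show _ * PowerSeries.coeff j y' = 0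
        rw [h' j (by omega), mul_zero]
    · intro h3
      exact (h3 (Finset.HasAntidiagonal.mem_antidiagonal.2 hMN.symm)).elim
  · refine Finset.sum_eq_zero ?_
    rintro ⟨i, j⟩ hij
    have h2 : i + j = M := Finset.HasAntidiagonal.mem_antidiagonal.1 hij
    rcases lt_or_ge i N with h3 | h3
    · show PowerSeries.coeff i y * _ = 0
      rw [h i h3, zero_mul]
    · show _ * PowerSeries.coeff j y' = 0
      rw [h' j (by omega), mul_zero]

theorem VW_mul {W W' : Set Ω} {y y' : PowerSeries (MvPolynomial (Fin n) Ω)} (hy : y ∈ VW E W)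
    (hy' : y' ∈ VW E W') : y * y' ∈ VW E (W * W') := by
  have h1 : VW E W * VW E W' ≤ VW E (W * W') := by
    unfold VW
    rw [Submodule.span_mul_span, Submodule.span_le]
    rintro _ ⟨_, ⟨a, ha, rfl⟩, _, ⟨b, hb, rfl⟩, rfl⟩
    refine Submodule.subset_span ⟨a * b, Set.mul_mem_mul ha hb, ?_⟩
    exact ser_mul E a b
  exact h1 (Submodule.mul_mem_mul hy hy')

theorem LS_mul {W W' : Set Ω} {g g' : MvPolynomial (Fin n) Ω} (hg : g ∈ LS E W)
    (hg' : g' ∈ LS E W') : g * g' ∈ LS E (W * W') := by
  have h1 : LS E W * LS E W' ≤ LS E (W * W') := by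
    unfold LS
    rw [Submodule.span_mul_span, Submodule.span_le]
    rintro _ ⟨_, ⟨y, hy, N, hN, rfl⟩, _, ⟨y', hy', N', hN', rfl⟩, rfl⟩
    refine Submodule.subset_span ⟨y * y', VW_mul hy hy', N + N', fun i hi => ?_, ?_⟩
    · rw [coeff_mul_low hN hN' hi.le, if_neg hi.ne]
    · rw [coeff_mul_low hN hN' le_rfl, if_pos rfl]
  exact h1 (Submodule.mul_mem_mul hg hg')

theorem LS_prod {W : Set Ω} {ι : Type*} (s : Finset ι) {g : ι → MvPolynomial (Fin n) Ω}
    (hg : ∀ i ∈ s, g i ∈ LS E W) : ∏ i ∈ s, g i ∈ LS E (W ^ s.card) := by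
  classical
  induction s using Finset.induction_on with
  | empty =>
    rw [Finset.prod_empty, Finset.card_empty, pow_zero]
    refine Submodule.subset_span ⟨1, Submodule.subset_span ⟨1, Set.mem_one.2 rfl, ser_one E⟩, 0,
      fun i hi => (Nat.not_lt_zero i hi).elim, ?_⟩
    rw [PowerSeries.coeff_one, if_pos rfl]
  | insert i s hi ih =>
    rw [Finset.prod_insert hi, Finset.card_insert_of_notMem hi, pow_succ']
    exact LS_mul (hg i (Finset.mem_insert_self _ _))
      (ih fun j hj => hg j (Finset.mem_insert_of_mem hj))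

/-- independent leading forms -/
theorem LS_indep (hcomm : ∀ l m a, E l (E m a) = E m (E l a))
    (hconst : ∀ a, (∀ l, E l a = 0) → ∃ c : k, algebraMap k Ω c = a) {W : Set Ω} {N : ℕ}
    {w : Fin N → Ω} (hw : LinearIndependent k w) (hwW : ∀ i, w i ∈ W) :
    ∃ g : Fin N → MvPolynomial (Fin n) Ω, (∀ i, g i ∈ LS E W) ∧ LinearIndependent Ω g := by
  classical
  let V : Submodule Ω (PowerSeries (MvPolynomial (Fin n) Ω)) :=
    Submodule.span Ω (Set.range fun i => ser E (w i))
  have hli : LinearIndependent Ω fun i => ser E (w i) := by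
    rw [Fintype.linearIndependent_iff]
    intro c hc
    refine th_indep E hcomm hconst hw fun N => ?_
    have h1 := congrArg (PowerSeries.coeff N) hc
    rw [map_sum, map_zero] at h1
    rw [← h1]
    refine Finset.sum_congr rfl fun i _ => ?_
    rw [coeff_smul', coeff_ser, smul_eq_C_mul]
  have hfdV : FiniteDimensional Ω V := FiniteDimensional.span_of_finite Ω (Set.finite_range _)
  have hrank : Module.finrank Ω V = N := by
    show Module.finrank Ω (Submodule.span Ω (Set.range fun i => ser E (w i))) = _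
    rw [finrank_span_eq_card hli, Fintype.card_fin]
  have hVV : V ≤ VW E W := by
    refine Submodule.span_le.2 ?_
    rintro _ ⟨i, rfl⟩
    exact Submodule.subset_span ⟨_, hwW i, rfl⟩
  have hg : (1 : Matrix (Fin n) (Fin n) Ω).det ≠ 0 := by
    rw [Matrix.det_one]
    exact one_ne_zero
  obtain ⟨y, hyV, hy0, hinj⟩ := Pool.Agent.H891.RG.exists_distinct_of (vl 1) V
    (fun w _ w' _ hw' h => leaf hg hw' h) N hrank.ge
  have hexinj : Function.Injective fun l => ex 1 (y l) := by
    intro l l' h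
    apply hinj
    have h' : ex 1 (y l) = ex 1 (y l') := h
    show vl 1 (y l) = vl 1 (y l')
    rw [vl_eq_iff (hy0 l) (hy0 l')]
    refine ⟨?_, h'⟩
    rw [← ex_degree hg (hy0 l) (hom_VW (hVV (hyV l)) _),
      ← ex_degree hg (hy0 l') (hom_VW (hVV (hyV l')) _), h']
  refine ⟨fun l => PowerSeries.coeff (od (y l)) (y l), fun l => Submodule.subset_span
    ⟨y l, hVV (hyV l), od (y l), fun i hi => coeff_lt_od hi, rfl⟩, ?_⟩
  rw [Fintype.linearIndependent_iff]
  intro c hc
  by_contra hcon
  push Not at hcon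
  obtain ⟨i₁, hi₁⟩ := hcon
  obtain ⟨i₀, hi₀, hmax⟩ := Finset.exists_max_image
    (Finset.univ.filter fun i => c i ≠ 0) (fun i => (lx n).toSyn (ex 1 (y i)))
    ⟨i₁, Finset.mem_filter.2 ⟨Finset.mem_univ _, hi₁⟩⟩
  have hi₀' := (Finset.mem_filter.1 hi₀).2
  have h1 := congrArg (coeff (ex 1 (y i₀))) hc
  rw [coeff_zero, coeff_sum, Finset.sum_eq_single i₀] at h1
  · have h2 : coeff (ex 1 (y i₀)) (PowerSeries.coeff (od (y i₀)) (y i₀)) ≠ 0 := by
      have h3 := cf_ne hg (hy0 i₀)
      unfold cf at h3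
      rwa [sb_one] at h3
    rw [coeff_smul, smul_eq_mul] at h1
    rcases mul_eq_zero.1 h1 with h3 | h3
    · exact hi₀' h3
    · exact h2 h3
  · intro i _ hi
    rw [coeff_smul, smul_eq_mul]
    by_cases hci : c i = 0
    · rw [hci, zero_mul]
    · have h2 := hmax i (Finset.mem_filter.2 ⟨Finset.mem_univ _, hci⟩)
      have h3 : (lx n).toSyn (ex 1 (y i)) < (lx n).toSyn (ex 1 (y i₀)) := by
        refine lt_of_le_of_ne h2 fun h => hi (hexinj ((lx n).toSyn.injective h))
      have h4 : cf 1 (od (y i)) (ex 1 (y i₀)) (y i) = 0 := cf_gt h3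
      unfold cf at h4
      rw [sb_one] at h4
      rw [h4, mul_zero]
  · intro h
    exact (h (Finset.mem_univ _)).elim

end

end Pool.Agent.H891.BL
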