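import Pool.Agent.H891.BL.Cert

/-! Certificates exist if the Brascamp-Lieb condition is satisfied. -/

set_option autoImplicit false
set_option linter.unusedSectionVars false

namespace Pool.Agent.H891.BL

section

variable {F T : Type*} [Field F] [AddCommGroup T] [Module F T] [FiniteDimensional F T]
  {ι : Type*} [Fintype ι] (Ts : ι → Submodule F T)

/-- the dimension, as a rational number -/
noncomputable def dm (U : Submodule F T) : ℚ := Module.finrank F U

/-- the slack of the condition for `U` -/
noncomputable def slack (C : Submodule F T) (p : ι → ℚ) (U : Submodule F T) : ℚ :=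
  ∑ i, p i * (dm (Ts i ⊓ C) - dm (Ts i ⊓ U)) - (dm C - dm U)

/-- the Brascamp-Lieb condition -/
def BLc (A C : Submodule F T) (p : ι → ℚ) : Prop :=
  ∀ U, A ≤ U → U ≤ C → 0 ≤ slack Ts C p U

/-- `p` is certified. -/
def Has (A C : Submodule F T) (p : ι → ℚ) : Prop :=
  ∃ (m : ι → ℕ) (D : ℕ), 0 < D ∧ (∀ i, (m i : ℚ) ≤ D * p i) ∧ Cert Ts m D A C

variable {Ts}

theorem dm_mono {U U' : Submodule F T} (h : U ≤ U') : dm U ≤ dm U' := by
  unfold dm
  exact_mod_cast Submodule.finrank_mono h

theorem Has.mono {A C : Submodule F T} {p p' : ι → ℚ} (h : Has Ts A C p) (hp : ∀ i, p i ≤ p' i) :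
    Has Ts A C p' := by
  obtain ⟨m, D, hD, hm, hc⟩ := h
  exact ⟨m, D, hD, fun i => (hm i).trans (mul_le_mul_of_nonneg_left (hp i) (Nat.cast_nonneg D)), hc⟩

theorem Has.convex {A C : Submodule F T} {p p' : ι → ℚ} (h : Has Ts A C p) (h' : Has Ts A C p')
    {a b : ℚ} (ha : 0 ≤ a) (hb : 0 ≤ b) (hab : a + b = 1) :
    Has Ts A C fun i => a * p i + b * p' i := by
  obtain ⟨m, D, hD, hm, hc⟩ := h
  obtain ⟨m', D', hD', hm', hc'⟩ := h'
  -- common denominator
  obtain ⟨u, v, w, hw, hau, hbv⟩ : ∃ u v w : ℕ, 0 < w ∧ a * w = u ∧ b * w = v := by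
    refine ⟨(a.num * b.den).toNat, (b.num * a.den).toNat, a.den * b.den,
      Nat.mul_pos a.den_pos b.den_pos, ?_, ?_⟩
    · have h1 : 0 ≤ a.num * b.den := mul_nonneg (Rat.num_nonneg.2 ha) (Int.natCast_nonneg _)
      have h2 : (((a.num * b.den).toNat : ℕ) : ℚ) = ((a.num * b.den : ℤ) : ℚ) := by
        exact_mod_cast congrArg (fun z : ℤ => (z : ℚ)) (Int.toNat_of_nonneg h1)
      rw [h2]
      have h3 : a * a.den = a.num := Rat.mul_den_eq_num a
      push_cast
      rw [← h3]
      ring
    · have h1 : 0 ≤ b.num * a.den := mul_nonneg (Rat.num_nonneg.2 hb) (Int.natCast_nonneg _)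
      have h2 : (((b.num * a.den).toNat : ℕ) : ℚ) = ((b.num * a.den : ℤ) : ℚ) := by
        exact_mod_cast congrArg (fun z : ℤ => (z : ℚ)) (Int.toNat_of_nonneg h1)
      rw [h2]
      have h3 : b * b.den = b.num := Rat.mul_den_eq_num b
      push_cast
      rw [← h3]
      ring
  have huv : (u : ℚ) + v = w := by
    rw [← hau, ← hbv, ← add_mul, hab, one_mul]
  have huv' : u + v = w := by exact_mod_cast huv
  refine ⟨fun i => (u * D') * m i + (v * D) * m' i, w * (D * D'),
    Nat.mul_pos hw (Nat.mul_pos hD hD'), fun i => ?_, ?_⟩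
  · have h1 := mul_le_mul_of_nonneg_left (hm i) (by positivity : (0 : ℚ) ≤ u * D')
    have h2 := mul_le_mul_of_nonneg_left (hm' i) (by positivity : (0 : ℚ) ≤ v * D)
    push_cast
    calc (u : ℚ) * D' * m i + v * D * m' i ≤ u * D' * (D * p i) + v * D * (D' * p' i) :=
          add_le_add h1 h2
      _ = w * (D * D') * (a * p i + b * p' i) := by
          rw [← hau, ← hbv]
          ring
  · have h1 := cert_add (cert_smul hc (u * D')) (cert_smul hc' (v * D))
    have h2 : u * D' * D + v * D * D' = w * (D * D') := by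
      rw [← huv']
      ring
    rwa [h2] at h1

theorem Has.ext [Infinite F] {A U C : Submodule F T} (hAU : A ≤ U) (hUC : U ≤ C) {p : ι → ℚ}
    (h : Has Ts A U p) (h' : Has Ts U C p) : Has Ts A C p := by
  obtain ⟨m, D, hD, hm, hc⟩ := h
  obtain ⟨m', D', hD', hm', hc'⟩ := h'
  refine ⟨fun i => max (D' * m i) (D * m' i), D * D', Nat.mul_pos hD hD', fun i => ?_, ?_⟩
  · have h1 := mul_le_mul_of_nonneg_left (hm i) (Nat.cast_nonneg (α := ℚ) D')
    have h2 := mul_le_mul_of_nonneg_left (hm' i) (Nat.cast_nonneg (α := ℚ) D)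
    push_cast
    rw [max_le_iff]
    constructor
    · calc (D' : ℚ) * m i ≤ D' * (D * p i) := h1
        _ = D * D' * p i := by ring
    · calc (D : ℚ) * m' i ≤ D * (D' * p i) := h2
        _ = D * D' * p i := by ring
  · have h1 := cert_mono (m' := fun i => max (D' * m i) (D * m' i)) (fun i => le_max_left _ _)
      (cert_smul hc D')
    have h2 := cert_mono (m' := fun i => max (D' * m i) (D * m' i)) (fun i => le_max_right _ _)
      (cert_smul hc' D)
    rw [mul_comm D' D] at h1
    exact cert_ext hAU hUC h1 h2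

theorem has_trivial {A C : Submodule F T} (h : C ≤ A) {p : ι → ℚ} (hp : ∀ i, 0 ≤ p i) :
    Has Ts A C p := by
  refine ⟨fun _ => 0, 1, one_pos, fun i => ?_, ⟨fun _ _ => 0, fun z hz =>
    ⟨fun _ => 0, fun _ => Submodule.zero_mem _, fun l => ?_⟩⟩⟩
  · rw [Nat.cast_zero, Nat.cast_one, one_mul]
    exact hp i
  · rw [Finset.sum_eq_zero (fun q _ => smul_zero _), sub_zero]
    exact h (hz l)

theorem has_one {A C : Submodule F T} (i : ι) (h : C ≤ (Ts i ⊓ C) ⊔ A) {p : ι → ℚ}
    (hp : ∀ i, 0 ≤ p i) (hi : 1 ≤ p i) : Has Ts A C p := by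
  classical
  refine ⟨fun j => if j = i then 1 else 0, 1, one_pos, fun j => ?_, ?_⟩
  · rw [Nat.cast_one, one_mul]
    show ((if j = i then 1 else 0 : ℕ) : ℚ) ≤ p j
    split_ifs with hj
    · rw [hj, Nat.cast_one]
      exact hi
    · rw [Nat.cast_zero]
      exact hp j
  · have hg : Good Ts (fun _ : Unit => i) (fun (_ : Unit) (_ : Unit) => (1 : F)) A C := by
      intro z hz
      obtain ⟨t, ht, a, ha, hta⟩ := Submodule.mem_sup.1 (h (hz ()))
      refine ⟨fun _ => t, fun _ => ht, fun l => ?_⟩
      rw [Fintype.sum_unique, one_smul]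
      have h1 : z l = t + a := hta.symm
      rw [h1, add_sub_cancel_left]
      exact ha
    refine cert_of hg Fintype.card_unit fun j => ?_
    split_ifs with hj
    · subst hj
      rw [Nat.card_eq_fintype_card]
      exact (Fintype.card_subtype_le _).trans Fintype.card_unit.le
    · have : IsEmpty {q : Unit // (fun _ : Unit => i) q = j} := ⟨fun q => hj q.2.symm⟩
      rw [Nat.card_of_isEmpty]

/-- the slope of the slack in the direction `δ` -/
theorem slack_add (C : Submodule F T) (p δ : ι → ℚ) (t : ℚ) (U : Submodule F T) :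
    slack Ts C (fun i => p i + t * δ i) U = slack Ts C p U +
      t * ∑ i, δ i * (dm (Ts i ⊓ C) - dm (Ts i ⊓ U)) := by
  unfold slack
  have h1 : ∑ i, (p i + t * δ i) * (dm (Ts i ⊓ C) - dm (Ts i ⊓ U)) =
      ∑ i, p i * (dm (Ts i ⊓ C) - dm (Ts i ⊓ U)) +
        t * ∑ i, δ i * (dm (Ts i ⊓ C) - dm (Ts i ⊓ U)) := by
    rw [Finset.mul_sum, ← Finset.sum_add_distrib]
    exact Finset.sum_congr rfl fun i _ => by ring
  rw [h1]
  ring

/-- moving in the direction `δ` -/
theorem move {A C : Submodule F T} {p : ι → ℚ} (hp : ∀ i, 0 ≤ p i)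
    (hBL : BLc Ts A C p) (δ : ι → ℚ) {i₀ : ι} (hi₀ : δ i₀ < 0) :
    ∃ t : ℚ, 0 ≤ t ∧ (∀ i, 0 ≤ p i + t * δ i) ∧ BLc Ts A C (fun i => p i + t * δ i) ∧
      ((∃ i, δ i < 0 ∧ p i + t * δ i = 0) ∨ ∃ U, A ≤ U ∧ U ≤ C ∧
        slack Ts C (fun i => p i + t * δ i) U = 0 ∧
        ∑ i, δ i * (dm (Ts i ⊓ C) - dm (Ts i ⊓ U)) < 0) := by
  classical
  let slope : Submodule F T → ℚ := fun U => ∑ i, δ i * (dm (Ts i ⊓ C) - dm (Ts i ⊓ U))
  let S₁ : Set ℚ := {t | ∃ i, δ i < 0 ∧ t = p i / (- δ i)}
  let S₂ : Set ℚ := {t | ∃ U, A ≤ U ∧ U ≤ C ∧ slope U < 0 ∧ t = slack Ts C p U / (- slope U)}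
  have hfin₁ : S₁.Finite := by
    refine (Set.finite_range fun i => p i / (- δ i)).subset ?_
    rintro t ⟨i, -, rfl⟩
    exact ⟨i, rfl⟩
  have hfin₂ : S₂.Finite := by
    let M := Module.finrank F T
    let G : Fin (M + 1) × (ι → Fin (M + 1)) → ℚ := fun v =>
      (∑ i, p i * (dm (Ts i ⊓ C) - ((v.2 i : ℕ) : ℚ)) - (dm C - ((v.1 : ℕ) : ℚ))) /
        (- ∑ i, δ i * (dm (Ts i ⊓ C) - ((v.2 i : ℕ) : ℚ)))
    refine (Set.finite_range G).subset ?_
    rintro t ⟨U, -, -, -, rfl⟩
    exact ⟨(⟨Module.finrank F U, Nat.lt_succ_of_le (Submodule.finrank_le _)⟩, fun i =>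
      ⟨Module.finrank F (Ts i ⊓ U : Submodule F T), Nat.lt_succ_of_le (Submodule.finrank_le _)⟩),
      rfl⟩
  have hne : (S₁ ∪ S₂).Nonempty := ⟨_, Or.inl ⟨i₀, hi₀, rfl⟩⟩
  obtain ⟨t, ht, hmin⟩ := Set.exists_min_image (S₁ ∪ S₂) id (hfin₁.union hfin₂) hne
  have ht0 : 0 ≤ t := by
    rcases ht with ⟨i, hi, rfl⟩ | ⟨U, hAU, hUC, hs, rfl⟩
    · exact div_nonneg (hp i) (by linarith)
    · exact div_nonneg (hBL U hAU hUC) (by linarith)
  refine ⟨t, ht0, fun i => ?_, fun U hAU hUC => ?_, ?_⟩
  · rcases lt_or_ge (δ i) 0 with hi | hi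
    · have h1 : t ≤ p i / (- δ i) := hmin _ (Or.inl ⟨i, hi, rfl⟩)
      rw [le_div_iff₀ (by linarith)] at h1
      linarith
    · have h1 := mul_nonneg ht0 hi
      linarith [hp i]
  · rw [slack_add]
    rcases lt_or_ge (slope U) 0 with hs | hs
    · have h1 : t ≤ slack Ts C p U / (- slope U) := hmin _ (Or.inr ⟨U, hAU, hUC, hs, rfl⟩)
      rw [le_div_iff₀ (by linarith)] at h1
      have h2 : slope U = ∑ i, δ i * (dm (Ts i ⊓ C) - dm (Ts i ⊓ U)) := rfl
      rw [← h2]
      linarith
    · have h1 := mul_nonneg ht0 hs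
      have h2 : slope U = ∑ i, δ i * (dm (Ts i ⊓ C) - dm (Ts i ⊓ U)) := rfl
      rw [← h2]
      linarith [hBL U hAU hUC]
  · rcases ht with ⟨i, hi, rfl⟩ | ⟨U, hAU, hUC, hs, rfl⟩
    · left
      refine ⟨i, hi, ?_⟩
      have h1 : δ i ≠ 0 := hi.ne
      field_simp
      ring
    · right
      refine ⟨U, hAU, hUC, ?_, hs⟩
      rw [slack_add]
      have h1 : slope U ≠ 0 := hs.ne
      have h2 : slope U = ∑ i, δ i * (dm (Ts i ⊓ C) - dm (Ts i ⊓ U)) := rfl
      rw [← h2]
      field_simp
      ring

theorem BLc.lower {A U C : Submodule F T} (hUC : U ≤ C) {p : ι → ℚ}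
    (hBL : BLc Ts A C p) (h0 : slack Ts C p U = 0) : BLc Ts A U p := by
  intro U' hAU' hU'U
  have h1 := hBL U' hAU' (hU'U.trans hUC)
  have h2 : slack Ts U p U' = slack Ts C p U' - slack Ts C p U := by
    unfold slack
    have h3 : ∑ i, p i * (dm (Ts i ⊓ C) - dm (Ts i ⊓ U')) -
        ∑ i, p i * (dm (Ts i ⊓ C) - dm (Ts i ⊓ U)) =
        ∑ i, p i * (dm (Ts i ⊓ U) - dm (Ts i ⊓ U')) := by
      rw [← Finset.sum_sub_distrib]
      exact Finset.sum_congr rfl fun i _ => by ring
    rw [← h3]
    ring
  rw [h2, h0, sub_zero]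
  exact h1

theorem BLc.upper {A U C : Submodule F T} (hAU : A ≤ U) {p : ι → ℚ}
    (hBL : BLc Ts A C p) : BLc Ts U C p := fun U' hU hU' => hBL U' (hAU.trans hU) hU'

/-- **Certificates exist.** -/
theorem has_of_BL [Infinite F] : ∀ n : ℕ, ∀ A C : Submodule F T, A ≤ C →
    Module.finrank F C = Module.finrank F A + n → ∀ p : ι → ℚ, (∀ i, 0 ≤ p i) → BLc Ts A C p →
      Has Ts A C p := by
  classical
  intro n
  induction n using Nat.strong_induction_on with
  | _ n IH =>
  intro A C hAC hn
  -- a proper critical subspace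
  have caseA : ∀ p : ι → ℚ, (∀ i, 0 ≤ p i) → BLc Ts A C p → ∀ U, A ≤ U → U ≤ C → U ≠ A → U ≠ C →
      slack Ts C p U = 0 → Has Ts A C p := by
    intro p hp hBL U hAU hUC hUA hUC' h0
    have h1 : Module.finrank F A < Module.finrank F U :=
      Submodule.finrank_lt_finrank_of_lt (lt_of_le_of_ne hAU (Ne.symm hUA))
    have h2 : Module.finrank F U < Module.finrank F C :=
      Submodule.finrank_lt_finrank_of_lt (lt_of_le_of_ne hUC hUC')
    exact (IH (Module.finrank F U - Module.finrank F A) (by omega) A U hAU (by omega) p hp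
      (hBL.lower hUC h0)).ext hAU hUC (IH (Module.finrank F C - Module.finrank F U) (by omega) U C
        hUC (by omega) p hp (hBL.upper hAU))
  rcases Nat.eq_zero_or_pos n with hn0 | hnpos
  · intro p hp _
    have h1 : A = C := Submodule.eq_of_le_of_finrank_eq hAC (by omega)
    exact has_trivial h1.ge hp
  have hAC' : A ≠ C := by
    rintro rfl
    omega
  have hdim : dm C - dm A = n := by
    unfold dm
    rw [hn]
    push_cast
    ring
  have hnQ : (0 : ℚ) < n := Nat.cast_pos.2 hnpos
  have key : ∀ s : ℕ, ∀ p : ι → ℚ, (∀ i, 0 ≤ p i) → BLc Ts A C p →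
      (Finset.univ.filter fun i => p i ≠ 0).card ≤ s → Has Ts A C p := by
    intro s
    induction s with
    | zero =>
      intro p hp hBL hs
      exfalso
      have h1 : ∀ i, p i = 0 := by
        intro i
        by_contra h
        have h2 : i ∈ (Finset.univ.filter fun i => p i ≠ 0) :=
          Finset.mem_filter.2 ⟨Finset.mem_univ _, h⟩
        rw [Finset.card_eq_zero.1 (Nat.le_zero.1 hs)] at h2
        exact absurd h2 (Finset.notMem_empty _)
      have h2 := hBL A le_rfl hAC
      unfold slack at h2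
      rw [Finset.sum_eq_zero (fun i _ => by rw [h1 i, zero_mul]), hdim] at h2
      linarith
    | succ s ih =>
      intro p hp hBL hs
      -- removing an element of the support
      have hdrop : ∀ (p' : ι → ℚ), (∀ i, 0 ≤ p' i) → BLc Ts A C p' →
          (∀ i, p i = 0 → p' i = 0) → (∃ i, p i ≠ 0 ∧ p' i = 0) → Has Ts A C p' := by
        intro p' hp' hBL' hsub ⟨i, hi, hi'⟩
        refine ih p' hp' hBL' ?_
        have h1 : (Finset.univ.filter fun i => p' i ≠ 0) ⊆
            (Finset.univ.filter fun i => p i ≠ 0).erase i := by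
          intro j hj
          have hj' := (Finset.mem_filter.1 hj).2
          rw [Finset.mem_erase]
          refine ⟨fun h => hj' (h ▸ hi'), Finset.mem_filter.2 ⟨Finset.mem_univ _, fun h =>
            hj' (hsub j h)⟩⟩
        have h2 := Finset.card_le_card h1
        have h3 := Finset.card_erase_add_one
          (Finset.mem_filter.2 ⟨Finset.mem_univ i, hi⟩ : i ∈ Finset.univ.filter fun i => p i ≠ 0)
        omega
      by_cases hne : ∃ i, p i ≠ 0
      swap
      · push Not at hne
        refine ih p hp hBL ?_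
        rw [Finset.filter_false_of_mem (fun i _ h => h (hne i)), Finset.card_empty]
        exact Nat.zero_le _
      obtain ⟨i, hi⟩ := hne
      have hi0 : 0 < p i := lt_of_le_of_ne (hp i) (Ne.symm hi)
      -- decrease `p i`
      obtain ⟨t, ht, hp₁, hBL₁, hor⟩ := move hp hBL (fun j => if j = i then -1 else 0) (i₀ := i)
        (by rw [if_pos rfl]; norm_num)
      set p₁ : ι → ℚ := fun j => p j + t * (if j = i then -1 else 0) with hp₁def
      have hp₁le : ∀ j, p₁ j ≤ p j := by
        intro j
        show p j + t * (if j = i then -1 else 0) ≤ p j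
        split_ifs
        · linarith
        · linarith
      have hp₁ne : ∀ j, j ≠ i → p₁ j = p j := by
        intro j hj
        show p j + t * (if j = i then -1 else 0) = p j
        rw [if_neg hj, mul_zero, add_zero]
      have hp₁sub : ∀ j, p j = 0 → p₁ j = 0 := by
        intro j hj
        have hji : j ≠ i := by
          rintro rfl
          exact hi hj
        rw [hp₁ne j hji, hj]
      refine Has.mono ?_ hp₁le
      by_cases hpi : p₁ i = 0
      · exact hdrop p₁ hp₁ hBL₁ hp₁sub ⟨i, hi, hpi⟩
      have hpi0 : 0 < p₁ i := lt_of_le_of_ne (hp₁ i) (Ne.symm hpi)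
      rcases hor with ⟨j, hj, hj0⟩ | ⟨U, hAU, hUC, hU0, hUs⟩
      · exfalso
        have hji : j = i := by
          by_contra h
          rw [if_neg h] at hj
          exact lt_irrefl _ hj
        subst hji
        exact hpi hj0
      have hslope : ∑ j, (if j = i then (-1 : ℚ) else 0) * (dm (Ts j ⊓ C) - dm (Ts j ⊓ U)) =
          - (dm (Ts i ⊓ C) - dm (Ts i ⊓ U)) := by
        rw [Finset.sum_eq_single i]
        · rw [if_pos rfl]
          ring
        · intro j _ hj
          rw [if_neg hj, zero_mul]
        · intro h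
          exact (h (Finset.mem_univ _)).elim
      rw [hslope] at hUs
      have hUC' : U ≠ C := by
        rintro rfl
        rw [sub_self, neg_zero] at hUs
        exact lt_irrefl _ hUs
      by_cases hUA : U ≠ A
      · exact caseA p₁ hp₁ hBL₁ U hAU hUC hUA hUC' hU0
      push Not at hUA
      subst hUA
      -- the scaling case
      let f : ι → ℚ := fun j => dm (Ts j ⊓ C) - dm (Ts j ⊓ U)
      have hfi : 0 < f i := by
        show 0 < dm (Ts i ⊓ C) - dm (Ts i ⊓ U)
        linarith
      have hf0 : ∀ j, 0 ≤ f j := fun j => sub_nonneg.2 (dm_mono (inf_le_inf_left _ hUC))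
      by_cases hj : ∃ j, j ≠ i ∧ p₁ j ≠ 0
      · obtain ⟨j, hji, hpj⟩ := hj
        rcases (hf0 j).lt_or_eq with hfj | hfj
        · -- two moves
          have side : ∀ δ : ι → ℚ, (∀ l, l ≠ i → l ≠ j → δ l = 0) →
              (∃ l, δ l < 0) → ∑ l, δ l * f l = 0 → ∃ t : ℚ, 0 ≤ t ∧
                Has Ts U C (fun l => p₁ l + t * δ l) := by
            intro δ hδ ⟨l₀, hl₀⟩ hδ0
            obtain ⟨t, ht, h1, h2, h3⟩ := move hp₁ hBL₁ δ hl₀
            refine ⟨t, ht, ?_⟩
            rcases h3 with ⟨l, hl, hl0⟩ | ⟨U', hUU', hU'C, hU'0, hU's⟩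
            · have hlor : l = i ∨ l = j := by
                by_contra hcon
                push Not at hcon
                rw [hδ l hcon.1 hcon.2] at hl
                exact lt_irrefl _ hl
              refine hdrop _ h1 h2 (fun l' hl' => ?_) ⟨l, ?_, hl0⟩
              · have h4 : l' ≠ i := by
                  rintro rfl
                  exact hi hl'
                have h5 : l' ≠ j := by
                  rintro rfl
                  exact hpj (hp₁sub _ hl')
                rw [hδ l' h4 h5, mul_zero, add_zero, hp₁sub l' hl']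
              · rcases hlor with rfl | rfl
                · exact hi
                · intro h
                  exact hpj (hp₁sub _ h)
            · refine caseA _ h1 h2 U' hUU' hU'C ?_ ?_ hU'0
              · rintro rfl
                have h4 : ∑ l, δ l * (dm (Ts l ⊓ C) - dm (Ts l ⊓ U')) = 0 := hδ0
                rw [h4] at hU's
                exact lt_irrefl _ hU's
              · rintro rfl
                have h4 : ∑ l, δ l * (dm (Ts l ⊓ U') - dm (Ts l ⊓ U')) = 0 :=
                  Finset.sum_eq_zero fun l _ => by rw [sub_self, mul_zero]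
                rw [h4] at hU's
                exact lt_irrefl _ hU's
          let δ : ι → ℚ := fun l => if l = i then f j else if l = j then - f i else 0
          have hδi : δ i = f j := if_pos rfl
          have hδj : δ j = - f i := by
            show (if j = i then f j else if j = j then - f i else 0) = _
            rw [if_neg hji, if_pos rfl]
          have hδ : ∀ l, l ≠ i → l ≠ j → δ l = 0 := by
            intro l h1 h2
            show (if l = i then f j else if l = j then - f i else 0) = _
            rw [if_neg h1, if_neg h2]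
          have hδs : ∑ l, δ l * f l = 0 := by
            rw [← Finset.add_sum_erase _ _ (Finset.mem_univ i),
              ← Finset.add_sum_erase _ _ (Finset.mem_erase.2 ⟨hji, Finset.mem_univ j⟩),
              Finset.sum_eq_zero, hδi, hδj]
            · ring
            · intro l hl
              rw [Finset.mem_erase, Finset.mem_erase] at hl
              rw [hδ l hl.2.1 hl.1, zero_mul]
          obtain ⟨t₁, ht₁, hh₁⟩ := side δ hδ ⟨j, by rw [hδj]; linarith⟩ hδs
          obtain ⟨t₂, ht₂, hh₂⟩ := side (fun l => - δ l) (fun l h1 h2 => by rw [hδ l h1 h2, neg_zero])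
            ⟨i, by rw [hδi]; linarith⟩ (by
              simp only [neg_mul, Finset.sum_neg_distrib]
              rw [hδs, neg_zero])
          rcases (add_nonneg ht₁ ht₂).lt_or_eq with hpos | hz
          · have h4 := hh₁.convex hh₂ (a := t₂ / (t₁ + t₂)) (b := t₁ / (t₁ + t₂))
              (div_nonneg ht₂ hpos.le) (div_nonneg ht₁ hpos.le) (by
                rw [← add_div, add_comm, div_self hpos.ne'])
            refine h4.mono fun l => le_of_eq ?_
            have h5 := hpos.ne'
            field_simp
            ring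
          · have h4 : t₁ = 0 := by linarith
            rw [h4] at hh₁
            simpa only [zero_mul, add_zero] using hh₁
        · -- useless index
          have hcongr : ∀ U', U ≤ U' → U' ≤ C → dm (Ts j ⊓ C) - dm (Ts j ⊓ U') = 0 := by
            intro U' h1 h2
            have h3 : dm (Ts j ⊓ U) ≤ dm (Ts j ⊓ U') := dm_mono (inf_le_inf_left _ h1)
            have h4 : dm (Ts j ⊓ U') ≤ dm (Ts j ⊓ C) := dm_mono (inf_le_inf_left _ h2)
            have h5 : dm (Ts j ⊓ C) - dm (Ts j ⊓ U) = 0 := hfj.symm
            linarith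
          have h6 : Has Ts U C (fun l => if l = j then 0 else p₁ l) := by
            refine hdrop _ (fun l => ?_) (fun U' h1 h2 => ?_) (fun l hl => ?_) ⟨j, ?_, if_pos rfl⟩
            · split_ifs
              · exact le_rfl
              · exact hp₁ l
            · have h3 := hBL₁ U' h1 h2
              have h4 : slack Ts C (fun l => if l = j then 0 else p₁ l) U' = slack Ts C p₁ U' := by
                unfold slack
                congr 1
                refine Finset.sum_congr rfl fun l _ => ?_
                by_cases hl : l = j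
                · subst hl
                  rw [hcongr U' h1 h2, mul_zero, mul_zero]
                · show (if l = j then 0 else p₁ l) * _ = _
                  rw [if_neg hl]
              rw [h4]
              exact h3
            · split_ifs
              · rfl
              · exact hp₁sub l hl
            · intro h
              exact hpj (hp₁sub _ h)
          refine h6.mono fun l => ?_
          split_ifs
          · exact hp₁ l
          · exact le_rfl
      · -- only one index
        push Not at hj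
        have hsum : ∀ U', slack Ts C p₁ U' = p₁ i * (dm (Ts i ⊓ C) - dm (Ts i ⊓ U')) -
            (dm C - dm U') := by
          intro U'
          unfold slack
          rw [Finset.sum_eq_single i]
          · intro j _ hji
            rw [hj j hji, zero_mul]
          · intro h
            exact (h (Finset.mem_univ _)).elim
        rw [hsum] at hU0
        have h1 := hBL₁ ((Ts i ⊓ C) ⊔ U) le_sup_right (sup_le inf_le_right hUC)
        rw [hsum] at h1
        have h2 : dm (Ts i ⊓ C) ≤ dm (Ts i ⊓ ((Ts i ⊓ C) ⊔ U)) :=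
          dm_mono (le_inf inf_le_left le_sup_left)
        have h3 : p₁ i * (dm (Ts i ⊓ C) - dm (Ts i ⊓ ((Ts i ⊓ C) ⊔ U))) ≤ 0 :=
          mul_nonpos_of_nonneg_of_nonpos hpi0.le (by linarith)
        have h4 : dm C ≤ dm ((Ts i ⊓ C) ⊔ U) := by linarith
        have h5 : (Ts i ⊓ C) ⊔ U = C := by
          refine Submodule.eq_of_le_of_finrank_le (sup_le inf_le_right hUC) ?_
          unfold dm at h4
          exact_mod_cast h4
        have h6 : dm (Ts i ⊓ C) - dm (Ts i ⊓ U) = n := by
          rw [← hdim]
          have h7 := Submodule.finrank_sup_add_finrank_inf_eq (Ts i ⊓ C) U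
          have h8 : (Ts i ⊓ C) ⊓ U = Ts i ⊓ U := by
            rw [inf_assoc, inf_eq_right.2 hUC]
          rw [h8, h5] at h7
          unfold dm
          have h9 : (Module.finrank F C : ℚ) + Module.finrank F (Ts i ⊓ U : Submodule F T) =
              Module.finrank F (Ts i ⊓ C : Submodule F T) + Module.finrank F U := by
            exact_mod_cast h7
          linarith
        have h7 : p₁ i = 1 := by
          rw [h6, hdim] at hU0
          have h8 : (p₁ i - 1) * n = 0 := by linarith
          rcases mul_eq_zero.1 h8 with h9 | h9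
          · linarith
          · exact absurd h9 hnQ.ne'
        exact has_one i h5.ge hp₁ h7.ge
  exact fun p hp hBL => key _ p hp hBL le_rfl

end

end Pool.Agent.H891.BL
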