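import Pool.Agent.H891.RF.Eq
import Pool.Agent.H891.BL.Poly

/-! Dimensions of the tangent spaces; transport of the Brascamp-Lieb condition. -/

set_option autoImplicit false
set_option linter.overlappingInstances false
set_option linter.unusedSectionVars false

open FF IntermediateField Algebra Pool.Agent.W619.PQ Pool.Agent.W619.PL Pool.Agent.W619.TW
  Pool.Agent.W603.LV Pool.Agent.W619.Y Pool.Agent.Y174 Pool.Agent.Y173.QA Pool.Agent.H891.KS
  Pool.Agent.H891.TY Pool.Agent.H891.RF

namespace Pool.Agent.H891.BL

section

variable {k : Type} {K : Type} [Field k] [Field K] [Algebra k K]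

/-- **The Brascamp-Lieb condition** for the tangent spaces `T j` of the general members `F j` of the
covering families given by `B j`, with the weights `c j / d`: for each subspace `U` of the tangent
space `T` of the variety at the general point

`codim (U, T) ≤ ∑ (c j / d) codim (U ∩ T j, T j)`. -/
def BLCond (n : ℕ) {r : ℕ} (B : Fin r → IntermediateField k (AlgebraicClosure K))
    (f : Fin r → ℕ) (c : Fin r → ℕ) (d : ℕ) : Prop :=
  ∀ U : Submodule (AlgebraicClosure K)
      (Derivation k (AlgebraicClosure K) (AlgebraicClosure K)),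
    d * n + ∑ j, c j * Module.finrank (AlgebraicClosure K) (U ⊓ Tan (B j) : Submodule _ _) ≤
      d * Module.finrank (AlgebraicClosure K) U + ∑ j, c j * f j

variable [CharZero k]

/-- the derivations as vectors -/
noncomputable def vec {n : ℕ} {x : Fin n → AlgebraicClosure K} (hx : IsTranscendenceBasis k x)
    {G : Fin n → Derivation k (AlgebraicClosure K) (AlgebraicClosure K)}
    (hG : ∀ i j, G i (x j) = if i = j then 1 else 0) :
    Derivation k (AlgebraicClosure K) (AlgebraicClosure K) ≃ₗ[AlgebraicClosure K]
      (Fin n → AlgebraicClosure K) where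
  toFun D := fun l => D (x l)
  invFun a := ∑ l, a l • G l
  map_add' D D' := rfl
  map_smul' c D := rfl
  left_inv D := (der_expand hx hG D).symm
  right_inv a := by
    funext i
    show (∑ l, a l • G l) (x i) = a i
    rw [Pool.Agent.W721.PG.EFF2.der_sum, Finset.sum_eq_single i]
    · rw [hG, if_pos rfl, mul_one]
    · intro l _ hl
      rw [hG, if_neg hl, mul_zero]
    · intro h
      exact (h (Finset.mem_univ _)).elim

theorem vec_apply {n : ℕ} {x : Fin n → AlgebraicClosure K} (hx : IsTranscendenceBasis k x)
    {G : Fin n → Derivation k (AlgebraicClosure K) (AlgebraicClosure K)}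
    (hG : ∀ i j, G i (x j) = if i = j then 1 else 0)
    (D : Derivation k (AlgebraicClosure K) (AlgebraicClosure K)) (z : AlgebraicClosure K) :
    D z = ∑ l, vec hx hG D l * G l z := by
  have h1 : D z = (∑ l, D (x l) • G l) z :=
    congrArg (fun X : Derivation k (AlgebraicClosure K) (AlgebraicClosure K) => X z)
      (der_expand hx hG D)
  rw [h1, Pool.Agent.W721.PG.EFF2.der_sum]
  rfl

theorem map_tan {n : ℕ} {x : Fin n → AlgebraicClosure K} (hx : IsTranscendenceBasis k x)
    {G : Fin n → Derivation k (AlgebraicClosure K) (AlgebraicClosure K)}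
    (hG : ∀ i j, G i (x j) = if i = j then 1 else 0)
    (B : IntermediateField k (AlgebraicClosure K)) (a : Fin n → AlgebraicClosure K) :
    a ∈ TB G (B : Set (AlgebraicClosure K)) ↔ (vec hx hG).symm a ∈ Tan B := by
  have h1 : ∀ z, (vec hx hG).symm a z = ∑ l, a l * G l z := by
    intro z
    show (∑ l, a l • G l) z = _
    rw [Pool.Agent.W721.PG.EFF2.der_sum]
  constructor
  · intro h b hb
    rw [h1]
    exact h b hb
  · intro h b hb
    rw [← h1]
    exact h b hb

/-- The dimension of the tangent space of the general member. -/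
theorem tan_rank {n : ℕ} (hn : Algebra.trdeg k K = n)
    {B : IntermediateField k (AlgebraicClosure K)} {f : ℕ} (hB : IsFamily B n f) :
    Module.finrank (AlgebraicClosure K) (Tan B) = f := by
  classical
  obtain ⟨hc, hf1, d, hd, hdf⟩ := hB
  subst hdf
  obtain ⟨t, ht⟩ := Pool.Agent.W636.PG.exists_basis k B d hd
  have hnΩ : Algebra.trdeg k (AlgebraicClosure K) = (d + f : ℕ) := by
    have h1 := trdeg_add_eq k K (A := AlgebraicClosure K)
    rw [hn, trdeg_eq_zero (R := K), add_zero] at h1
    exact h1.symm
  have hBf : Algebra.trdeg B (AlgebraicClosure K) = f := by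
    have h1 := trdeg_add_eq k B (A := AlgebraicClosure K)
    rw [hd, hnΩ] at h1
    push_cast at h1
    exact Cardinal.eq_of_add_eq_add_left h1 Cardinal.natCast_lt_aleph0
  have hB0 : CharZero B := charZero_of_injective_algebraMap (algebraMap k B).injective
  obtain ⟨x, hx⟩ := Pool.Agent.W636.PG.exists_basis B (AlgebraicClosure K) f hBf
  have happ := basis_append ht hx
  obtain ⟨G, hG⟩ := Pool.Agent.W636.PG.exists_duals k (AlgebraicClosure K) _ _ happ
  have hker : ∀ D : Derivation k (AlgebraicClosure K) (AlgebraicClosure K), D ∈ Tan B ↔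
      ∀ i : Fin d, D (Fin.append (algebraMap B (AlgebraicClosure K) ∘ t) x (Fin.castAdd f i)) =
        0 := by
    intro D
    constructor
    · intro h i
      rw [Fin.append_left]
      exact h _ (t i).2
    · intro h b hb
      refine der_alg_set D (S := Set.range fun i => (t i : AlgebraicClosure K)) ?_
          ((mem_of_alg B hc ht b).1 hb)
      rintro _ ⟨i, rfl⟩
      have h2 := h i
      rw [Fin.append_left] at h2
      exact h2
  let e : Tan B ≃ₗ[AlgebraicClosure K] (Fin f → AlgebraicClosure K) :=
    { toFun := fun D => fun j => (D : Derivation k (AlgebraicClosure K) (AlgebraicClosure K)) (x j)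
      invFun := fun a => ⟨∑ j, a j • G (Fin.natAdd d j), by
        rw [hker]
        intro i
        rw [Pool.Agent.W721.PG.EFF2.der_sum]
        refine Finset.sum_eq_zero fun j _ => ?_
        rw [hG, if_neg, mul_zero]
        intro h
        have h2 := congrArg Fin.val h
        simp only [Fin.val_natAdd, Fin.val_castAdd] at h2
        omega⟩
      map_add' := fun D D' => rfl
      map_smul' := fun c D => rfl
      left_inv := by
        rintro ⟨D, hD⟩
        apply Subtype.ext
        show ∑ j, D (x j) • G (Fin.natAdd d j) = D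
        conv_rhs => rw [der_expand happ hG D, Fin.sum_univ_add]
        have h1 : ∀ i : Fin d, D (Fin.append (algebraMap B (AlgebraicClosure K) ∘ t) x
            (Fin.castAdd f i)) • G (Fin.castAdd f i) = 0 := fun i => by
          rw [(hker D).1 hD i, zero_smul]
        rw [Finset.sum_eq_zero (fun i _ => h1 i), zero_add]
        refine Finset.sum_congr rfl fun j _ => ?_
        rw [Fin.append_right]
      right_inv := by
        intro a
        funext i
        show (∑ j, a j • G (Fin.natAdd d j)) (x i) = a i
        rw [Pool.Agent.W721.PG.EFF2.der_sum, Finset.sum_eq_single i]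
        · have h1 : G (Fin.natAdd d i) (x i) = 1 := by
            have h2 := hG (Fin.natAdd d i) (Fin.natAdd d i)
            rwa [Fin.append_right, if_pos rfl] at h2
          rw [h1, mul_one]
        · intro l _ hl
          have h1 : G (Fin.natAdd d l) (x i) = 0 := by
            have h2 := hG (Fin.natAdd d l) (Fin.natAdd d i)
            rw [Fin.append_right, if_neg] at h2
            · exact h2
            · intro h
              exact hl (Fin.natAdd_injective f d h)
          rw [h1, mul_zero]
        · intro h
          exact (h (Finset.mem_univ _)).elim }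
  rw [LinearEquiv.finrank_eq e, Module.finrank_fintype_fun_eq_card, Fintype.card_fin]

/-- transport of the condition -/
theorem bl_transport {n : ℕ} (hn : Algebra.trdeg k K = n) {r : ℕ}
    {B : Fin r → IntermediateField k (AlgebraicClosure K)} {f c : Fin r → ℕ} {d : ℕ} (hd : 1 ≤ d)
    (hB : ∀ j, IsFamily (B j) n (f j)) (hBL : BLCond n B f c d)
    {x : Fin n → AlgebraicClosure K} (hx : IsTranscendenceBasis k x)
    {G : Fin n → Derivation k (AlgebraicClosure K) (AlgebraicClosure K)}
    (hG : ∀ i j, G i (x j) = if i = j then 1 else 0) :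
    BLc (fun j => TB G (B j : Set (AlgebraicClosure K))) ⊥ ⊤ (fun j => (c j : ℚ) / d) := by
  have hmap : ∀ j, TB G (B j : Set (AlgebraicClosure K)) =
      (Tan (B j)).map (vec hx hG).toLinearMap := by
    intro j
    ext a
    rw [map_tan hx hG]
    constructor
    · intro h
      exact ⟨_, h, (vec hx hG).apply_symm_apply a⟩
    · rintro ⟨D, hD, rfl⟩
      have h1 : (vec hx hG).symm ((vec hx hG) D) = D := (vec hx hG).symm_apply_apply D
      exact h1.symm ▸ hD
  have hrk : ∀ U : Submodule (AlgebraicClosure K)
      (Derivation k (AlgebraicClosure K) (AlgebraicClosure K)),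
      Module.finrank (AlgebraicClosure K) (U.map (vec hx hG).toLinearMap) =
        Module.finrank (AlgebraicClosure K) U := fun U =>
    LinearEquiv.finrank_map_eq (vec hx hG) U
  intro U _ _
  obtain ⟨U', rfl⟩ : ∃ U' : Submodule (AlgebraicClosure K)
      (Derivation k (AlgebraicClosure K) (AlgebraicClosure K)),
      U'.map (vec hx hG).toLinearMap = U :=
    ⟨U.comap (vec hx hG).toLinearMap,
      Submodule.map_comap_eq_of_surjective (vec hx hG).surjective U⟩
  have h1 := hBL U'
  have h2 : ∀ j, dm (TB G (B j : Set (AlgebraicClosure K)) ⊓ ⊤) = f j := by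
    intro j
    unfold dm
    rw [inf_top_eq, hmap, hrk, tan_rank hn (hB j)]
  have h3 : ∀ j, dm (TB G (B j : Set (AlgebraicClosure K)) ⊓
      U'.map (vec hx hG).toLinearMap) =
      Module.finrank (AlgebraicClosure K) (U' ⊓ Tan (B j) : Submodule _ _) := by
    intro j
    unfold dm
    rw [hmap, ← Submodule.map_inf _ (vec hx hG).injective, hrk, inf_comm]
  have h4 : dm (⊤ : Submodule (AlgebraicClosure K) (Fin n → AlgebraicClosure K)) = n := by
    unfold dm
    rw [finrank_top, Module.finrank_fintype_fun_eq_card, Fintype.card_fin]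
  have h5 : dm (U'.map (vec hx hG).toLinearMap) =
      Module.finrank (AlgebraicClosure K) U' := by
    unfold dm
    rw [hrk]
  unfold slack
  simp only [h2, h3]
  rw [h4, h5]
  have h6 : ((d * n + ∑ j, c j * Module.finrank (AlgebraicClosure K)
      (U' ⊓ Tan (B j) : Submodule _ _) : ℕ) : ℚ) ≤
      ((d * Module.finrank (AlgebraicClosure K) U' + ∑ j, c j * f j : ℕ) : ℚ) := by
    exact_mod_cast h1
  push_cast at h6
  have hd0 : (0 : ℚ) < d := by exact_mod_cast hd
  have h7 : ∑ j, (c j : ℚ) / d * ((f j : ℚ) - Module.finrank (AlgebraicClosure K)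
      (U' ⊓ Tan (B j) : Submodule _ _)) = (∑ j, (c j : ℚ) * f j - ∑ j, (c j : ℚ) *
        Module.finrank (AlgebraicClosure K) (U' ⊓ Tan (B j) : Submodule _ _)) / d := by
    rw [← Finset.sum_sub_distrib, Finset.sum_div]
    refine Finset.sum_congr rfl fun j _ => ?_
    ring
  rw [h7, sub_nonneg, le_div_iff₀ hd0]
  linarith

end

end Pool.Agent.H891.BL
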