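import Pool.Agent.H891.BL.Sec
import Pool.Agent.H891.BL.Tan

/-! The Brascamp-Lieb inequality for sections. -/

set_option autoImplicit false
set_option linter.overlappingInstances false
set_option linter.unusedSectionVars false

open FF IntermediateField Algebra Pool.Agent.W619.PQ Pool.Agent.W619.PL Pool.Agent.W619.TW
  Pool.Agent.W603.LV Pool.Agent.W619.Y Pool.Agent.Y174 Pool.Agent.Y173.QA Pool.Agent.H891.KS
  Pool.Agent.H891.TY Pool.Agent.H891.RF
open scoped Pointwise

namespace Pool.Agent.H891.BL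

section

variable {k : Type} {K : Type} [Field k] [Field K] [Algebra k K] [CharZero k] [IsAlgClosed k]

/-- the ranks of the spaces of products -/
theorem rank_prod (hess : Algebra.EssFiniteType k K) {n : ℕ} (hn : Algebra.trdeg k K = n)
    {y : Fin n → K} (hy : IsTranscendenceBasis k y) {E : Fin n → Derivation k K K}
    (hE : ∀ i j, E i (y j) = if i = j then 1 else 0)
    {B : IntermediateField k (AlgebraicClosure K)} {f : ℕ} (hB : IsFamily B n f)
    {δ : Place k K → ℝ} {δ' : MemDiv B} (hδ : IsRestrMem B δ δ') {S : Finset K} {m b N D M : ℕ}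
    (hD : 1 ≤ D) {ω : Fin N → (Fin n → Derivation k K K) → K}
    (hω : ∀ l, PairSec k K n δ S m b (ω l))
    (hM : ∀ N', MemIndep B f δ' S (D * m) (D * b) N' → N' ≤ M) :
    Module.finrank B (Submodule.span B ((Set.range fun l =>
      algebraMap K (AlgebraicClosure K) (ω l E)) ^ D)) ≤ M := by
  classical
  obtain ⟨hc, hf1, d, hd, hdf⟩ := hB
  let e : Fin (Fintype.card (Fin D → Fin N)) ≃ (Fin D → Fin N) := (Fintype.equivFin _).symm
  let ω' : Fin (Fintype.card (Fin D → Fin N)) → (Fin n → Derivation k K K) → K :=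
    fun i X => ∏ l, ω (e i l) X
  have hω' : ∀ i, PairSec k K n δ S (D * m) (D * b) (ω' i) := fun i =>
    sec_prod hD fun l => hω (e i l)
  have h1 := hM _ (mem_rank hess hn hy hE B hc hd hdf hf1 hδ S ω' hω')
  refine le_trans ?_ h1
  have _ : FiniteDimensional B (Submodule.span B (Set.range fun l =>
      algebraMap K (AlgebraicClosure K) (ω' l E))) :=
    FiniteDimensional.span_of_finite B (Set.finite_range _)
  refine Submodule.finrank_mono (Submodule.span_mono ?_)
  intro z hz
  obtain ⟨g, rfl⟩ := Set.mem_pow.1 hz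
  choose j hj using fun i => (g i).2
  refine ⟨e.symm j, ?_⟩
  show algebraMap K (AlgebraicClosure K) (∏ l, ω (e (e.symm j) l) E) = _
  rw [Equiv.apply_symm_apply, map_prod, List.prod_ofFn]
  exact Finset.prod_congr rfl fun i _ => hj i

/-- **The Brascamp-Lieb inequality for sections.** -/
theorem bl (hess : Algebra.EssFiniteType k K) {n : ℕ} (hn : Algebra.trdeg k K = n) {r : ℕ}
    {B : Fin r → IntermediateField k (AlgebraicClosure K)} {f c : Fin r → ℕ} {d : ℕ} (hd : 1 ≤ d)
    (hB : ∀ j, IsFamily (B j) n (f j)) (hBL : BLCond n B f c d) :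
    ∃ D : ℕ, 0 < D ∧ ∀ (δ : Place k K → ℝ) (δ' : ∀ j, MemDiv (B j)),
      (∀ j, IsRestrMem (B j) δ (δ' j)) → ∀ (S : Finset K) (m b N : ℕ) (M : Fin r → ℕ),
      HasIndep k K n N (PairSec k K n δ S m b) →
      (∀ j N', MemIndep (B j) (f j) (δ' j) S (d * D * m) (d * D * b) N' → N' ≤ M j) →
      N ^ (d * D) ≤ ∏ j, M j ^ (c j * D) := by
  classical
  obtain ⟨y, hy⟩ := Pool.Agent.W636.PG.exists_basis k K n hn
  obtain ⟨E, hE⟩ := Pool.Agent.W636.PG.exists_duals k K n _ hy
  have hyΩ : IsTranscendenceBasis k (algebraMap K (AlgebraicClosure K) ∘ y) :=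
    hy.algebraMap_comp
  obtain ⟨G, hG⟩ := Pool.Agent.W636.PG.exists_duals k (AlgebraicClosure K) n _ hyΩ
  have hΩ0 : CharZero (AlgebraicClosure K) :=
    charZero_of_injective_algebraMap (algebraMap k (AlgebraicClosure K)).injective
  have hinf : Infinite (AlgebraicClosure K) := CharZero.infinite _
  obtain ⟨m₀, D, hD, hm₀, hcert⟩ := has_of_BL n ⊥ ⊤ bot_le (by
    rw [finrank_top, finrank_bot, zero_add, Module.finrank_fintype_fun_eq_card, Fintype.card_fin])
    _ (fun j => div_nonneg (Nat.cast_nonneg _) (Nat.cast_nonneg _))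
    (bl_transport hn hd hB hBL hyΩ hG)
  have hd0 : (0 : ℚ) < d := by exact_mod_cast hd
  have hle : ∀ j, d * m₀ j ≤ c j * D := by
    intro j
    have h1 := mul_le_mul_of_nonneg_left (hm₀ j) hd0.le
    have h2 : (d : ℚ) * (D * (c j / d)) = c j * D := by
      field_simp
    rw [h2] at h1
    exact_mod_cast h1
  obtain ⟨X, hX⟩ := cert_mono hle (cert_smul hcert d)
  have hdD : 1 ≤ d * D := Nat.mul_pos hd hD
  refine ⟨D, hD, fun δ δ' hδ S m b N M hN hM => ?_⟩
  obtain ⟨ω, hli, hω⟩ := hN
  have hexp : ∀ X : Derivation k K K, ∃ a : Fin n → K, X = ∑ i, a i • E i :=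
    fun X => ⟨_, der_expand hy hE X⟩
  have hlin := lin_frame hexp hli (fun l => (hω l).1) (one_ne_zero (α := K))
  simp only [one_mul] at hlin
  have hlinΩ : LinearIndependent k fun l => algebraMap K (AlgebraicClosure K) (ω l E) :=
    hlin.map' (IsScalarTower.toAlgHom k K (AlgebraicClosure K)).toLinearMap
      (LinearMap.ker_eq_bot.2 (algebraMap K (AlgebraicClosure K)).injective)
  have h1 := ineq (ders_comm hyΩ hG) (fun a ha => ders_const hyΩ hG ha) B _ X hX hlinΩ
  rw [Fintype.card_fin] at h1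
  refine h1.trans ?_
  rw [Fintype.prod_sigma]
  refine Finset.prod_le_prod' fun j _ => ?_
  refine (Finset.prod_le_prod' fun _ _ =>
    rank_prod hess hn hy hE (hB j) (hδ j) hdD hω (hM j)).trans ?_
  rw [Finset.prod_const, Finset.card_univ, Fintype.card_fin]

/-- the bound for the numerical dimension -/
theorem mem_num {B : IntermediateField k (AlgebraicClosure K)} {f a : ℕ} {δ' : MemDiv B}
    (h : MemNum B f δ' a) (S : Finset K) {D : ℕ} (hD : 1 ≤ D) :
    ∃ C : ℕ, ∀ m N : ℕ, 1 ≤ m → MemIndep B f δ' S (D * m) (D * 1) N → N ≤ C * m ^ a := by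
  classical
  obtain ⟨C, hC⟩ := h ((S.image (memHom B)).image fun s => s ^ D)
  refine ⟨C * D ^ a, fun m N hm hN => ?_⟩
  obtain ⟨ω, hli, hω⟩ := hN
  have h1 := hC (D * m) N (Nat.mul_pos hD hm) ⟨ω, hli, fun l => sec_pow (by
    have h2 := hω l
    rw [mul_one] at h2
    convert h2)⟩
  rwa [mul_pow, ← mul_assoc] at h1

end

end Pool.Agent.H891.BL
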