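import Pool.Agent.H891.BL.Gal
import Pool.Agent.H891.BL.Main
import Pool.Agent.H891.BL.Defs

/-! The conjugates of the families, and distributions. -/

set_option autoImplicit false
set_option linter.overlappingInstances false
set_option linter.unusedSectionVars false

open FF IntermediateField Algebra Pool.Agent.W619.PQ Pool.Agent.W619.PL Pool.Agent.W619.TW
  Pool.Agent.W603.LV Pool.Agent.W619.Y Pool.Agent.Y174 Pool.Agent.Y173.QA Pool.Agent.H891.KS
  Pool.Agent.H891.TY Pool.Agent.H891.RF
open scoped Pointwise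

namespace Pool.Agent.H891.BL

section

variable {k : Type} {K : Type} [Field k] [Field K] [Algebra k K]

/-- The conjugate of the field `B` under an automorphism over `K`. -/
noncomputable def conj (σ : AlgebraicClosure K ≃ₐ[K] AlgebraicClosure K)
    (B : IntermediateField k (AlgebraicClosure K)) :
    IntermediateField k (AlgebraicClosure K) :=
  B.map (σ.restrictScalars k).toAlgHom

theorem mem_conj {σ : AlgebraicClosure K ≃ₐ[K] AlgebraicClosure K}
    {B : IntermediateField k (AlgebraicClosure K)} {z : AlgebraicClosure K} :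
    z ∈ conj σ B ↔ σ.symm z ∈ B := by
  constructor
  · rintro ⟨b, hb, rfl⟩
    show σ.symm (σ b) ∈ B
    rw [σ.symm_apply_apply]
    exact hb
  · intro h
    exact ⟨_, h, σ.apply_symm_apply z⟩

theorem conj_conj (σ τ : AlgebraicClosure K ≃ₐ[K] AlgebraicClosure K)
    (B : IntermediateField k (AlgebraicClosure K)) :
    conj σ (conj τ B) = conj (τ.trans σ) B := by
  ext z
  rw [mem_conj, mem_conj, mem_conj]
  rfl

theorem conj_refl (B : IntermediateField k (AlgebraicClosure K)) :
    conj AlgEquiv.refl B = B := by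
  ext z
  rw [mem_conj]
  rfl

/-- the set of the conjugates -/
def Orb (B : IntermediateField k (AlgebraicClosure K)) :
    Set (IntermediateField k (AlgebraicClosure K)) :=
  {B' | ∃ σ : AlgebraicClosure K ≃ₐ[K] AlgebraicClosure K, B' = conj σ B}

variable [CharZero k]

theorem conj_le (B : IntermediateField k (AlgebraicClosure K)) (hB : IsAlgClosed B) {d : ℕ}
    {t : Fin d → B} (ht : IsTranscendenceBasis k t)
    {ρ : AlgebraicClosure K ≃ₐ[K] AlgebraicClosure K}
    (hρ : ∀ i, ρ (t i : AlgebraicClosure K) = t i) {z : AlgebraicClosure K} (hz : z ∈ B) :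
    ρ z ∈ B := by
  rw [mem_of_alg B hB ht] at hz ⊢
  have hfix : ∀ a ∈ Algebra.adjoin k (Set.range fun i => (t i : AlgebraicClosure K)),
      ρ a = a := by
    intro a ha
    induction ha using Algebra.adjoin_induction with
    | mem x hx =>
      obtain ⟨i, rfl⟩ := hx
      exact hρ i
    | algebraMap c =>
      rw [IsScalarTower.algebraMap_apply k K (AlgebraicClosure K)]
      exact ρ.commutes _
    | add x y _ _ hx hy => rw [map_add, hx, hy]
    | mul x y _ _ hx hy => rw [map_mul, hx, hy]
  exact IsAlgebraic.ringHom_of_comp_eq (f := RingHom.id _) (g := ρ.toRingEquiv.toRingHom) hz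
    Function.injective_id (RingHom.ext fun a => (hfix a a.2).symm)

theorem orb_finite {n : ℕ} {B : IntermediateField k (AlgebraicClosure K)} {f : ℕ}
    (hB : IsFamily B n f) : (Orb B).Finite := by
  classical
  obtain ⟨hc, hf1, d, hd, hdf⟩ := hB
  obtain ⟨t, ht⟩ := Pool.Agent.W636.PG.exists_basis k B d hd
  let O : Set (Fin d → AlgebraicClosure K) :=
    {u | ∃ σ : AlgebraicClosure K ≃ₐ[K] AlgebraicClosure K, ∀ i, u i = σ (t i)}
  have hO : O.Finite := by
    have h1 : (Set.pi Set.univ fun i => {w : AlgebraicClosure K |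
        ∃ σ : AlgebraicClosure K ≃ₐ[K] AlgebraicClosure K, w = σ (t i)}).Finite :=
      Set.Finite.pi fun i => finite_orbit (K := K) (t i : AlgebraicClosure K)
    refine h1.subset ?_
    rintro u ⟨σ, hσ⟩ i _
    exact ⟨σ, hσ i⟩
  let Φ : (Fin d → AlgebraicClosure K) → IntermediateField k (AlgebraicClosure K) := fun u =>
    if h : ∃ σ : AlgebraicClosure K ≃ₐ[K] AlgebraicClosure K, ∀ i, u i = σ (t i) then
      conj h.choose B else B
  refine (hO.image Φ).subset ?_
  rintro _ ⟨σ, rfl⟩
  refine ⟨fun i => σ (t i), ⟨σ, fun i => rfl⟩, ?_⟩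
  have h : ∃ τ : AlgebraicClosure K ≃ₐ[K] AlgebraicClosure K,
      ∀ i, σ (t i : AlgebraicClosure K) = τ (t i) := ⟨σ, fun i => rfl⟩
  show (if h : ∃ τ : AlgebraicClosure K ≃ₐ[K] AlgebraicClosure K,
      ∀ i, σ (t i : AlgebraicClosure K) = τ (t i) then conj h.choose B else B) = conj σ B
  rw [dif_pos h]
  have hch := h.choose_spec
  have key : ∀ τ τ' : AlgebraicClosure K ≃ₐ[K] AlgebraicClosure K,
      (∀ i, τ (t i : AlgebraicClosure K) = τ' (t i)) → conj τ B ≤ conj τ' B := by
    intro τ τ' hττ z hz
    rw [mem_conj] at hz ⊢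
    have h2 := conj_le B hc ht (ρ := τ.trans τ'.symm) (fun i => by
      show τ'.symm (τ (t i)) = t i
      rw [hττ i, τ'.symm_apply_apply]) hz
    have h3 : (τ.trans τ'.symm) (τ.symm z) = τ'.symm z := by
      show τ'.symm (τ (τ.symm z)) = _
      rw [τ.apply_symm_apply]
    rwa [h3] at h2
  exact le_antisymm (key _ _ fun i => (hch i).symm) (key _ _ hch)

/-- the rank over the conjugates -/
theorem rank_conj (σ : AlgebraicClosure K ≃ₐ[K] AlgebraicClosure K)
    (B : IntermediateField k (AlgebraicClosure K)) {W : Set (AlgebraicClosure K)} (hW : W.Finite)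
    (hσ : ∀ w ∈ W, σ w = w) :
    Module.finrank (conj σ B) (Submodule.span (conj σ B) W) ≤
      Module.finrank B (Submodule.span B W) := by
  classical
  have hfin := hW.fintype
  let w : Fin (Fintype.card W) → AlgebraicClosure K := fun i => ((Fintype.equivFin W).symm i : _)
  have hw : Set.range w = W := by
    ext z
    constructor
    · rintro ⟨i, rfl⟩
      exact ((Fintype.equivFin W).symm i).2
    · intro hz
      exact ⟨Fintype.equivFin W ⟨z, hz⟩, by
        show (((Fintype.equivFin W).symm (Fintype.equivFin W ⟨z, hz⟩) : W) :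
          AlgebraicClosure K) = z
        rw [Equiv.symm_apply_apply]⟩
  have h1 := rank_up (L := B) (B := conj σ B) (M := AlgebraicClosure K)
    (fun c => (⟨σ c, mem_conj.2 (by rw [σ.symm_apply_apply]; exact c.2)⟩ : conj σ B))
    (σ.toRingEquiv.toRingHom) (fun c => rfl) w
  have h2 : (fun l => (σ.toRingEquiv.toRingHom) (w l)) = w :=
    funext fun l => hσ _ (hw ▸ ⟨l, rfl⟩ : w l ∈ W)
  rw [h2, hw] at h1
  exact h1

end

end Pool.Agent.H891.BL
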