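import Pool.Agent.H891.BL.LS
import Pool.Agent.H891.BL.Grid

/-! The restrictions of the leading forms to the directions which kill a subfield. -/

set_option autoImplicit false
set_option linter.unusedSectionVars false

open MvPolynomial Pool.Agent.H891.TY
open scoped Pointwise

namespace Pool.Agent.H891.BL

section

variable {k Ω : Type*} [Field k] [Field Ω] [CharZero Ω] [Algebra k Ω] {n : ℕ}

/-- The directions which kill `B`. -/
def TB (E : Fin n → Derivation k Ω Ω) (B : Set Ω) : Submodule Ω (Fin n → Ω) where
  carrier := {d | ∀ b ∈ B, ∑ l, d l * E l b = 0}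
  add_mem' := fun {d d'} hd hd' b hb => by
    have h1 : ∑ l, (d + d') l * E l b = ∑ l, d l * E l b + ∑ l, d' l * E l b := by
      rw [← Finset.sum_add_distrib]
      exact Finset.sum_congr rfl fun l _ => by rw [Pi.add_apply, add_mul]
    rw [h1, hd b hb, hd' b hb, add_zero]
  zero_mem' := fun b _ => Finset.sum_eq_zero fun l _ => by rw [Pi.zero_apply, zero_mul]
  smul_mem' := fun c d hd b hb => by
    have h1 : ∑ l, (c • d) l * E l b = c * ∑ l, d l * E l b := by
      rw [Finset.mul_sum]
      exact Finset.sum_congr rfl fun l _ => by rw [Pi.smul_apply, smul_eq_mul, mul_assoc]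
    rw [h1, hd b hb, mul_zero]

/-- The restriction of polynomials to a subspace, as functions. -/
noncomputable def rs (T : Submodule Ω (Fin n → Ω)) :
    MvPolynomial (Fin n) Ω →ₗ[Ω] (T → Ω) :=
  LinearMap.pi fun t => (aeval (t : Fin n → Ω)).toLinearMap

theorem rs_apply (T : Submodule Ω (Fin n → Ω)) (p : MvPolynomial (Fin n) Ω) (t : T) :
    rs T p t = eval (t : Fin n → Ω) p := by
  rw [← aeval_eq_eval]
  rfl

/-- The power series with homogeneous coefficients. -/
noncomputable def hm : Subring (PowerSeries (MvPolynomial (Fin n) Ω)) where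
  carrier := {y | ∀ N, (PowerSeries.coeff N y).IsHomogeneous N}
  mul_mem' := by
    intro y y' hy hy' N
    rw [PowerSeries.coeff_mul]
    refine IsHomogeneous.sum _ _ _ fun p hp => ?_
    rw [← Finset.HasAntidiagonal.mem_antidiagonal.1 hp]
    exact (hy p.1).mul (hy' p.2)
  one_mem' := by
    intro N
    rw [PowerSeries.coeff_one]
    split_ifs with h
    · rw [h]
      exact isHomogeneous_one _ _
    · exact isHomogeneous_zero _ _ _
  add_mem' := by
    intro y y' hy hy' N
    rw [map_add]
    exact (hy N).add (hy' N)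
  zero_mem' := by
    intro N
    rw [map_zero]
    exact isHomogeneous_zero _ _ _
  neg_mem' := by
    intro y hy N
    rw [map_neg]
    exact (hy N).neg

theorem poly_indep {T : Submodule Ω (Fin n → Ω)} {ι : Type*} [Fintype ι]
    {J : Finset ι} (hJ : J.Nonempty) {h g : ι → MvPolynomial (Fin n) Ω} {e : ι → ℕ}
    (hhom : ∀ j ∈ J, (h j).IsHomogeneous (e j)) (h0 : ∀ j ∈ J, h j ≠ 0)
    (hT : ∀ j ∈ J, ∀ t ∈ T, dc t (h j) = 0) (hsum : ∑ j ∈ J, h j * g j = 0)
    (hg : LinearIndependent Ω fun j => rs T (g j)) : False := by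
  classical
  have hinf : Infinite Ω := CharZero.infinite Ω
  obtain ⟨j₀, hj₀, hmin⟩ := Finset.exists_min_image J e hJ
  -- the polynomials in one variable
  have key : ∀ (x : Fin n → Ω) (t : T), ∑ j ∈ J, (if e j = e j₀ then eval x (h j) else 0) *
      eval (t : Fin n → Ω) (g j) = 0 := by
    intro x t
    let θ : MvPolynomial (Fin n) Ω →ₐ[Ω] Polynomial Ω :=
      aeval fun i => Polynomial.C (x i) * Polynomial.X + Polynomial.C ((t : Fin n → Ω) i)
    have hθ : ∀ (s : Ω) (p : MvPolynomial (Fin n) Ω), Polynomial.eval s (θ p) =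
        eval (fun i => s * x i + (t : Fin n → Ω) i) p := by
      intro s p
      show Polynomial.eval s (aeval (fun i => Polynomial.C (x i) * Polynomial.X +
        Polynomial.C ((t : Fin n → Ω) i)) p) = _
      induction p using MvPolynomial.induction_on with
      | C a => rw [aeval_C, Polynomial.algebraMap_eq, Polynomial.eval_C, eval_C]
      | add p q hp hq => rw [map_add, map_add, Polynomial.eval_add, hp, hq]
      | mul_X p i hp =>
        rw [map_mul, map_mul, Polynomial.eval_mul, hp, aeval_X, eval_X, Polynomial.eval_add,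
          Polynomial.eval_mul, Polynomial.eval_C, Polynomial.eval_X, Polynomial.eval_C,
          mul_comm (x i)]
    have h1 : ∀ j ∈ J, θ (h j) = Polynomial.C (eval x (h j)) * Polynomial.X ^ (e j) := by
      intro j hj
      apply Polynomial.funext
      intro s
      rw [hθ, ← eval_tr, tr_eq (hT j hj t t.2), eval_scale (hhom j hj), Polynomial.eval_mul,
        Polynomial.eval_C, Polynomial.eval_pow, Polynomial.eval_X, mul_comm]
    have h2 : Polynomial.X ^ (e j₀) * ∑ j ∈ J, Polynomial.C (eval x (h j)) *
        Polynomial.X ^ (e j - e j₀) * θ (g j) = 0 := by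
      have h3 := congrArg θ hsum
      rw [map_sum, map_zero] at h3
      rw [← h3, Finset.mul_sum]
      refine Finset.sum_congr rfl fun j hj => ?_
      rw [map_mul, h1 j hj, ← pow_mul_pow_sub (Polynomial.X : Polynomial Ω) (hmin j hj)]
      ring
    have h3 := (mul_eq_zero.1 h2).resolve_left (pow_ne_zero _ Polynomial.X_ne_zero)
    have h4 := congrArg (Polynomial.eval 0) h3
    rw [Polynomial.eval_zero, Polynomial.eval_finsetSum] at h4
    refine (Finset.sum_congr rfl fun j hj => ?_).trans h4
    rw [Polynomial.eval_mul, Polynomial.eval_mul, Polynomial.eval_C, Polynomial.eval_pow,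
      Polynomial.eval_X, hθ]
    have h5 : eval (fun i => (0 : Ω) * x i + (t : Fin n → Ω) i) (g j) =
        eval (t : Fin n → Ω) (g j) := by
      congr 1
      congr 1
      funext i
      rw [zero_mul, zero_add]
    rw [h5]
    congr 1
    split_ifs with h6
    · rw [h6, Nat.sub_self, pow_zero, mul_one]
    · rw [zero_pow (fun h7 => h6 (le_antisymm (Nat.sub_eq_zero_iff_le.1 h7) (hmin j hj))), mul_zero]
  apply h0 j₀ hj₀
  apply MvPolynomial.funext
  intro x
  rw [map_zero]
  have h1 : ∑ j, (if j ∈ J then (if e j = e j₀ then eval x (h j) else 0) else 0) • rs T (g j) =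
      0 := by
    funext t
    rw [Finset.sum_apply, Pi.zero_apply]
    refine Eq.trans ?_ (key x t)
    rw [← Finset.sum_subset (Finset.subset_univ J)]
    · refine Finset.sum_congr rfl fun j hj => ?_
      rw [Pi.smul_apply, smul_eq_mul, rs_apply, if_pos hj]
    · intro j _ hj
      rw [Pi.smul_apply, smul_eq_mul, if_neg hj, zero_mul]
  have h2 := Fintype.linearIndependent_iff.1 hg _ h1 j₀
  rwa [if_pos hj₀, if_pos rfl] at h2

variable {E : Fin n → Derivation k Ω Ω}

/-- independent restrictions of leading forms -/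
theorem restr_indep {B : Set Ω} {s : ℕ}
    {y : Fin s → PowerSeries (MvPolynomial (Fin n) Ω)} {N : Fin s → ℕ}
    (hN : ∀ j, ∀ i < N j, PowerSeries.coeff i (y j) = 0)
    (hli : LinearIndependent Ω fun j => rs (TB E B) (PowerSeries.coeff (N j) (y j))) :
    LinearIndependent (con E B ⊓ hm : Subring (PowerSeries (MvPolynomial (Fin n) Ω))) y := by
  classical
  rw [Fintype.linearIndependent_iff]
  intro a ha
  by_contra hcon
  push Not at hcon
  obtain ⟨j₁, hj₁⟩ := hcon
  obtain ⟨j₀, hj₀, hmin⟩ := Finset.exists_min_image (Finset.univ.filter fun j => a j ≠ 0)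
    (fun j => od (a j : PowerSeries (MvPolynomial (Fin n) Ω)) + N j)
    ⟨j₁, Finset.mem_filter.2 ⟨Finset.mem_univ _, hj₁⟩⟩
  have hj₀' := (Finset.mem_filter.1 hj₀).2
  set M := od (a j₀ : PowerSeries (MvPolynomial (Fin n) Ω)) + N j₀ with hM
  let J : Finset (Fin s) := Finset.univ.filter fun j => a j ≠ 0 ∧
    M = od (a j : PowerSeries (MvPolynomial (Fin n) Ω)) + N j
  have hane : ∀ j, a j ≠ 0 → (a j : PowerSeries (MvPolynomial (Fin n) Ω)) ≠ 0 :=
    fun j h h' => h (Subtype.ext h')
  refine poly_indep (T := TB E B) (J := J)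
    ⟨j₀, Finset.mem_filter.2 ⟨Finset.mem_univ _, hj₀', hM⟩⟩
    (h := fun j => PowerSeries.coeff (od (a j : PowerSeries (MvPolynomial (Fin n) Ω)))
      (a j : PowerSeries (MvPolynomial (Fin n) Ω)))
    (g := fun j => PowerSeries.coeff (N j) (y j))
    (e := fun j => od (a j : PowerSeries (MvPolynomial (Fin n) Ω))) (fun j _ => (a j).2.2 _)
    (fun j hj => coeff_od (hane j (Finset.mem_filter.1 hj).2.1)) (fun j _ t ht => ?_) ?_ hli
  · have h1 := low E (a j).2.1 (N := od (a j : PowerSeries (MvPolynomial (Fin n) Ω)))
      (fun i hi => coeff_lt_od hi) (d := t) ht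
    rw [dc_apply, ← h1]
    exact Finset.sum_congr rfl fun l _ => by rw [smul_eq_C_mul]
  · have h1 := congrArg (PowerSeries.coeff M) ha
    rw [map_sum, map_zero] at h1
    rw [← h1, ← Finset.sum_subset (Finset.subset_univ J)]
    · refine Finset.sum_congr rfl fun j hj => ?_
      have h2 := (Finset.mem_filter.1 hj).2
      show _ = PowerSeries.coeff M ((a j : PowerSeries (MvPolynomial (Fin n) Ω)) * y j)
      rw [coeff_mul_low (fun i hi => coeff_lt_od hi) (hN j) h2.2.le, if_pos h2.2]
    · intro j _ hj
      show PowerSeries.coeff M ((a j : PowerSeries (MvPolynomial (Fin n) Ω)) * y j) = 0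
      by_cases h3 : a j = 0
      · have h4 : (a j : PowerSeries (MvPolynomial (Fin n) Ω)) = 0 := by
          rw [h3]
          rfl
        rw [h4, zero_mul, map_zero]
      · have h4 := hmin j (Finset.mem_filter.2 ⟨Finset.mem_univ _, h3⟩)
        rw [coeff_mul_low (fun i hi => coeff_lt_od hi) (hN j) h4, if_neg]
        intro h5
        exact hj (Finset.mem_filter.2 ⟨Finset.mem_univ _, h3, h5⟩)

/-- The restrictions of the leading forms of `W` to the directions which kill `B`: their space has at
most the dimension of `B W` over `B`. -/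
theorem restr_rank (hcomm : ∀ l m a, E l (E m a) = E m (E l a)) (B : IntermediateField k Ω)
    {W : Set Ω} [FiniteDimensional B (Submodule.span B W)] :
    FiniteDimensional Ω ((LS E W).map (rs (TB E (B : Set Ω)))) ∧
    Module.finrank Ω ((LS E W).map (rs (TB E (B : Set Ω)))) ≤
      Module.finrank B (Submodule.span B W) := by
  classical
  let f := Module.finBasis B (Submodule.span B W)
  let R := Module.finrank B (Submodule.span B W)
  have hspan : ∀ z ∈ VW E W, z ∈ Submodule.span
      (con E (B : Set Ω) ⊓ hm : Subring (PowerSeries (MvPolynomial (Fin n) Ω)))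
      (Set.range fun s => ser E (f s : Ω)) := by
    intro z hz
    induction hz using Submodule.span_induction with
    | mem x hx =>
      obtain ⟨w, hw, rfl⟩ := hx
      have hmem : w ∈ Submodule.span B W := Submodule.subset_span hw
      have h2 := f.sum_repr ⟨w, hmem⟩
      have h3 := (congrArg (Submodule.subtype _) h2).symm
      rw [map_sum] at h3
      change w = _ at h3
      show ser E w ∈ _
      rw [h3, ser_sum]
      refine Submodule.sum_mem _ fun s _ => ?_
      have h4 : (Submodule.subtype (Submodule.span B W)) ((f.repr ⟨w, hmem⟩) s • f s) =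
          ((f.repr ⟨w, hmem⟩ s : B) : Ω) * (f s : Ω) := rfl
      rw [h4, ser_mul]
      exact Submodule.smul_mem _ (⟨_, ser_mem E hcomm (f.repr ⟨w, hmem⟩ s).2, fun N => by
        rw [coeff_ser]
        exact th_hom E N _⟩ :
        (con E (B : Set Ω) ⊓ hm : Subring (PowerSeries (MvPolynomial (Fin n) Ω))))
        (Submodule.subset_span ⟨s, rfl⟩)
    | zero => exact Submodule.zero_mem _
    | add x y _ _ hx hy => exact Submodule.add_mem _ hx hy
    | smul c x _ hx =>
      have h4 : c • x = (⟨_, const_mem E (B : Set Ω) c, fun N => by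
          rw [PowerSeries.coeff_C]
          split_ifs with h
          · rw [h]
            exact isHomogeneous_C _ _
          · exact isHomogeneous_zero _ _ _⟩ :
          (con E (B : Set Ω) ⊓ hm : Subring (PowerSeries (MvPolynomial (Fin n) Ω)))) • x := by
        show c • x = PowerSeries.C (C c : MvPolynomial (Fin n) Ω) * x
        ext1 N
        rw [coeff_smul', PowerSeries.coeff_C_mul, smul_eq_C_mul]
      rw [h4]
      exact Submodule.smul_mem _ _ hx
  have hbound : ∀ (s : ℕ) (v : Fin s → (TB E (B : Set Ω) → Ω)),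
      (∀ j, v j ∈ (rs (TB E (B : Set Ω))) '' lead (VW E W)) → LinearIndependent Ω v → s ≤ R := by
    intro s v hv hli
    choose g hg hgv using hv
    choose y hy N hN hyg using hg
    have h1 := restr_indep (E := E) (B := (B : Set Ω)) (y := y) (N := N) hN (by
      have h2 : (fun j => rs (TB E (B : Set Ω)) (PowerSeries.coeff (N j) (y j))) = v :=
        funext fun j => by rw [hyg, hgv]
      rw [h2]
      exact hli)
    have h5 := linearIndependent_le_span_aux' y h1 (Set.range fun s => ser E (f s : Ω)) (by
        rintro _ ⟨b, rfl⟩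
        exact hspan _ (hy b))
    rw [Fintype.card_fin] at h5
    refine h5.trans ?_
    have h6 := Fintype.card_range_le (fun s => ser E (f s : Ω))
    rw [Fintype.card_fin] at h6
    exact h6
  have hmap : (LS E W).map (rs (TB E (B : Set Ω))) =
      Submodule.span Ω ((rs (TB E (B : Set Ω))) '' lead (VW E W)) := by
    unfold LS
    rw [Submodule.map_span]
  obtain ⟨b, hb, hbs, hbl⟩ := exists_linearIndependent Ω
    ((rs (TB E (B : Set Ω))) '' lead (VW E W))
  have hfin : b.Finite := by
    by_contra hinf
    have h1 : Infinite b := Set.infinite_coe_iff.2 hinf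
    let v : Fin (R + 1) → b := fun j => (Infinite.natEmbedding b) j
    have h2 := hbound (R + 1) (fun j => (v j : TB E (B : Set Ω) → Ω)) (fun j => hb (v j).2)
      (hbl.comp v fun i j hij => Fin.ext ((Infinite.natEmbedding b).injective hij))
    omega
  have hfd : FiniteDimensional Ω ((LS E W).map (rs (TB E (B : Set Ω)))) := by
    rw [hmap, ← hbs]
    exact FiniteDimensional.span_of_finite Ω hfin
  refine ⟨hfd, ?_⟩
  have h1 : Fintype b := hfin.fintype
  have h2 := hbound (Fintype.card b) (fun j => ((Fintype.equivFin b).symm j : TB E (B : Set Ω) → Ω))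
    (fun j => hb ((Fintype.equivFin b).symm j).2)
    (hbl.comp _ (Fintype.equivFin b).symm.injective)
  rw [hmap, ← hbs]
  refine le_trans ?_ h2
  have h3 := finrank_span_le_card (R := Ω) b
  rwa [Set.toFinset_card] at h3

end

end Pool.Agent.H891.BL
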