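import Pool.Agent.H891.TY.Main

/-! Products of sections. -/

set_option autoImplicit false
set_option linter.overlappingInstances false
set_option linter.unusedSectionVars false

open FF IntermediateField Algebra Pool.Agent.W619.PQ Pool.Agent.W619.PL Pool.Agent.W619.TW
  Pool.Agent.W603.LV Pool.Agent.W619.Y Pool.Agent.Y174 Pool.Agent.Y173.QA Pool.Agent.H891.KS
  Pool.Agent.H891.TY

namespace Pool.Agent.H891.BL

section

variable {k K : Type} [Field k] [Field K] [Algebra k K] {n : ℕ}

theorem ord_prod' (v : Place k K) {ι : Type} (s : Finset ι) {g : ι → K} (hg : ∀ i ∈ s, g i ≠ 0) :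
    v.ord (∏ i ∈ s, g i) = ∑ i ∈ s, v.ord (g i) := by
  classical
  induction s using Finset.induction_on with
  | empty => rw [Finset.prod_empty, Finset.sum_empty, v.ord_one]
  | insert i s hi ih =>
    rw [Finset.prod_insert hi, Finset.sum_insert hi, v.ord_mul (hg i (Finset.mem_insert_self _ _))
      (Finset.prod_ne_zero_iff.2 fun j hj => hg j (Finset.mem_insert_of_mem hj)),
      ih fun j hj => hg j (Finset.mem_insert_of_mem hj)]

/-- products of sections -/
theorem sec_prod {δ : Place k K → ℝ} {S : Finset K} {m b D : ℕ} (hD : 1 ≤ D)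
    {ω : Fin D → (Fin n → Derivation k K K) → K} (hω : ∀ l, PairSec k K n δ S m b (ω l)) :
    PairSec k K n δ S (D * m) (D * b) (fun X => ∏ l, ω l X) := by
  classical
  refine ⟨fun A X => ?_, fun v hv X hX => ?_⟩
  · show ∏ l, ω l (fun i => ∑ j, A i j • X j) = A.det ^ (D * m) * ∏ l, ω l X
    have h1 : ∀ l, ω l (fun i => ∑ j, A i j • X j) = A.det ^ m * ω l X := fun l => (hω l).1 A X
    simp only [h1]
    rw [Finset.prod_mul_distrib, Finset.prod_const, Finset.card_univ, Fintype.card_fin, ← pow_mul,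
      mul_comm m D]
  · by_cases h0 : ∃ l, ω l X = 0
    · obtain ⟨l, hl⟩ := h0
      left
      exact Finset.prod_eq_zero (Finset.mem_univ l) hl
    push Not at h0
    right
    have h1 : ∀ l, ∃ s ∈ S, s ≠ 0 ∧ (b : ℝ) * v.ord s - m * δ v ≤ v.ord (ω l X) := fun l =>
      ((hω l).2 v hv X hX).resolve_left (h0 l)
    choose s hs hs0 hsv using h1
    obtain ⟨l₀, -, hmin⟩ := Finset.exists_min_image Finset.univ (fun l => v.ord (s l))
      ⟨(⟨0, hD⟩ : Fin D), Finset.mem_univ _⟩
    refine ⟨s l₀, hs l₀, hs0 l₀, ?_⟩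
    have h2 : v.ord (∏ l, ω l X) = ∑ l, v.ord (ω l X) := ord_prod' v _ fun l _ => h0 l
    show _ ≤ ((v.ord (∏ l, ω l X) : ℤ) : ℝ)
    rw [h2]
    push_cast
    have h3 : ∀ l, (b : ℝ) * v.ord (s l₀) - m * δ v ≤ v.ord (ω l X) := by
      intro l
      have h4 : (v.ord (s l₀) : ℝ) ≤ v.ord (s l) := by exact_mod_cast hmin l (Finset.mem_univ l)
      have h5 := mul_le_mul_of_nonneg_left h4 (Nat.cast_nonneg (α := ℝ) b)
      linarith [hsv l]
    have h4 : ∑ _l : Fin D, ((b : ℝ) * v.ord (s l₀) - m * δ v) ≤ ∑ l, (v.ord (ω l X) : ℝ) :=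
      Finset.sum_le_sum fun l _ => h3 l
    rw [Finset.sum_const, Finset.card_univ, Fintype.card_fin, nsmul_eq_mul] at h4
    linarith

/-- multiples of a divisor -/
theorem sec_pow [DecidableEq K] {δ : Place k K → ℝ} {S : Finset K} {m D : ℕ}
    {ω : (Fin n → Derivation k K K) → K} (hω : PairSec k K n δ S m D ω) :
    PairSec k K n δ (S.image fun s => s ^ D) m 1 ω := by
  refine ⟨hω.1, fun v hv X hX => ?_⟩
  rcases hω.2 v hv X hX with h | ⟨s, hs, hs0, h⟩
  · exact Or.inl h
  · right
    refine ⟨s ^ D, Finset.mem_image_of_mem _ hs, pow_ne_zero _ hs0, ?_⟩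
    have h1 : v.ord (s ^ D) = D * v.ord s := by
      have h2 := ord_prod' v (Finset.univ : Finset (Fin D)) (g := fun _ => s) fun _ _ => hs0
      rw [Finset.prod_const, Finset.sum_const, Finset.card_univ, Fintype.card_fin,
        nsmul_eq_mul] at h2
      exact_mod_cast h2
    rw [h1]
    push_cast
    rw [one_mul]
    exact h

end

end Pool.Agent.H891.BL
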